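import Pool.Agent.Lib.MP_f80667_ag.St.Lz
import Pool.Agent.Lib.MP_f80667_ag.Gx.TeC

/-! The local theorem. -/

open ZC BE PE CV IntermediateField

namespace GX

variable {F : Type} [Field F] {N d m g h : ℕ} {ι : Type} {f : ι → MvPolynomial (Fin N) F}
  {K Ω : Type} [Field K] [CharZero K] [Field Ω] [Algebra K Ω] [Algebra F K] [Algebra F Ω]
  [IsScalarTower F K Ω] [IsAlgClosure K Ω] {L : Ld K Ω} {ψ : Fin m → Prj K N d}
  {ω : Om F N g h} {A : Type} [AddCommGroup A] {S : ((Xf f).pt Ω →₀ ℤ) →+ A}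
  {Lv : A → (Fin g → L.κ) → Prop}

/-- Proof: as `GM.dl_le` with `lam_sum` for the quotient map by `D 2 ⊔ R ⊔ p D 1`. -/
theorem sum_le [L.Unr] (hG : Gdy f L ψ ω) (hS : Sml f L ω S Lv) {z : (Xf f).pt Ω →₀ ℤ}
    (hz : z ∈ Dl f L 1 (⊥ : IntermediateField K Ω)) (h0 : S z = 0) :
    ∃ z₁ ∈ Dl f L 1 (⊥ : IntermediateField K Ω), ∃ z₂ ∈ Dl f L 2 (⊥ : IntermediateField K Ω),
      z - L.p • z₁ - z₂ ∈ (Xf f).ratEq K Ω := by
  let H : AddSubgroup ((Xf f).pt Ω →₀ ℤ) := (Dl f L 2 (⊥ : IntermediateField K Ω) ⊔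
    (Xf f).ratEq K Ω) ⊔ (Dl f L 1 (⊥ : IntermediateField K Ω)).map (nsmulAddMonoidHom L.p)
  have hlm : Lm f L (QuotientAddGroup.mk' H) := by
    refine ⟨fun y hy => ?_, fun y hy => ?_, fun y hy => ?_⟩
    · exact (QuotientAddGroup.eq_zero_iff y).2
        ((le_sup_right.trans le_sup_left : (Xf f).ratEq K Ω ≤ H) hy)
    · exact (QuotientAddGroup.eq_zero_iff y).2
        ((le_sup_left.trans le_sup_left : Dl f L 2 (⊥ : IntermediateField K Ω) ≤ H) hy)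
    · rw [← map_nsmul]
      exact (QuotientAddGroup.eq_zero_iff _).2 ((le_sup_right :
        (Dl f L 1 (⊥ : IntermediateField K Ω)).map (nsmulAddMonoidHom L.p) ≤ H) ⟨y, hy, rfl⟩)
  have h1 : z ∈ H := (QuotientAddGroup.eq_zero_iff z).1
    (lam_sum hG hS hlm hz (by rw [h0]; exact hS.zero))
  obtain ⟨y, hy, w, ⟨z₁, hz₁, rfl⟩, rfl⟩ := AddSubgroup.mem_sup.1 h1
  obtain ⟨z₂, hz₂, r, hr, rfl⟩ := AddSubgroup.mem_sup.1 hy
  refine ⟨z₁, hz₁, z₂, hz₂, ?_⟩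
  have e : z₂ + r + nsmulAddMonoidHom L.p z₁ - L.p • z₁ - z₂ = r := by
    change z₂ + r + L.p • z₁ - L.p • z₁ - z₂ = r
    abel
  rw [e]
  exact hr

/-- The quotient has the sum `0` too. -/
private theorem lo_quot (hS : Sml f L ω S Lv) {z z' : (Xf f).pt Ω →₀ ℤ} (h0 : S z = 0)
    (hz' : z' ∈ Dl f L 1 (⊥ : IntermediateField K Ω)) {n : ℕ} (hn : n ≠ 0)
    (h : z - n • z' ∈ (Xf f).ratEq K Ω) : S z' = 0 := by
  obtain ⟨b, hb⟩ := hS.dl_one hz'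
  refine hS.tf _ b hb n hn ?_
  have h1 := hS.rat _ h
  rw [map_sub, h0, map_nsmul, zero_sub, neg_eq_zero] at h1
  exact h1

/-- Displacements with sum `0` are divisible by every prime. -/
private theorem lo_div [L.Unr] (hG : Gdy f L ψ ω) (hS : Sml f L ω S Lv) {l : ℕ} (hl : l.Prime)
    {z : (Xf f).pt Ω →₀ ℤ} (hz : z ∈ Dl f L 1 (⊥ : IntermediateField K Ω)) (h0 : S z = 0) :
    ∃ z' ∈ Dl f L 1 (⊥ : IntermediateField K Ω), z - l • z' ∈ (Xf f).ratEq K Ω := by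
  by_cases hlp : l = L.p
  · subst hlp
    obtain ⟨z₁, h₁, z₂, h₂, h3⟩ := sum_le hG hS hz h0
    have h2 := hG.h2
    obtain ⟨z', h', h4⟩ := d1 hG.hm hG.pj hG.cv (l := L.p) (u := 1) (s := 1) hl (by rw [pow_one])
      (by omega) z₂ h₂
    refine ⟨z₁ + z', add_mem h₁ h', ?_⟩
    have e : z - L.p • (z₁ + z') = (z - L.p • z₁ - z₂) + (z₂ - L.p • z') := by
      rw [nsmul_add]
      abel
    rw [e]
    exact add_mem h3 h4
  · have hnd : ¬ L.p ∣ l := fun hd =>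
      (hl.eq_one_or_self_of_dvd _ hd).elim L.pp.ne_one fun h1 => hlp h1.symm
    exact d1 hG.hm hG.pj hG.cv (u := 0) (s := 1) hl (by rw [pow_zero]; exact L.nat_unit hnd)
      (by have := hl.two_le; omega) z hz

/-- Proof: `z = l • z' + r` by `sum_le` and `d1` as in `GM.dl_div`; `l • S z' = 0` by `hS.rat`; `Sml.dl_one`, `hS.tf`. Then induction on the prime factors as in `GM.loc`. -/
theorem sum_divm [L.Unr] (hG : Gdy f L ψ ω) (hS : Sml f L ω S Lv) (n : ℕ) (hn : n ≠ 0) :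
    ∀ z ∈ Dl f L 1 (⊥ : IntermediateField K Ω), S z = 0 →
      ∃ z' ∈ Dl f L 1 (⊥ : IntermediateField K Ω), S z' = 0 ∧
        z - n • z' ∈ (Xf f).ratEq K Ω := by
  induction n using Nat.recOnMul with
  | zero => exact absurd rfl hn
  | one => exact fun d hd h0 => ⟨d, hd, h0, by rw [one_nsmul, sub_self]; exact zero_mem _⟩
  | prime l hl =>
    intro d hd h0
    obtain ⟨d', hd', h1⟩ := lo_div hG hS hl hd h0
    exact ⟨d', hd', lo_quot hS h0 hd' hn h1, h1⟩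
  | mul a b iha ihb =>
    intro d hd h0
    obtain ⟨d₁, h₁, s₁, e₁⟩ := iha (left_ne_zero_of_mul hn) d hd h0
    obtain ⟨d₂, h₂, s₂, e₂⟩ := ihb (right_ne_zero_of_mul hn) d₁ h₁ s₁
    refine ⟨d₂, h₂, s₂, ?_⟩
    have e : d - (a * b) • d₂ = (d - a • d₁) + a • (d₁ - b • d₂) := by
      rw [nsmul_sub, mul_nsmul']
      abel
    rw [e]
    exact add_mem e₁ (nsmul_mem e₂ a)

/-- **The local theorem.** Proof: `zr`, `hS.rat`, `sum_divm`, `dl_zr`. -/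
theorem loc2 [L.Unr] (hG : Gdy f L ψ ω) (hS : Sml f L ω S Lv) {z : (Xf f).pt Ω →₀ ℤ}
    (hz : z ∈ (Xf f).cyc K Ω) (hr : Zr f L z) (h0 : S z = 0) {n : ℕ} (hn : n ≠ 0) :
    ∃ z' ∈ (Xf f).cyc K Ω, Zr f L z' ∧ S z' = 0 ∧ z - n • z' ∈ (Xf f).ratEq K Ω := by
  obtain ⟨d, hd, r, hrr, rfl⟩ := AddSubgroup.mem_sup.1 (zr hG.hm hG.pj hG.cv hz hr)
  rw [map_add, hS.rat r hrr, add_zero] at h0
  obtain ⟨d', hd', s', e⟩ := sum_divm hG hS n hn d hd h0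
  obtain ⟨h1, h2⟩ := dl_zr hG.hm hd'
  refine ⟨d', h1, h2, s', ?_⟩
  have e' : d + r - n • d' = (d - n • d') + r := by abel
  rw [e']
  exact add_mem e hrr

end GX
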