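import Pool.Agent.Lib.MP_f80667_ag.St.Je
import Pool.Agent.Lib.MP_f80667_ag.St.Lo
import Pool.Agent.Lib.MP_f80667_ag.Sb.L
import Pool.Agent.Lib.MP_f80667_ag.Gx.PjP
import Pool.Agent.Lib.MP_f80667_ag.Gx.VD

/-!
The global theorem.

* `Dva M V K`: every cycle over `K` with reduction `0` whose image has the sum `0` is, for all `m ≠ 0`, rationally equivalent to `m` times
  a cycle of the same kind.
-/

open ZC BE PE CV IntermediateField IsDedekindDomain NumberField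

namespace GX

/-- The cycles over `K` with reduction `0` and sum `0` are divisible. -/
def Dva {F : Type} [Field F] {N N' k k' : ℕ} {ι ι' : Type} {f : ι → MvPolynomial (Fin N) F}
    {A : Gv F N' k' ι'} (M : Mf f A k) {Ω : Type} [Field Ω] [Algebra F Ω]
    (V : ValuationSubring Ω) (K : Type) [Field K] [Algebra F K] [Algebra K Ω]
    [IsScalarTower F K Ω] : Prop :=
  letI := A.G.grp Ω
  ∀ m : ℕ, m ≠ 0 → ∀ z ∈ (Xf f).cyc K Ω, Zrd f V z → M.S Ω z = 0 →
    ∃ z' ∈ (Xf f).cyc K Ω, Zrd f V z' ∧ M.S Ω z' = 0 ∧ z - m • z' ∈ (Xf f).ratEq K Ω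

section loc

variable {F : Type} [Field F] {N N' k k' d m : ℕ} {ι ι' : Type}
  {f : ι → MvPolynomial (Fin N) F} {A : Gv F N' k' ι'} {M : Mf f A k} {K Ω : Type} [Field K]
  [CharZero K] [Field Ω] [Algebra K Ω] [Algebra F K] [Algebra F Ω] [IsScalarTower F K Ω]
  [IsAlgClosure K Ω] {L : Ld K Ω} {ψ : Fin m → Prj K N d}

/-- The local theorem for `L.V`. -/
theorem locVa [L.Unr] (hG : Gdy f L ψ M.om)
    (hS : letI := A.G.grp Ω; Sml f L M.om (M.S Ω) (Lv L A)) : Dva M L.V K := by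
  let _ : AddCommGroup ((Xf A.a).pt Ω) := A.G.grp Ω
  intro m hm z hz h h0
  obtain ⟨z', h1, h2, h3, h4⟩ := loc2 hG hS hz (zrd_iff.1 h) h0 hm
  exact ⟨z', h1, zrd_iff.2 h2, h3, h4⟩

end loc

section fin

/-- **The local theorem** for the completions of number fields. -/
theorem fin_loca {F₀ : Type} [Field F₀] [NumberField F₀] {v : HeightOneSpectrum (𝓞 F₀)}
    {F : Type} [Field F] [Algebra F (FK F₀ v)] {N N' k k' d m : ℕ} {ι ι' : Type}
    {f : ι → MvPolynomial (Fin N) F} {ψ : Fin m → Prj F N d} {A : Gv F N' k' ι'}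
    {M : Mf f A k} {V : ValuationSubring (AlgebraicClosure (FK F₀ v))}
    (hV : V.comap (algebraMap (FK F₀ v) _) = CV.Iv v) {T : Finset F}
    (hT : ∀ (K Ω : Type) [Field K] [CharZero K] [Field Ω] [Algebra K Ω] [Algebra F K]
      [Algebra F Ω] [IsScalarTower F K Ω] [IsAlgClosure K Ω] (L : Ld K Ω), 2 < L.p →
        (∀ t ∈ T, L.nm (algebraMap F Ω t) ≤ 1) →
          letI := A.G.grp Ω; Sml f L M.om (M.S Ω) (Lv L A))
    (hTV : ∀ z ∈ T, algebraMap F (AlgebraicClosure (FK F₀ v)) z ∈ V)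
    (hω : ∃ f₀ ψ₀, ∃ ω₀ : Om (V.comap (algebraMap F (AlgebraicClosure (FK F₀ v)))) N N'
      (k * N' * k'), Dat V f ψ f₀ ψ₀ ∧ ω₀.map (V.comap (algebraMap F _)).subtype = M.om ∧
        Al (fun i => MvPolynomial.map (rdO F V) (f₀ i)) (fun i => (ψ₀ i).map (rdO F V))
          (ω₀.map (rdO F V)))
    {p : ℕ} (h2 : 2 < p) (hn : ∀ i, (ψ i).G.natDegree < p) (hu : GM.Urp V (FK F₀ v) p) :
    Dva M V (FK F₀ v) := by
  have hch : CharZero (FK F₀ v) :=
    charZero_of_injective_algebraMap (algebraMap F₀ (FK F₀ v)).injective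
  obtain ⟨L, hL⟩ := exists_ldI v
  have h1 : V.comap (algebraMap (FK F₀ v) _) = Ok L := by
    rw [hV]
    exact SetLike.ext fun x => (hL x).symm
  obtain rfl := GM.v_uniq L V h1
  obtain ⟨rfl, hU⟩ := GM.urp_unr hu
  obtain ⟨f₀, ψ₀, ω₀, hD, hm, hAl⟩ := hω
  exact locVa (gdy_of hD hm hn h2 hAl) (hT _ _ L h2 hTV)

/-- **Almost all places.** -/
theorem fin_alb {F : Type} [Field F] [NumberField F] {N N' k k' d : ℕ} {ι ι' : Type}
    [Finite ι] {f : ι → MvPolynomial (Fin N) F} {A : Gv F N' k' ι'} {M : Mf f A k}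
    (hf : Nsg f d) (hA : A.Ok) (hM : M.Ok) (hb : M.Alb (AlgebraicClosure F)) :
    {v : HeightOneSpectrum (𝓞 F) | ¬ ∀ V : ValuationSubring (AlgebraicClosure (FK F v)),
      V.comap (algebraMap (FK F v) _) = CV.Iv v → Dva M V (FK F v)}.Finite := by
  obtain ⟨m, ψ, ho, hc⟩ := hf.exists_prj
  obtain ⟨T, hT⟩ := exists_sml (M := M) hf.hom hA hM
  refine (almost_al hf.hom ho hc (spf_of hb) T).subset fun v hv h => hv fun V hV => ?_
  obtain ⟨h1, h2, p, h3, h4, hu⟩ := h V hV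
  exact fin_loca hV hT h1 h2 h3 h4 hu

end fin

end GX
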