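import Pool.Agent.Lib.MP_f80667_ag.Gx.Eh
import Pool.Agent.Lib.MP_f80667_ag.Gx.Wb
import Pool.Agent.Lib.MP_f80667_ag.Gx.Oa

/-!
Compatible systems and given forms.

* `hv ψ ω s b η i j x t`: the difference of the form with the coefficients `b` in the projection `i` and of the combination `η` of the
  given forms on the part `c_j ≠ 0`, times `c_j` and `G_Y`; over any ring.
-/

open MvPolynomial

namespace GX

section ring

variable {R S : Type} [CommRing R] [CommRing S] [Algebra R S] {N d m g h : ℕ}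

/-- The value of the form `l` on the part `j` times `c_j`. -/
noncomputable def Om.vr (ω : Om R N g h) (j : Fin h) (l : Fin g) (x t : Fin N → S) : S :=
  ∑ k, aeval x (ω.q j l k) * t k

/-- The difference of the two forms. -/
noncomputable def hv (ψ : Fin m → Prj R N d) (ω : Om R N g h) (s : Finset (Ix d m))
    (b : Ix d m → S) (η : Fin g → S) (i : Fin m) (j : Fin h) (x t : Fin N → S) : S :=
  aeval x (ω.c j) * ∑ k ∈ s, (if k.1 = i then (ψ k.1).tm k.2 x t else 0) * b k -
    pe ((ψ i).uv x) ((ψ i).yv x) (Polynomial.derivative (ψ i).G) * ∑ l, η l * ω.vr j l x t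

private theorem ja_lv {S' : Type} [CommRing S'] [Algebra R S'] (φ : S →ₐ[R] S')
    (a : Fin N → R) (x : Fin N → S) : φ (lv a x) = lv a fun j => φ (x j) := by
  rw [lv, lv, map_sum]
  refine Finset.sum_congr rfl fun j _ => ?_
  rw [map_mul, AlgHom.commutes]

private theorem ja_pe {S' : Type} [CommRing S'] [Algebra R S'] (φ : S →ₐ[R] S')
    (ψ : Prj R N d) (x : Fin N → S) (P : Polynomial (MvPolynomial (Fin (d + 1)) R)) :
    φ (pe (ψ.uv x) (ψ.yv x) P) = pe (ψ.uv fun j => φ (x j)) (ψ.yv fun j => φ (x j)) P := by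
  rw [pe_hom]
  congr 2
  · funext r
    exact ja_lv φ _ _
  · exact ja_lv φ _ _

private theorem ja_tm {S' : Type} [CommRing S'] [Algebra R S'] (φ : S →ₐ[R] S')
    (ψ : Prj R N d) (k : ℕ × Fin (d + 1) × (Fin (d + 1) →₀ ℕ)) (x t : Fin N → S) :
    φ (ψ.tm k x t) = ψ.tm k (fun j => φ (x j)) fun j => φ (t j) := by
  rw [Prj.tm, Prj.tm, map_mul, map_mul, ja_pe, map_prod]
  congr 2
  · refine Finset.prod_congr rfl fun r _ => ?_
    rw [map_pow]
    congr 1
    exact ja_lv φ _ _
  · exact ja_lv φ _ _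

private theorem ja_av {S' : Type} [CommRing S'] [Algebra R S'] (φ : S →ₐ[R] S')
    (x : Fin N → S) (P : MvPolynomial (Fin N) R) :
    φ (aeval x P) = aeval (fun j => φ (x j)) P := by
  rw [← AlgHom.comp_apply, MvPolynomial.comp_aeval]

private theorem ja_vr {S' : Type} [CommRing S'] [Algebra R S'] (φ : S →ₐ[R] S')
    (ω : Om R N g h) (j : Fin h) (l : Fin g) (x t : Fin N → S) :
    φ (ω.vr j l x t) = ω.vr j l (fun k => φ (x k)) fun k => φ (t k) := by
  rw [Om.vr, Om.vr, map_sum]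
  refine Finset.sum_congr rfl fun k _ => ?_
  rw [map_mul, ja_av]

/-- Proof: all terms commute with `φ` (see `row_hom` of `Gx/Wa.lean` for `tm` and for the values of polynomials). -/
theorem hv_hom {S' : Type} [CommRing S'] [Algebra R S'] (φ : S →ₐ[R] S')
    (ψ : Fin m → Prj R N d) (ω : Om R N g h) (s : Finset (Ix d m)) (b : Ix d m → S)
    (η : Fin g → S) (i : Fin m) (j : Fin h) (x t : Fin N → S) :
    φ (hv ψ ω s b η i j x t) = hv ψ ω s (fun k => φ (b k)) (fun l => φ (η l)) i j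
      (fun k => φ (x k)) fun k => φ (t k) := by
  rw [hv, hv, map_sub, map_mul, map_mul, map_sum, map_sum, ja_av, ja_pe]
  congr 2
  · refine Finset.sum_congr rfl fun k _ => ?_
    rw [map_mul, apply_ite φ, map_zero, ja_tm]
  · refine Finset.sum_congr rfl fun l _ => ?_
    rw [map_mul, ja_vr]

private theorem ja_bt {R' : Type} [CommRing R'] [Nontrivial R'] (φ : R →+* R')
    {ψ : Prj R N d} (hm : ψ.G.Monic) (j : ℕ) :
    (ψ.map φ).bt j = (ψ.bt j).map (MvPolynomial.map φ) := by
  have h1 : (ψ.map φ).G.natDegree = ψ.G.natDegree := hm.natDegree_map (MvPolynomial.map φ)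
  rw [Prj.bt, Prj.bt, h1, Polynomial.map_sum]
  refine Finset.sum_congr rfl fun k _ => ?_
  rw [Polynomial.map_mul, Polynomial.map_C, Polynomial.map_pow, Polynomial.map_X]
  change Polynomial.C ((ψ.G.map (MvPolynomial.map φ)).coeff (j + 1 + k)) * _ = _
  rw [Polynomial.coeff_map]

private theorem ja_tm_map {R' : Type} [CommRing R'] [Nontrivial R'] [Algebra R R']
    [Algebra R' S] [IsScalarTower R R' S] {ψ : Prj R N d} (hm : ψ.G.Monic)
    (k : ℕ × Fin (d + 1) × (Fin (d + 1) →₀ ℕ)) (x t : Fin N → S) :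
    (ψ.map (algebraMap R R')).tm k x t = ψ.tm k x t := by
  rw [Prj.tm, Prj.tm, ja_bt _ hm, uv_map, uv_map, yv_map, pe_map]

private theorem ja_der_map {R' : Type} [CommRing R'] [Algebra R R']
    [Algebra R' S] [IsScalarTower R R' S] (ψ : Prj R N d) (x : Fin N → S) :
    pe ((ψ.map (algebraMap R R')).uv x) ((ψ.map (algebraMap R R')).yv x)
      (Polynomial.derivative (ψ.map (algebraMap R R')).G) =
    pe (ψ.uv x) (ψ.yv x) (Polynomial.derivative ψ.G) := by
  rw [uv_map, yv_map]
  change pe _ _ (Polynomial.derivative (ψ.G.map (MvPolynomial.map (algebraMap R R')))) = _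
  rw [Polynomial.derivative_map, pe_map]

private theorem ja_c_map {R' : Type} [CommRing R'] [Algebra R R'] [Algebra R' S]
    [IsScalarTower R R' S] (ω : Om R N g h) (j : Fin h) (x : Fin N → S) :
    aeval x ((ω.map (algebraMap R R')).c j) = aeval x (ω.c j) :=
  MvPolynomial.aeval_map_algebraMap R' x (ω.c j)

private theorem ja_vr_map {R' : Type} [CommRing R'] [Algebra R R'] [Algebra R' S]
    [IsScalarTower R R' S] (ω : Om R N g h) (j : Fin h) (l : Fin g) (x t : Fin N → S) :
    (ω.map (algebraMap R R')).vr j l x t = ω.vr j l x t := by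
  rw [Om.vr, Om.vr]
  refine Finset.sum_congr rfl fun k _ => ?_
  congr 1
  exact MvPolynomial.aeval_map_algebraMap R' x (ω.q j l k)

/-- Proof: as `row_map` of `Gx/Wa.lean`. -/
theorem hv_map {R' : Type} [CommRing R'] [Nontrivial R'] [Algebra R R'] [Algebra R' S]
    [IsScalarTower R R' S] {ψ : Fin m → Prj R N d} (hm : ∀ i, (ψ i).G.Monic)
    (ω : Om R N g h) (s : Finset (Ix d m)) (b : Ix d m → S) (η : Fin g → S) (i : Fin m)
    (j : Fin h) (x t : Fin N → S) :
    hv (fun i => (ψ i).map (algebraMap R R')) (ω.map (algebraMap R R')) s b η i j x t =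
      hv ψ ω s b η i j x t := by
  unfold hv
  simp only [ja_der_map, ja_tm_map (hm _), ja_c_map, ja_vr_map]

end ring

section field

variable {κ : Type} [Field κ] {N d m g h : ℕ} {ι : Type} {f : ι → MvPolynomial (Fin N) κ}
  {ψ : Fin m → Prj κ N d} {ω : Om κ N g h}

/-- Every compatible system is a combination of the given forms if every form is. Proof: `Sy.frm`. -/
theorem al_of (hf : ∀ i, ∃ e, (f i).IsHomogeneous e) (h : ∀ i, (ψ i).Ok f) (hc : Cov f ψ)
    (hS : Spf f ω) : Al f ψ ω := by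
  intro P hP
  obtain ⟨ℓ, hℓ, hev⟩ := hP.frm hf h hc
  obtain ⟨η, hη⟩ := hS ℓ hℓ
  refine ⟨η, fun i x t ht hD j => ?_⟩
  rw [hev i x t ht hD, ← hη x t ht j, mul_left_comm]

private theorem ja_eval (x : Fin N → κ) (P : MvPolynomial (Fin N) κ) :
    aeval x P = eval x P :=
  DFunLike.congr_fun (MvPolynomial.coe_aeval_eq_eval x) P

private theorem ja_ite (ψ : Fin m → Prj κ N d) (i : Fin m) (k : Ix d m) (x t : Fin N → κ) :
    (if k.1 = i then (ψ k.1).tm k.2 x t else 0) = if k.1 = i then (ψ i).tm k.2 x t else 0 := by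
  by_cases h : k.1 = i
  · rw [if_pos h, if_pos h, h]
  · rw [if_neg h, if_neg h]

private theorem ja_v (ω : Om κ N g h) (j : Fin h) (l : Fin g) (x t : Fin N → κ) :
    ω.vr j l x t = ω.v j l x t := by
  rw [Om.vr, Om.v]
  refine Finset.sum_congr rfl fun k _ => ?_
  rw [ja_eval]

/-- Over a field. Proof: `psy_coeff` and `ev_tm` (the system `Psy s b` is homogeneous, see the proof of `psy_sy`; only `hs` is needed). -/
theorem hv_psy {s : Finset (Ix d m)} (hs : ∀ k, k ∈ s ↔ Idx ψ k) (b : Ix d m → κ)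
    (η : Fin g → κ) (i : Fin m) (j : Fin h) (x t : Fin N → κ) :
    hv ψ ω s b η i j x t = eval x (ω.c j) * (ψ i).ev (Psy s b i) x t -
      (ψ i).gy x * ∑ l, η l * ω.v j l x t := by
  have hk : ∀ {i : Fin m} {j : ℕ} {r : Fin (d + 1)} {k : Ix d m},
      k ∈ s.filter (fun k => k.1 = i ∧ k.2.1 = j ∧ k.2.2.1 = r) →
        (ψ i).D ≠ 0 ∧ j ≠ 0 ∧ j < (ψ i).G.natDegree ∧ k.2.2.2.degree = j - 1 := by
    intro i j r k hk
    rw [Finset.mem_filter] at hk
    obtain ⟨h1, rfl, rfl, rfl⟩ := hk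
    exact (hs k).1 h1
  have hom : ∀ i j r, (Psy s b i j r).IsHomogeneous (j - 1) := fun i j r =>
    IsHomogeneous.sum _ _ _ fun k hk' => isHomogeneous_monomial _ (hk hk').2.2.2
  have zero : ∀ i r, Psy s b i 0 r = 0 := fun i r =>
    Finset.sum_eq_zero fun k hk' => absurd rfl (hk hk').2.1
  have big : ∀ i j r, (ψ i).G.natDegree ≤ j → Psy s b i j r = 0 := fun i j r hj =>
    Finset.sum_eq_zero fun k hk' => absurd (hk hk').2.2.1 (not_lt.2 hj)
  have triv : ∀ i j r, (ψ i).D = 0 → Psy s b i j r = 0 := fun i j r hD =>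
    Finset.sum_eq_zero fun k hk' => absurd hD (hk hk').1
  rw [ev_tm (fun k hk' => (hs k).2 hk') hom zero big triv i x t, hv, ja_eval, Prj.gy,
    Finset.sum_congr rfl fun l _ => congrArg (η l * ·) (ja_v ω j l x t)]
  congr 2
  refine Finset.sum_congr rfl fun k hk' => ?_
  rw [psy_coeff, if_pos hk', ja_ite]

/-- The coefficients of a compatible system. Proof: `ev_tm`. -/
theorem hv_sy {s : Finset (Ix d m)} (hs : ∀ k, Idx ψ k → k ∈ s) {P : Pv κ m d}
    (hP : Sy f ψ P) (η : Fin g → κ) (i : Fin m) (j : Fin h) (x t : Fin N → κ) :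
    hv ψ ω s (fun k => coeff k.2.2.2 (P k.1 k.2.1 k.2.2.1)) η i j x t =
      eval x (ω.c j) * (ψ i).ev (P i) x t - (ψ i).gy x * ∑ l, η l * ω.v j l x t := by
  rw [ev_tm hs hP.hom hP.zero hP.big hP.triv i x t, hv, ja_eval, Prj.gy,
    Finset.sum_congr rfl fun l _ => congrArg (η l * ·) (ja_v ω j l x t)]
  congr 2
  refine Finset.sum_congr rfl fun k _ => ?_
  rw [ja_ite]

end field

end GX
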