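import Pool.Agent.Lib.MP_f80667_ag.Gx.TsC
import Pool.Agent.Lib.MP_f80667_ag.Gx.TsD
import Pool.Agent.Lib.MP_f80667_ag.Gx.Oa

/-!
Zero-cycles and a map to a group variety: definitions.

* `Om.Vl L ω x x' b`: `b` are the residues of the values of the forms at `x` and the tangent vector `(x' - x) / p`.
* `Rdo L k ω ω'`: the forms `ω'` over the subfield `k` of the residue field are the residues of the forms `ω`.
* `Sml f L ω S Lv`: the properties of the sum map `S` from the cycles to a group `A`; `Lv a b`: `a` is congruent to `0` modulo `p` and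
  the vector `b` is the residue of `a / p`.
* `Wd f L M`: the group generated by the differences of congruent points over `M`.
* `Gdy f L ψ ω`: the hypotheses of the local theorem.
-/

open ZC BE PE CV IntermediateField

namespace GX

variable {F : Type} [Field F] {N d m g h : ℕ} {ι : Type} (f : ι → MvPolynomial (Fin N) F)
  {K Ω : Type} [Field K] [Field Ω] [Algebra K Ω] [Algebra F K] [Algebra F Ω]
  [IsScalarTower F K Ω] (L : Ld K Ω)

/-- `b` are the residues of the values of the forms at `x`, `(x' - x) / p`. -/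
def Om.Vl (ω : Om F N g h) (x x' : Fin N → Ω) (b : Fin g → L.κ) : Prop :=
  ∃ j, L.nm (MvPolynomial.aeval x (ω.c j)) = 1 ∧ ∀ l, L.rs.Hv
    ((∑ k, MvPolynomial.aeval x (ω.q j l k) * (x' k - x k)) /
      ((L.p : Ω) * MvPolynomial.aeval x (ω.c j))) (b l)

/-- The coefficients of the forms `ω'` are the residues of the coefficients of the forms `ω`. -/
structure Rdo (k : Subfield L.κ) (ω : Om F N g h) (ω' : Om k N g h) : Prop where
  c : ∀ j, GM.Rdp L k (ω.c j) (ω'.c j)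
  q : ∀ j l i, GM.Rdp L k (ω.q j l i) (ω'.q j l i)

/-- The properties of the sum map. -/
structure Sml {A : Type} [AddCommGroup A] (ω : Om F N g h) (S : ((Xf f).pt Ω →₀ ℤ) →+ A)
    (Lv : A → (Fin g → L.κ) → Prop) : Prop where
  zero : Lv 0 0
  sub : ∀ a a' b b', Lv a b → Lv a' b' → Lv (a - a') (b - b')
  uniq : ∀ a b b', Lv a b → Lv a b' → b = b'
  one : ∀ (P P' : (Xf f).pt Ω) (x x' : Fin N → Ω), Co P x → Co P' x' →
    (∀ i, L.nm (x i) ≤ 1) → (∃ i, L.nm (x i) = 1) →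
    (∀ i, L.nm (x' i - x i) ≤ L.nm (L.p : Ω)) →
      ∃ b, ω.Vl L x x' b ∧ Lv (S (Finsupp.single P' 1 - Finsupp.single P 1)) b
  two : ∀ P P' : (Xf f).pt Ω, Nrh f L (L.nm (L.p : Ω) ^ 2) P' P →
    Lv (S (Finsupp.single P' 1 - Finsupp.single P 1)) 0
  frb : ∀ (φ : Ω ≃ₐ[K] Ω) (q : ℕ), Frob L.toLf ⊥ φ q → ∀ z b, Lv (S z) b →
    Lv (S (Finsupp.mapDomain ((Xf f).act φ) z)) fun l => b l ^ q
  rat : ∀ z ∈ (Xf f).ratEq K Ω, S z = 0
  tf : ∀ a b, Lv a b → ∀ n : ℕ, n ≠ 0 → n • a = 0 → a = 0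

/-- The group generated by the differences of congruent points over `M`. -/
noncomputable def Wd (M : IntermediateField K Ω) : AddSubgroup ((Xf f).pt Ω →₀ ℤ) :=
  AddSubgroup.closure {z | ∃ P P' : (Xf f).pt Ω, Fp (Xf f) M P ∧ Fp (Xf f) M P' ∧
    Nrh f L (L.nm (L.p : Ω)) P' P ∧ z = Finsupp.single P' 1 - Finsupp.single P 1}

/-- The hypotheses of the local theorem. -/
structure Gdy (ψ : Fin m → Prj K N d) (ω : Om F N g h) : Prop where
  hm : Hm f
  pj : ∀ i, Pj f L (ψ i)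
  cv : Cvr f L ψ
  hp : ∀ i, (ψ i).G.natDegree < L.p
  h2 : 2 < L.p
  red : ∀ (M : IntermediateField K Ω) (R : ℕ), Um L M → L.Rf M R →
    ∃ (f' : ι → MvPolynomial (Fin N) (GM.kI L R)) (ψ' : Fin m → Prj (GM.kI L R) N d)
      (ω' : Om (GM.kI L R) N g h), (∀ i, ∃ e, (f' i).IsHomogeneous e) ∧
        Rdx f L (GM.kI L R) ψ f' ψ' ∧ Rdo L (GM.kI L R) ω ω' ∧ Rlf f' ψ' ω'

end GX
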