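import Pool.Agent.Lib.MP_f80667_ag.St.A
import Pool.Agent.Lib.MP_f80667_ag.Gx.TsEr

/-! The Frobenius automorphism and the functions on the tangent vectors. -/

open ZC BE PE CV IntermediateField

namespace GX

variable {F : Type} [Field F] {N d m g h : ℕ} {ι : Type} {f : ι → MvPolynomial (Fin N) F}
  {K Ω : Type} [Field K] [CharZero K] [Field Ω] [Algebra K Ω] [Algebra F K] [Algebra F Ω]
  [IsScalarTower F K Ω] [IsAlgClosure K Ω] {L : Ld K Ω} {φ : Ω ≃ₐ[K] Ω} {q : ℕ}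

/-- The residue of `φ z`. Proof: `Frob.frob`, `L.hv_sub` (see `Ld.frob_q`). -/
theorem frb_hv (hφ : Frob L.toLf (⊥ : IntermediateField K Ω) φ q) {z : Ω} {t : L.κ}
    (hz : L.rs.Hv z t) : L.rs.Hv (φ z) (t ^ q) := by
  have h2 : L.nm (φ z) ≤ 1 := by rw [L.act]; exact L.hv_int hz
  obtain ⟨r', hr'⟩ := L.hv_of h2
  have h3 := (L.hv_sub hr' (hz.pow q)).2 (hφ.frob z (L.hv_int hz))
  rwa [h3] at hr'

/-- Residues of numbers of `F` are fixed. Proof: `frb_hv`, `φ` is the identity on `F`. -/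
theorem frb_fix (hφ : Frob L.toLf (⊥ : IntermediateField K Ω) φ q) {a : F} {t : L.κ}
    (ha : L.rs.Hv (algebraMap F Ω a) t) : t ^ q = t := by
  have h1 := frb_hv hφ ha
  have h2 : φ (algebraMap F Ω a) = algebraMap F Ω a := by
    rw [IsScalarTower.algebraMap_apply F K Ω]
    exact φ.commutes _
  rw [h2] at h1
  exact h1.uniq ha

/-- The map `x ↦ x ^ q` of a subfield of the residue field is a ring homomorphism. -/
private theorem stfr_hom (hφ : Frob L.toLf (⊥ : IntermediateField K Ω) φ q) (k : Subfield L.κ) :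
    ∃ σ : k →+* k, ∀ x, σ x = x ^ q := by
  obtain ⟨e, -, hq, -⟩ := Ld.frob_q hφ
  have hfp : Fact L.p.Prime := ⟨L.pp⟩
  have hch : CharP L.κ L.p := L.char_κ
  have hck : CharP k L.p := (RingHom.charP_iff k.subtype k.subtype.injective L.p).2 hch
  refine ⟨iterateFrobenius k L.p e, fun x => ?_⟩
  rw [iterateFrobenius_def, hq]

/-- The values of the residue of a polynomial over `F`. Proof: the coefficients are fixed (`frb_fix`), `q` is a power of `p` (`Ld.frob_q`); the ring homomorphism `x ↦ x ^ q` of `k`. -/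
theorem frb_eval (hφ : Frob L.toLf (⊥ : IntermediateField K Ω) φ q) {k : Subfield L.κ}
    {G : MvPolynomial (Fin N) F} {G' : MvPolynomial (Fin N) k} (hG : GM.Rdp L k G G')
    (x : Fin N → k) :
    MvPolynomial.eval (fun i => x i ^ q) G' = MvPolynomial.eval x G' ^ q := by
  obtain ⟨σ, hσ⟩ := stfr_hom hφ k
  have hc : ∀ d, G'.coeff d ^ q = G'.coeff d := by
    intro d
    apply Subtype.ext
    exact frb_fix hφ (hG d)
  rw [← hσ, MvPolynomial.eval_eq, MvPolynomial.eval_eq, map_sum]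
  refine Finset.sum_congr rfl fun d _ => ?_
  rw [map_mul, hσ (G'.coeff d), hc, map_prod]
  congr 1
  refine Finset.prod_congr rfl fun i _ => ?_
  rw [map_pow, hσ]

/-- Tangent vectors. Proof: `frb_eval` for `f i` and its derivatives (`GM.Rdp.pderiv`); the sum of `q`-th powers. -/
theorem frb_tg (hφ : Frob L.toLf (⊥ : IntermediateField K Ω) φ q) {k : Subfield L.κ}
    {f' : ι → MvPolynomial (Fin N) k} (hf : ∀ i, GM.Rdp L k (f i) (f' i)) {x t : Fin N → k}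
    (h : Tg f' x t) : Tg f' (fun i => x i ^ q) fun i => t i ^ q := by
  obtain ⟨σ, hσ⟩ := stfr_hom hφ k
  have hq0 : q ≠ 0 := by
    have := hφ.one_lt
    omega
  obtain ⟨⟨hx0, hx⟩, ht⟩ := h
  refine ⟨⟨fun h0 => hx0 ?_, fun i => ?_⟩, fun i => ?_⟩
  · funext i
    exact (pow_eq_zero_iff hq0).1 (congrFun h0 i)
  · rw [frb_eval hφ (hf i), hx i, zero_pow hq0]
  · have h1 := congrArg σ (ht i)
    rw [map_zero, map_sum] at h1
    rw [← h1]
    refine Finset.sum_congr rfl fun j _ => ?_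
    rw [frb_eval hφ ((hf i).pderiv j), map_mul, hσ, hσ]

/-- Values of the forms. -/
theorem frb_at (hφ : Frob L.toLf (⊥ : IntermediateField K Ω) φ q) {k : Subfield L.κ}
    {ω : Om F N g h} {ω' : Om k N g h} (ho : Rdo L k ω ω') {x t : Fin N → k}
    {b : Fin g → k} (h : ω'.At x t b) :
    ω'.At (fun i => x i ^ q) (fun i => t i ^ q) fun l => b l ^ q := by
  obtain ⟨σ, hσ⟩ := stfr_hom hφ k
  obtain ⟨j, hj, hb⟩ := h
  refine ⟨j, ?_, fun l => ?_⟩
  · rw [frb_eval hφ (ho.c j)]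
    exact pow_ne_zero _ hj
  · have h1 := congrArg σ (hb l)
    rw [Om.v, map_sum, map_mul, hσ, hσ] at h1
    rw [frb_eval hφ (ho.c j), h1, Om.v]
    refine Finset.sum_congr rfl fun i _ => ?_
    rw [frb_eval hφ (ho.q j l i), map_mul, hσ, hσ]

variable {B : Type} [AddCommGroup B] {lam : ((Xf f).pt Ω →₀ ℤ) →+ B} {R : ℕ}
  {ψ : Fin m → Prj K N d} {f' : ι → MvPolynomial (Fin N) (GM.kI L R)}
  {ψ' : Fin m → Prj (GM.kI L R) N d}

/-- The trace of `φ w` is the trace of `w`. Proof: `rtr_eq`, `Nm ⊥ M (φ • w)` for `M = Ur ⊥ (R s)`: if `φ • M = M` (Teichmueller representatives, `te_act`), `nm_rep`: the sum over another system of representatives (`nm_eq` as in `nm_fx`), or by `Ld.ur_nm`: `∑ φ' ^ i • φ • w`. -/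
theorem rtr_frb {n : ℕ} (hn : n ≠ 0) (γ : Ω ≃ₐ[K] Ω) {w : (Xf f).pt Ω →₀ ℤ}
    (hw : Fx (L.Ur (⊥ : IntermediateField K Ω) n) w) :
    rtr (Xf f) ⊥ (L.Ur ⊥ n) (γ • w) = rtr (Xf f) ⊥ (L.Ur ⊥ n) w := by
  have hfd : FiniteDimensional K (L.Ur (⊥ : IntermediateField K Ω) n) := Ld.ur_fin ⊥ n hn
  have hb : ∀ δ : Ω ≃ₐ[K] Ω, δ ∈ (⊥ : IntermediateField K Ω).fixingSubgroup := fun δ => by
    rw [IntermediateField.fixingSubgroup_bot]
    exact Subgroup.mem_top δ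
  -- the subgroup is normal
  have hnor : ∀ ν ∈ (L.Ur (⊥ : IntermediateField K Ω) n).fixingSubgroup, ∀ δ : Ω ≃ₐ[K] Ω,
      δ * ν * δ⁻¹ ∈ (L.Ur (⊥ : IntermediateField K Ω) n).fixingSubgroup := by
    intro ν hν δ
    rw [Ld.ur_fix (hb _)]
    rw [Ld.ur_fix (hb _)] at hν
    intro x hx
    rw [AlgEquiv.mul_apply, AlgEquiv.mul_apply, hν _ (Ld.te_act δ⁻¹ hx), ← AlgEquiv.mul_apply,
      mul_inv_cancel]
    rfl
  have hle : (⊥ : IntermediateField K Ω) ≤ L.Ur (⊥ : IntermediateField K Ω) n := bot_le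
  have hw' : Fx (L.Ur (⊥ : IntermediateField K Ω) n) (γ • w) := by
    intro ν hν
    have h1 := hw _ (hnor ν hν γ⁻¹)
    rw [inv_inv, mul_smul, mul_smul, inv_smul_eq_iff] at h1
    exact h1
  rw [rtr_eq hle, rtr_eq hle]
  obtain ⟨s, -, h₁, h₂, h₃⟩ := nm_rep hle
  rw [h₃ _ (γ • w)]
  have h4 : Nm (⊥ : IntermediateField K Ω) (L.Ur (⊥ : IntermediateField K Ω) n) w =
      ∑ δ ∈ s.map (Equiv.mulRight γ).toEmbedding, δ • w := by
    refine nm_eq hle _ (fun δ _ => hb δ) ?_ hw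
    intro x _
    obtain ⟨δ, ⟨hδ, e₁⟩, huniq⟩ := h₂ (x * γ⁻¹) (hb _)
    refine ⟨δ * γ, ⟨Finset.mem_map.2 ⟨δ, hδ, rfl⟩, ?_⟩, ?_⟩
    · have e₂ := hnor _ e₁ γ⁻¹
      have e₃ : γ⁻¹ * (δ⁻¹ * (x * γ⁻¹)) * γ⁻¹⁻¹ = (δ * γ)⁻¹ * x := by group
      rwa [e₃] at e₂
    · rintro y ⟨hy, hy'⟩
      obtain ⟨δ', hδ', rfl⟩ := Finset.mem_map.1 hy
      have e₂ := hnor _ hy' γ
      have e₃ : γ * (((Equiv.mulRight γ).toEmbedding δ')⁻¹ * x) * γ⁻¹ = δ'⁻¹ * (x * γ⁻¹) := by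
        change γ * ((δ' * γ)⁻¹ * x) * γ⁻¹ = δ'⁻¹ * (x * γ⁻¹)
        group
      rw [e₃] at e₂
      have e₅ := huniq δ' ⟨hδ', e₂⟩
      rw [e₅]
      rfl
  rw [h4, Finset.sum_map]
  refine Finset.sum_congr rfl fun δ _ => ?_
  exact (mul_smul δ γ w).symm

/-- The unramified extensions of `K` are stable. -/
private theorem stfr_ur {n : ℕ} (hn : n ≠ 0) (γ : Ω ≃ₐ[K] Ω) {x : Ω}
    (hx : x ∈ L.Ur (⊥ : IntermediateField K Ω) n) :
    γ x ∈ L.Ur (⊥ : IntermediateField K Ω) n := by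
  have hb : ∀ δ : Ω ≃ₐ[K] Ω, δ ∈ (⊥ : IntermediateField K Ω).fixingSubgroup := fun δ => by
    rw [IntermediateField.fixingSubgroup_bot]
    exact Subgroup.mem_top δ
  refine mem_of_fix _ fun ν hν => ?_
  have h1 : γ⁻¹ * ν * γ ∈ (L.Ur (⊥ : IntermediateField K Ω) n).fixingSubgroup := by
    rw [Ld.ur_fix (hb _)]
    rw [Ld.ur_fix (hb _)] at hν
    intro z hz
    rw [AlgEquiv.mul_apply, AlgEquiv.mul_apply, hν _ (Ld.te_act γ hz), ← AlgEquiv.mul_apply,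
      inv_mul_cancel]
    rfl
  have h2 := (IntermediateField.mem_fixingSubgroup_iff _ _).1 h1 x hx
  rw [AlgEquiv.mul_apply, AlgEquiv.mul_apply] at h2
  have h3 := congrArg γ h2
  rw [← AlgEquiv.mul_apply, mul_inv_cancel] at h3
  exact h3

/-- **Invariance.** Here `M = Ur ⊥ R`. Proof: `tv_ex`: `T (y, u)` is a value `vl` for `x`, `x'` over `Mu L M R s = L.Ur (L.Ur ⊥ R) (R s) = L.Ur ⊥ (R s)`; the points `φ P`, `φ P'` have the coordinates `φ x`, `φ x'` (`co_act`) with the residues `y ^ q` and `u ^ q` (`frb_hv`); they are over the same field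
(`te_act`); `rtr_frb`; `frb_tg`; `tf_eq` twice. -/
theorem tf_frb [L.Unr] (h2 : 2 < L.p) (hl : Lm f L lam)
    (hR : L.Rf (L.Ur (⊥ : IntermediateField K Ω) R) R)
    (hφ : Frob L.toLf (⊥ : IntermediateField K Ω) φ q)
    (hx : Rdx f L (GM.kI L R) ψ f' ψ') {y u : Fin N → GM.kI L R} (h : Tg f' y u) :
    Tf L lam (L.Ur ⊥ R) R f' (fun i => y i ^ q) (fun i => u i ^ q) =
      Tf L lam (L.Ur ⊥ R) R f' y u := by
  have hM : Um L (L.Ur (⊥ : IntermediateField K Ω) R) := ⟨R, hR.ne, le_rfl⟩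
  obtain ⟨b, hb⟩ := tv_ex (lam := lam) hM hR hx h
  rw [tf_eq h2 hl hM hR hx h hb]
  refine tf_eq h2 hl hM hR hx (frb_tg hφ hx.rf h) ?_
  obtain ⟨s, hs, x, x', P, P', hx1, hx1', hP, hP', hxy, hu, hb⟩ := hb
  have hs0 : s ≠ 0 := fun h0 => hs (h0 ▸ dvd_zero _)
  have hRs : R * s ≠ 0 := mul_ne_zero hR.ne hs0
  have hMu : GM.Mu L (L.Ur (⊥ : IntermediateField K Ω) R) R s =
      L.Ur (⊥ : IntermediateField K Ω) (R * s) := Ld.ur_ur ⊥ (dvd_mul_right R s)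
  rw [hMu] at hx1 hx1'
  refine ⟨s, hs, fun i => φ (x i), fun i => φ (x' i), (Xf f).act φ P, (Xf f).act φ P', ?_, ?_,
    co_act φ hP, co_act φ hP', fun i => ?_, fun i => ?_, ?_⟩
  · rw [hMu]
    intro i
    refine ⟨stfr_ur hRs φ (hx1 i).1, ?_⟩
    rw [L.act]
    exact (hx1 i).2
  · rw [hMu]
    intro i
    refine ⟨stfr_ur hRs φ (hx1' i).1, ?_⟩
    rw [L.act]
    exact (hx1' i).2
  · exact frb_hv hφ (hxy i)
  · have h1 := frb_hv hφ (hu i)
    rw [map_div₀, map_sub, map_natCast] at h1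
    exact h1
  · rw [hb, vl, vl, hMu]
    have h1 : Fx (L.Ur (⊥ : IntermediateField K Ω) (R * s))
        (Finsupp.single P' 1 - Finsupp.single P 1 : (Xf f).pt Ω →₀ ℤ) :=
      (fx_single (fp_co hP' fun i => (hx1' i).1) 1).sub
        (fx_single (fp_co hP fun i => (hx1 i).1) 1)
    rw [← rtr_frb hRs φ h1, smul_sub, smul_single, smul_single]

end GX
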