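import Pool.Agent.Lib.MP_f80667_ag.Gx.Wb

/-! Tests and a basis of the solutions. -/

open MvPolynomial

namespace GX

variable {κ : Type} [Field κ] {N d m : ℕ} {ι : Type} {f : ι → MvPolynomial (Fin N) κ}
  {ψ : Fin m → Prj κ N d}

/-- Linear algebra: finitely many elements of `S` and a basis of the vectors which are orthogonal to `S`. Proof: let `W` be the span of `S` in `s → κ`, `v` finitely many elements of `S` which span `W` (`Submodule.fg_span`, `exists_linearIndependent`), `Z` the subspace of the vectors orthogonal to `S`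
(`∑ l, w l * a l = 0`), `b` a basis of `Z`; `Φ a = (∑ l, v i l * a l)_i` has the kernel `Z`; `π` a projection to `Z` (`Submodule.exists_isCompl`, or a left inverse of `Z.subtype`); `a - π a` factors through `Φ` (`LinearMap` on vector spaces: the kernel of `Φ` is contained in the kernel of `a ↦ a - π a`; extend from the
range of `Φ`); `π a = ∑ (coordinates) • b j`; apply the identity `a = (a - π a) + π a` to the unit vectors. -/
theorem exists_lin {s : Type} [Fintype s] [DecidableEq s] (S : Set (s → κ)) :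
    ∃ (n k : ℕ) (v : Fin n → s → κ) (b : Fin k → s → κ) (a' : s → Fin n → κ)
      (b' : Fin k → s → κ), (∀ i, v i ∈ S) ∧ (∀ j, ∀ w ∈ S, ∑ l, w l * b j l = 0) ∧
        ∀ l l', ∑ i, a' l i * v i l' + ∑ j, b j l * b' j l' = if l = l' then 1 else 0 := by
  classical
  obtain ⟨T, hTS, hsp, hli₀⟩ := exists_linearIndependent κ S
  have hli : LinearIndepOn κ id T := hli₀
  obtain ⟨B, hB⟩ : ∃ B : Module.Basis (hli.extend (Set.subset_univ T)) κ (s → κ),
      ∀ x, B x = (x : s → κ) := ⟨Module.Basis.extend hli, Module.Basis.extend_apply_self hli⟩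
  have hT : T ⊆ hli.extend (Set.subset_univ T) := hli.subset_extend (Set.subset_univ T)
  have hfin : Fintype (hli.extend (Set.subset_univ T)) := FiniteDimensional.fintypeBasisIndex B
  have hz : ∀ w ∈ S, ∀ x : hli.extend (Set.subset_univ T), (x : s → κ) ∉ T →
      ∑ l, w l * B.repr (Pi.single l 1) x = 0 := by
    intro w hw x hx
    have h1 : ∑ l, w l * B.repr (Pi.single l 1) x = B.coord x w := by
      have h2 : w = ∑ l, w l • (Pi.single l 1 : s → κ) := by
        funext l'
        rw [Finset.sum_apply]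
        simp only [Pi.smul_apply, Pi.single_apply, smul_eq_mul, mul_ite, mul_one, mul_zero]
        rw [Finset.sum_ite_eq Finset.univ l' w, if_pos (Finset.mem_univ _)]
      conv_rhs => rw [h2]
      rw [map_sum]
      refine Finset.sum_congr rfl fun l _ => ?_
      rw [map_smul, smul_eq_mul, Module.Basis.coord_apply]
    rw [h1]
    have h3 : w ∈ Submodule.span κ T := hsp ▸ Submodule.subset_span hw
    clear h1 hw
    induction h3 using Submodule.span_induction with
    | mem y hy =>
      have h4 : y = B ⟨y, hT hy⟩ := (hB ⟨y, hT hy⟩).symm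
      rw [Module.Basis.coord_apply]
      conv_lhs => rw [h4]
      rw [Module.Basis.repr_self, Finsupp.single_apply, if_neg]
      rintro rfl
      exact hx hy
    | zero => exact map_zero _
    | add y z _ _ hy hz => rw [map_add, hy, hz, add_zero]
    | smul c y _ hy => rw [map_smul, hy, smul_zero]
  have e1 := Fintype.equivFin {x : hli.extend (Set.subset_univ T) // (x : s → κ) ∈ T}
  have e2 := Fintype.equivFin {x : hli.extend (Set.subset_univ T) // (x : s → κ) ∉ T}
  refine ⟨_, _, fun i => ((e1.symm i).1 : s → κ), fun j l => B.repr (Pi.single l 1) (e2.symm j).1,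
    fun l i => B.repr (Pi.single l 1) (e1.symm i).1, fun j => ((e2.symm j).1 : s → κ),
    fun i => hTS (e1.symm i).2, fun j w hw => hz w hw _ (e2.symm j).2, fun l l' => ?_⟩
  have h1 := Equiv.sum_comp e1.symm fun x => B.repr (Pi.single l 1) x.1 * (x.1 : s → κ) l'
  have h2 := Equiv.sum_comp e2.symm fun x => B.repr (Pi.single l 1) x.1 * (x.1 : s → κ) l'
  have h3 := Fintype.sum_subtype_add_sum_subtype
    (fun x : hli.extend (Set.subset_univ T) => (x : s → κ) ∈ T)
    fun x => B.repr (Pi.single l 1) x * (x : s → κ) l'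
  have h4 : ∑ x, B.repr (Pi.single l 1) x * (x : s → κ) l' = (Pi.single l 1 : s → κ) l' := by
    have h5 := congrFun (B.sum_repr (Pi.single l 1)) l'
    rw [Finset.sum_apply] at h5
    rw [← h5]
    refine Finset.sum_congr rfl fun x _ => ?_
    rw [Pi.smul_apply, smul_eq_mul, hB]
  calc _ = (∑ x : {x : hli.extend (Set.subset_univ T) // (x : s → κ) ∈ T},
        B.repr (Pi.single l 1) x.1 * (x.1 : s → κ) l') +
      ∑ x : {x : hli.extend (Set.subset_univ T) // (x : s → κ) ∉ T},
        B.repr (Pi.single l 1) x.1 * (x.1 : s → κ) l' := congrArg₂ _ h1 h2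
    _ = (Pi.single l 1 : s → κ) l' := h3.trans h4
    _ = _ := by
      rw [Pi.single_apply]
      exact if_congr eq_comm rfl rfl

/-- **Tests and solutions.** Proof: `exists_lin` for `S` the set of the rows of the valid tests, restricted to `s`; extend by `0`. -/
theorem exists_ab (f : ι → MvPolynomial (Fin N) κ) (ψ : Fin m → Prj κ N d)
    (s : Finset (Ix d m)) :
    ∃ (n k : ℕ) (τ : Fin n → Tst κ N m) (b : Fin k → Ix d m → κ) (a' : Ix d m → Fin n → κ)
      (b' : Fin k → Ix d m → κ), (∀ i, Val f ψ (τ i)) ∧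
      (∀ j τ', Val f ψ τ' → ∑ l ∈ s, row ψ τ' l * b j l = 0) ∧
      (∀ l ∈ s, ∑ i, a' l i * row ψ (τ i) l + ∑ j, b j l * b' j l = 1) ∧
      ∀ l ∈ s, ∀ l' ∈ s, l ≠ l' →
        ∑ i, a' l i * row ψ (τ i) l' + ∑ j, b j l * b' j l' = 0 := by
  classical
  obtain ⟨n, k, v, b, a', b', h1, h2, h3⟩ := exists_lin
    {w : {l // l ∈ s} → κ | ∃ τ', Val f ψ τ' ∧ ∀ l, w l = row ψ τ' l.1}
  choose τ hτ hv using h1
  refine ⟨n, k, τ, fun j l => if h : l ∈ s then b j ⟨l, h⟩ else 0,
    fun l i => if h : l ∈ s then a' ⟨l, h⟩ i else 0,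
    fun j l => if h : l ∈ s then b' j ⟨l, h⟩ else 0, hτ, fun j τ' hτ' => ?_, fun l hl => ?_,
    fun l hl l' hl' hne => ?_⟩
  · have h4 := h2 j (fun l => row ψ τ' l.1) ⟨τ', hτ', fun _ => rfl⟩
    rw [← Finset.sum_coe_sort s]
    refine (Finset.sum_congr rfl fun l _ => ?_).trans h4
    beta_reduce
    rw [dif_pos l.2]
  · have h4 := h3 ⟨l, hl⟩ ⟨l, hl⟩
    rw [if_pos rfl] at h4
    refine (congrArg₂ _ (Finset.sum_congr rfl fun i _ => ?_)
      (Finset.sum_congr rfl fun j _ => ?_)).trans h4
    · beta_reduce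
      rw [dif_pos hl, hv]
    · beta_reduce
      rw [dif_pos hl, dif_pos hl]
  · have h4 := h3 ⟨l, hl⟩ ⟨l', hl'⟩
    rw [if_neg fun h => hne (congrArg Subtype.val h)] at h4
    refine (congrArg₂ _ (Finset.sum_congr rfl fun i _ => ?_)
      (Finset.sum_congr rfl fun j _ => ?_)).trans h4
    · beta_reduce
      rw [dif_pos hl, hv]
    · beta_reduce
      rw [dif_pos hl, dif_pos hl']

end GX
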