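import Pool.Agent.Lib.MP_f80667_ag.Gx.Al
import Mathlib.RingTheory.Nullstellensatz

/-! Polynomials which vanish on the tangent vectors. -/

open MvPolynomial

namespace GX

variable {R : Type} [CommRing R] {N : ℕ} {ι : Type}

/-- The derivative of `F` as a polynomial in the coordinates of the point and of the vector. -/
noncomputable def dfq (F : MvPolynomial (Fin N) R) : MvPolynomial (Fin N ⊕ Fin N) R :=
  ∑ j, rename Sum.inl (pderiv j F) * X (Sum.inr j)

/-- Proof: `aeval_rename`. -/
theorem dfq_aeval {S : Type} [CommRing S] [Algebra R S] (F : MvPolynomial (Fin N) R)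
    (x t : Fin N → S) : aeval (Sum.elim x t) (dfq F) = ∑ j, aeval x (pderiv j F) * t j := by
  rw [dfq, map_sum]
  refine Finset.sum_congr rfl fun j _ => ?_
  rw [map_mul, aeval_rename, aeval_X, Sum.elim_comp_inl, Sum.elim_inr]

/-- Proof: `pderiv_map`, `map_rename`. -/
theorem dfq_map {S : Type} [CommRing S] (φ : R →+* S) (F : MvPolynomial (Fin N) R) :
    MvPolynomial.map φ (dfq F) = dfq (MvPolynomial.map φ F) := by
  rw [dfq, dfq, map_sum]
  refine Finset.sum_congr rfl fun j _ => ?_
  rw [map_mul, map_rename, map_X, pderiv_map]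

/-- **Nullstellensatz.** Proof: `MvPolynomial.vanishingIdeal_zeroLocus_eq_radical` (`k = K = E`) for the ideal `J` generated by the `rename Sum.inl (f i)` and the `dfq (f i)`: at a zero `Sum.elim x t` of `J` with `x k ≠ 0` the vector `t` is a tangent vector, so `X k * H` vanishes on the zeros of `J`; `Ideal.mem_radical_iff`,
`Ideal.mem_span_range_iff_exists_fun` (`Ideal.mem_sup`). -/
theorem nul {E : Type} [Field E] [IsAlgClosed E] [Fintype ι]
    (f : ι → MvPolynomial (Fin N) E) (H : MvPolynomial (Fin N ⊕ Fin N) E)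
    (h : ∀ x t, Tg f x t → eval (Sum.elim x t) H = 0) (k : Fin N) :
    ∃ (e : ℕ) (p p' : ι → MvPolynomial (Fin N ⊕ Fin N) E),
      (X (Sum.inl k) * H) ^ e =
        ∑ i, p i * rename Sum.inl (f i) + ∑ i, p' i * dfq (f i) := by
  have hae : ∀ {σ : Type} (u : σ → E) (G : MvPolynomial σ E), aeval u G = eval u G :=
    fun u G => RingHom.congr_fun (coe_aeval_eq_eval u) G
  obtain ⟨J, hJ⟩ : ∃ J : Ideal (MvPolynomial (Fin N ⊕ Fin N) E),
      J = Ideal.span (Set.range fun i => (rename Sum.inl (f i) :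
        MvPolynomial (Fin N ⊕ Fin N) E)) ⊔ Ideal.span (Set.range fun i => dfq (f i)) := ⟨_, rfl⟩
  have h1 : (X (Sum.inl k) * H : MvPolynomial (Fin N ⊕ Fin N) E) ∈
      vanishingIdeal E (zeroLocus E J) := by
    intro z hz
    have hz' : ∀ q ∈ J, aeval z q = 0 := hz
    obtain ⟨x, hx⟩ : ∃ x : Fin N → E, x = fun i => z (Sum.inl i) := ⟨_, rfl⟩
    obtain ⟨t, ht⟩ : ∃ t : Fin N → E, t = fun i => z (Sum.inr i) := ⟨_, rfl⟩
    have hzx : z = Sum.elim x t := by
      funext s
      rcases s with s | s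
      · rw [Sum.elim_inl, hx]
      · rw [Sum.elim_inr, ht]
    rw [hzx] at hz' ⊢
    rw [map_mul, aeval_X, Sum.elim_inl]
    by_cases hxk : x k = 0
    · rw [hxk, zero_mul]
    · have hx0 : x ≠ 0 := fun h0 => hxk (congrFun h0 k)
      have h2 : ∀ i, eval x (f i) = 0 := by
        intro i
        have h3 := hz' (rename Sum.inl (f i)) (by
          rw [hJ]
          exact Ideal.mem_sup_left (Ideal.subset_span ⟨i, rfl⟩))
        rwa [aeval_rename, Sum.elim_comp_inl, hae] at h3
      have h3 : ∀ i, ∑ j, eval x (pderiv j (f i)) * t j = 0 := by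
        intro i
        have h4 := hz' (dfq (f i)) (by
          rw [hJ]
          exact Ideal.mem_sup_right (Ideal.subset_span ⟨i, rfl⟩))
        rw [dfq_aeval] at h4
        simpa only [hae] using h4
      rw [hae, h x t ⟨⟨hx0, h2⟩, h3⟩, mul_zero]
  rw [vanishingIdeal_zeroLocus_eq_radical, Ideal.mem_radical_iff] at h1
  obtain ⟨e, he⟩ := h1
  rw [hJ, Submodule.mem_sup] at he
  obtain ⟨y, hy, z, hz, hyz⟩ := he
  obtain ⟨p, hp⟩ := (Ideal.mem_span_range_iff_exists_fun).1 hy
  obtain ⟨p', hp'⟩ := (Ideal.mem_span_range_iff_exists_fun).1 hz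
  exact ⟨e, p, p', by rw [hp, hp', hyz]⟩

end GX
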