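import Pool.Agent.Lib.MP_f80667_ag.Gx.Wd
import Pool.Agent.Lib.MP_f80667_ag.St.Ja
import Pool.Agent.Lib.MP_f80667_ag.St.Jc

/-! Reduction of one identity. -/

open MvPolynomial

namespace GX

section ring

variable {R S : Type} [CommRing R] [CommRing S] [Algebra R S] {N d m g h : ℕ}

private theorem jd1_lv {S' : Type} [CommRing S'] [Algebra R S'] (φ : S →ₐ[R] S')
    (a : Fin N → R) (x : Fin N → S) : φ (lv a x) = lv a fun j => φ (x j) := by
  rw [lv, lv, map_sum]
  refine Finset.sum_congr rfl fun j _ => ?_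
  rw [map_mul, AlgHom.commutes]

private theorem jd1_D {S' : Type} [CommRing S'] [Algebra R S'] (φ : S →ₐ[R] S')
    (ψ : Prj R N d) (x : Fin N → S) :
    φ (aeval (ψ.uv x) ψ.D) = aeval (ψ.uv fun j => φ (x j)) ψ.D := by
  rw [← AlgHom.comp_apply, MvPolynomial.comp_aeval]
  congr 2
  funext r
  exact jd1_lv φ (ψ.u r) x

/-- The generic value times the denominator. -/
private noncomputable def jd1F (ψ : Fin m → Prj R N d) (ω : Om R N g h) (s : Finset (Ix d m))
    (b : Ix d m → R) (η : Fin g → R) (i : Fin m) (j : Fin h) :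
    MvPolynomial (Fin N ⊕ Fin N) R :=
  hv ψ ω s (fun l => C (b l)) (fun l => C (η l)) i j (fun k => X (Sum.inl k))
    (fun k => X (Sum.inr k)) * aeval ((ψ i).uv fun k => X (Sum.inl k)) (ψ i).D

private theorem jd1_eval (ψ : Fin m → Prj R N d) (ω : Om R N g h) (s : Finset (Ix d m))
    (b : Ix d m → R) (η : Fin g → R) (i : Fin m) (j : Fin h) (x t : Fin N → S) :
    aeval (Sum.elim x t) (jd1F ψ ω s b η i j) =
      hv ψ ω s (fun l => algebraMap R S (b l)) (fun l => algebraMap R S (η l)) i j x t *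
        aeval ((ψ i).uv x) (ψ i).D := by
  rw [jd1F, map_mul, hv_hom, jd1_D]
  simp only [aeval_X, Sum.elim_inl, Sum.elim_inr, aeval_C]

private theorem jd1_map {R' : Type} [CommRing R'] [Nontrivial R'] [Algebra R R']
    {ψ : Fin m → Prj R N d} (hm : ∀ i, (ψ i).G.Monic) (ω : Om R N g h) (s : Finset (Ix d m))
    (b : Ix d m → R) (η : Fin g → R) (i : Fin m) (j : Fin h) :
    MvPolynomial.map (algebraMap R R') (jd1F ψ ω s b η i j) =
      jd1F (fun i => (ψ i).map (algebraMap R R')) (ω.map (algebraMap R R')) s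
        (fun l => algebraMap R R' (b l)) (fun l => algebraMap R R' (η l)) i j := by
  have h0 : ∀ P : MvPolynomial (Fin N ⊕ Fin N) R, MvPolynomial.map (algebraMap R R') P =
      MvPolynomial.mapAlgHom (Algebra.ofId R R') P := fun P => rfl
  rw [h0, jd1F, jd1F, map_mul, hv_hom, jd1_D]
  have h1 : ∀ a : R, MvPolynomial.mapAlgHom (σ := Fin N ⊕ Fin N) (Algebra.ofId R R') (C a) =
      C (algebraMap R R' a) := fun a => by
    rw [← h0, map_C]
  have h2 : ∀ k, MvPolynomial.mapAlgHom (σ := Fin N ⊕ Fin N) (Algebra.ofId R R') (X k) =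
      X k := fun k => by
    rw [← h0, map_X]
  simp only [h1, h2]
  rw [← hv_map (R' := R') hm]
  congr 1
  change aeval _ (ψ i).D = aeval _ (MvPolynomial.map (algebraMap R R') (ψ i).D)
  rw [aeval_map_algebraMap, uv_map]

end ring

section one

variable {E : Type} [Field E] [IsAlgClosed E] {N d m g h : ℕ} {ι : Type} [Finite ι]
  {f : ι → MvPolynomial (Fin N) E} {ψ : Fin m → Prj E N d} {ω : Om E N g h}

/-- The reduction of one identity. Proof: `H = hv` at the generic point (`S = MvPolynomial (Fin N ⊕ Fin N) E`, `x = X ∘ inl`, `t = X ∘ inr`, `C ∘ b`, `C ∘ η`) times `rename inl` of `D_i (u_i)` (`lf`): `nul` gives for every `k` an identity; `Z`: the coefficients of the `p i`, `p' i` (all `k`), the numbers `b l`, `η l`.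
Let `O`, `ρ`, .. be given, `x`, `t` a tangent vector over `κ`, `x k ≠ 0`. The identity for `k` is true over `O` (`mv_lift`, `MvPolynomial.map_injective`, `hv_map`, `hv_hom`; the equations `f₀`, the projections `ψ₀`, the forms `ω₀` are mapped to `f`, `ψ`, `ω`); evaluate at `x`, `t` with `κ` an algebra over `O` by `ρ`
(`RingHom.toAlgebra`): the right side is `0`, `x k ≠ 0`, `D ≠ 0`, so `hv = 0`. -/
theorem hv_red (hm : ∀ i, (ψ i).G.Monic) (s : Finset (Ix d m)) (b : Ix d m → E)
    (η : Fin g → E) (i : Fin m) (j : Fin h)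
    (hv0 : ∀ x t, Tg f x t → eval ((ψ i).uv x) (ψ i).D ≠ 0 → hv ψ ω s b η i j x t = 0) :
    ∃ Z : Finset E, ∀ O : ValuationSubring E, (∀ z ∈ Z, z ∈ O) →
      ∀ (κ : Type) [Field κ] (ρ : O →+* κ) (f₀ : ι → MvPolynomial (Fin N) O)
        (ψ₀ : Fin m → Prj O N d) (ω₀ : Om O N g h) (b₀ : Ix d m → O) (η₀ : Fin g → O),
        (∀ i, MvPolynomial.map O.subtype (f₀ i) = f i) →
        (∀ i, (ψ₀ i).map O.subtype = ψ i) → (∀ i, (ψ₀ i).G.Monic) →
        ω₀.map O.subtype = ω → (∀ l ∈ s, (b₀ l : E) = b l) → (∀ l, (η₀ l : E) = η l) →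
        ∀ x t : Fin N → κ, Tg (fun i => MvPolynomial.map ρ (f₀ i)) x t →
          eval (((ψ₀ i).map ρ).uv x) ((ψ₀ i).map ρ).D ≠ 0 →
            hv (fun i => (ψ₀ i).map ρ) (ω₀.map ρ) s (fun l => ρ (b₀ l)) (fun l => ρ (η₀ l)) i j
              x t = 0 := by
  classical
  have hF : Fintype ι := Fintype.ofFinite ι
  have hae : ∀ {σ : Type} (u : σ → E) (G : MvPolynomial σ E), aeval u G = eval u G :=
    fun u G => RingHom.congr_fun (coe_aeval_eq_eval u) G
  have h1 : ∀ x t, Tg f x t → eval (Sum.elim x t) (jd1F ψ ω s b η i j) = 0 := by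
    intro x t ht
    rw [← hae, jd1_eval]
    by_cases hD : eval ((ψ i).uv x) (ψ i).D = 0
    · rw [hae, hD, mul_zero]
    · have h2 := hv0 x t ht hD
      simp only [Algebra.algebraMap_self, RingHom.id_apply]
      rw [h2, zero_mul]
  choose e p p' hp using fun k => nul f (jd1F ψ ω s b η i j) h1 k
  refine ⟨(Finset.univ.biUnion fun q : Fin N × ι => (p q.1 q.2).support.image (p q.1 q.2).coeff) ∪
    (Finset.univ.biUnion fun q : Fin N × ι => (p' q.1 q.2).support.image (p' q.1 q.2).coeff),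
    fun O hO κ _ ρ f₀ ψ₀ ω₀ b₀ η₀ hf hψ hm₀ hω hb hη x t ht hD => ?_⟩
  have hpO : ∀ k i' c, (p k i').coeff c ∈ O := by
    intro k i' c
    by_cases h0 : (p k i').coeff c = 0
    · rw [h0]
      exact O.zero_mem
    · refine hO _ (Finset.mem_union_left _ (Finset.mem_biUnion.2 ⟨(k, i'), Finset.mem_univ _, ?_⟩))
      exact Finset.mem_image.2 ⟨c, mem_support_iff.2 h0, rfl⟩
  have hpO' : ∀ k i' c, (p' k i').coeff c ∈ O := by
    intro k i' c
    by_cases h0 : (p' k i').coeff c = 0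
    · rw [h0]
      exact O.zero_mem
    · refine hO _ (Finset.mem_union_right _ (Finset.mem_biUnion.2 ⟨(k, i'), Finset.mem_univ _, ?_⟩))
      exact Finset.mem_image.2 ⟨c, mem_support_iff.2 h0, rfl⟩
  choose P hP using fun k i' => mv_lift O (p k i') (hpO k i')
  choose P' hP' using fun k i' => mv_lift O (p' k i') (hpO' k i')
  obtain ⟨k, hk⟩ := Function.ne_iff.1 ht.1.1
  -- the identity over `O`
  have hG : MvPolynomial.map O.subtype (jd1F ψ₀ ω₀ s b₀ η₀ i j) = jd1F ψ ω s b η i j := by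
    have h2 := jd1_map (R' := E) hm₀ ω₀ s b₀ η₀ i j
    have h3 : (fun i => (ψ₀ i).map (algebraMap O E)) = ψ := funext hψ
    have h4 : ω₀.map (algebraMap O E) = ω := hω
    rw [h3, h4] at h2
    refine h2.trans ?_
    rw [jd1F, jd1F]
    congr 1
    have h5 : (fun l => C (σ := Fin N ⊕ Fin N) (algebraMap O E (η₀ l))) = fun l => C (η l) :=
      funext fun l => congrArg _ (hη l)
    rw [h5, hv, hv]
    congr 2
    refine Finset.sum_congr rfl fun l hl => ?_
    congr 2
    exact hb l hl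
  have hid : (X (Sum.inl k) * jd1F ψ₀ ω₀ s b₀ η₀ i j) ^ e k =
      ∑ i', P k i' * rename Sum.inl (f₀ i') + ∑ i', P' k i' * dfq (f₀ i') := by
    refine MvPolynomial.map_injective O.subtype Subtype.val_injective ?_
    rw [map_pow, map_mul, map_X, hG, hp k, map_add, map_sum, map_sum]
    congr 1
    · refine Finset.sum_congr rfl fun i' _ => ?_
      rw [map_mul, hP, map_rename, hf]
    · refine Finset.sum_congr rfl fun i' _ => ?_
      rw [map_mul, hP', dfq_map, hf]
  -- evaluation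
  let _ : Algebra O κ := ρ.toAlgebra
  have hev : ∀ {σ : Type} (u : σ → κ) (Q : MvPolynomial σ O),
      aeval u Q = eval u (MvPolynomial.map ρ Q) := by
    intro σ u Q
    rw [eval_map]
    rfl
  have h5 := congrArg (aeval (Sum.elim x t)) hid
  have h6 : aeval (Sum.elim x t) (∑ i', P k i' * rename Sum.inl (f₀ i') +
      ∑ i', P' k i' * dfq (f₀ i')) = 0 := by
    rw [map_add, map_sum, map_sum]
    have h7 : ∀ i' ∈ Finset.univ, aeval (Sum.elim x t) (P k i' * rename Sum.inl (f₀ i')) = 0 := by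
      intro i' _
      rw [map_mul, aeval_rename, Sum.elim_comp_inl, hev x (f₀ i'), ht.1.2 i', mul_zero]
    have h8 : ∀ i' ∈ Finset.univ, aeval (Sum.elim x t) (P' k i' * dfq (f₀ i')) = 0 := by
      intro i' _
      rw [map_mul, dfq_aeval]
      have h9 := ht.2 i'
      have h10 : ∑ l, aeval x (pderiv l (f₀ i')) * t l = 0 := by
        rw [← h9]
        refine Finset.sum_congr rfl fun l _ => ?_
        rw [hev x, pderiv_map]
      rw [h10, mul_zero]
    rw [Finset.sum_eq_zero h7, Finset.sum_eq_zero h8, add_zero]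
  rw [h6, map_pow, map_mul, aeval_X, Sum.elim_inl, jd1_eval] at h5
  have h7 := (mul_eq_zero.1 (eq_zero_of_pow_eq_zero h5)).resolve_left hk
  have h8 : aeval ((ψ₀ i).uv x) (ψ₀ i).D ≠ 0 := by
    rw [hev]
    have h9 : ((ψ₀ i).map ρ).uv x = (ψ₀ i).uv x := uv_map (R' := κ) (ψ₀ i) x
    rw [h9] at hD
    exact hD
  have h9 := (mul_eq_zero.1 h7).resolve_right h8
  have h10 := hv_map (R' := κ) (S := κ) hm₀ ω₀ s (fun l => algebraMap O κ (b₀ l))
    (fun l => algebraMap O κ (η₀ l)) i j x t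
  exact h10.trans h9

end one

end GX
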