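import Pool.Agent.Lib.MP_f80667_ag.Gx.Wc
import Pool.Agent.Lib.MP_f80667_ag.Gx.Wd
import Pool.Agent.Lib.MP_f80667_ag.St.Ja
import Pool.Agent.Lib.MP_f80667_ag.St.Jb
import Pool.Agent.Lib.MP_f80667_ag.St.Jc
import Pool.Agent.Lib.MP_f80667_ag.St.Jd1

/-! Reduction of the forms. -/

open MvPolynomial

namespace GX

/-- Two finite sets. -/
private theorem jd_and {F : Type} [Field F] {p q : ValuationSubring F → Prop}
    (hp : ∃ Z : Finset F, ∀ O : ValuationSubring F, (∀ z ∈ Z, z ∈ O) → p O)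
    (hq : ∃ Z : Finset F, ∀ O : ValuationSubring F, (∀ z ∈ Z, z ∈ O) → q O) :
    ∃ Z : Finset F, ∀ O : ValuationSubring F, (∀ z ∈ Z, z ∈ O) → p O ∧ q O := by
  classical
  obtain ⟨Z, hZ⟩ := hp
  obtain ⟨Z', hZ'⟩ := hq
  exact ⟨Z ∪ Z', fun O hO => ⟨hZ O fun z hz => hO z (Finset.mem_union_left _ hz),
    hZ' O fun z hz => hO z (Finset.mem_union_right _ hz)⟩⟩

/-- Finitely many elements. -/
private theorem jd_fin {F α : Type} [Field F] [Finite α] (v : α → F) :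
    ∃ Z : Finset F, ∀ O : ValuationSubring F, (∀ z ∈ Z, z ∈ O) → ∀ a, v a ∈ O := by
  classical
  have := Fintype.ofFinite α
  exact ⟨Finset.univ.image v, fun O hO a =>
    hO _ (Finset.mem_image.2 ⟨a, Finset.mem_univ a, rfl⟩)⟩

/-- Finitely many polynomials. -/
private theorem jd_mv {F α σ : Type} [Field F] [Finite α] (P : α → MvPolynomial σ F) :
    ∃ Z : Finset F, ∀ O : ValuationSubring F, (∀ z ∈ Z, z ∈ O) →
      ∀ a, ∃ P₀ : MvPolynomial σ O, MvPolynomial.map O.subtype P₀ = P a := by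
  classical
  have := Fintype.ofFinite α
  refine ⟨Finset.univ.biUnion fun a => (P a).support.image fun e => (P a).coeff e,
    fun O hO a => mv_lift O (P a) fun e => ?_⟩
  by_cases he : e ∈ (P a).support
  · exact hO _ (Finset.mem_biUnion.2 ⟨a, Finset.mem_univ a, Finset.mem_image.2 ⟨e, he, rfl⟩⟩)
  · rw [notMem_support_iff.1 he]
    exact O.zero_mem

section lin

variable {κ : Type} [Field κ] {N d m g h : ℕ}

/-- `hv` is linear in the coefficients. -/
private theorem jd_lin {K : ℕ} (ψ : Fin m → Prj κ N d) (ω : Om κ N g h)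
    (s : Finset (Ix d m)) (μ : Fin K → κ) (B : Fin K → Ix d m → κ) (H : Fin K → Fin g → κ)
    {a : Ix d m → κ} {η : Fin g → κ} (ha : ∀ l ∈ s, a l = ∑ k, μ k * B k l)
    (hη : ∀ l, η l = ∑ k, μ k * H k l) (i : Fin m) (j : Fin h) (x t : Fin N → κ) :
    hv ψ ω s a η i j x t = ∑ k, μ k * hv ψ ω s (B k) (H k) i j x t := by
  unfold hv
  have e1 : ∑ k ∈ s, (if k.1 = i then (ψ k.1).tm k.2 x t else 0) * a k =
      ∑ q, μ q * ∑ k ∈ s, (if k.1 = i then (ψ k.1).tm k.2 x t else 0) * B q k := by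
    simp only [Finset.mul_sum]
    rw [Finset.sum_comm]
    refine Finset.sum_congr rfl fun k hk => ?_
    rw [ha k hk, Finset.mul_sum]
    refine Finset.sum_congr rfl fun q _ => ?_
    ring
  have e2 : ∑ l, η l * ω.vr j l x t = ∑ q, μ q * ∑ l, H q l * ω.vr j l x t := by
    simp only [Finset.mul_sum]
    rw [Finset.sum_comm]
    refine Finset.sum_congr rfl fun l _ => ?_
    rw [hη l, Finset.sum_mul]
    refine Finset.sum_congr rfl fun q _ => ?_
    ring
  rw [e1, e2, Finset.mul_sum, Finset.mul_sum, ← Finset.sum_sub_distrib]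
  refine Finset.sum_congr rfl fun q _ => ?_
  ring

end lin

section test

variable {E : Type} [Field E] {N d m : ℕ} {ι : Type} {O : ValuationSubring E}

/-- The values of a polynomial. -/
private theorem jd_ev {n : ℕ} {P : MvPolynomial (Fin n) O} {P' : MvPolynomial (Fin n) E}
    (hP : MvPolynomial.map O.subtype P = P') {y : Fin n → O} {x : Fin n → E}
    (hy : ∀ i, (y i : E) = x i) : ((aeval y P : O) : E) = eval x P' := by
  have h1 : (Algebra.ofId O E) (aeval y P) = aeval (fun i => (Algebra.ofId O E) (y i)) P := by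
    rw [← AlgHom.comp_apply, MvPolynomial.comp_aeval]
  have h2 : (fun i => (Algebra.ofId O E) (y i)) = x := funext hy
  rw [h2] at h1
  have h3 : aeval x P = eval x P' := by
    rw [← hP, eval_map, aeval_def]
    rfl
  exact h1.trans h3

/-- The values of the linear forms. -/
private theorem jd_uv {ψ₀ : Prj O N d} {ψ : Prj E N d} (hψ : ψ₀.map O.subtype = ψ)
    {y : Fin N → O} {x : Fin N → E} (hy : ∀ i, (y i : E) = x i) (r : Fin (d + 1)) :
    ((ψ₀.uv y r : O) : E) = ψ.uv x r := by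
  subst hψ
  change O.subtype (lv (ψ₀.u r) y) = lv (fun j => O.subtype (ψ₀.u r j)) x
  rw [lv, lv, map_sum]
  refine Finset.sum_congr rfl fun j _ => ?_
  rw [map_mul, ← hy]
  rfl

/-- Units of the valuation ring. -/
private theorem jd_unit {v : O} {a : E} (ha : a ≠ 0) (hv : (v : E) = a) (hi : a⁻¹ ∈ O) :
    IsUnit v := by
  refine IsUnit.of_mul_eq_one ⟨a⁻¹, hi⟩ (Subtype.ext ?_)
  change (v : E) * a⁻¹ = 1
  rw [hv, mul_inv_cancel₀ ha]

/-- The test over the valuation ring. -/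
private def jdT (τ : Tst E N m) (hx : ∀ l, τ.x l ∈ O) (ht : ∀ l, τ.t l ∈ O) : Tst O N m where
  b := τ.b
  i := τ.i
  i' := τ.i'
  x l := ⟨τ.x l, hx l⟩
  t l := ⟨τ.t l, ht l⟩

variable {f : ι → MvPolynomial (Fin N) E} {ψ : Fin m → Prj E N d}
  {f₀ : ι → MvPolynomial (Fin N) O} {ψ₀ : Fin m → Prj O N d}

/-- The rows over the valuation ring. -/
private theorem jd_row (hm₀ : ∀ i, (ψ₀ i).G.Monic) (mp : ∀ i, (ψ₀ i).map O.subtype = ψ i)
    (τ : Tst E N m) (hx : ∀ l, τ.x l ∈ O) (ht : ∀ l, τ.t l ∈ O) (k : Ix d m) :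
    ((row ψ₀ (jdT τ hx ht) k : O) : E) = row ψ τ k := by
  have h1 := row_hom (Algebra.ofId O E) ψ₀ (jdT τ hx ht) k
  have h2 : (jdT τ hx ht).map (Algebra.ofId O E) = τ := rfl
  have h3 := row_map (R' := E) hm₀ τ k
  have h4 : (fun i => (ψ₀ i).map (algebraMap O E)) = ψ := funext mp
  rw [h4] at h3
  rw [h2, ← h3] at h1
  exact h1

/-- The tests over the valuation ring are valid. -/
private theorem jd_vr (mf : ∀ i, MvPolynomial.map O.subtype (f₀ i) = f i)
    (mp : ∀ i, (ψ₀ i).map O.subtype = ψ i) {τ : Tst E N m} (hx : ∀ l, τ.x l ∈ O)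
    (ht : ∀ l, τ.t l ∈ O) (hv : Val f ψ τ) (z1 : ∀ l, (τ.x l)⁻¹ ∈ O)
    (z2 : ∀ i, (eval ((ψ i).uv τ.x) (ψ i).D)⁻¹ ∈ O) : Vr' f₀ ψ₀ (jdT τ hx ht) := by
  have hD : ∀ i, eval ((ψ i).uv τ.x) (ψ i).D ≠ 0 →
      IsUnit (aeval ((ψ₀ i).uv (jdT τ hx ht).x) (ψ₀ i).D) := by
    intro i h0
    refine jd_unit h0 ?_ (z2 i)
    exact jd_ev (congrArg Prj.D (mp i)) fun r => jd_uv (mp i) (fun _ => rfl) r
  refine ⟨?_, fun i => ?_, hD _ hv.D, fun hb' i => ?_, fun hb' => hD _ (hv.D' hb')⟩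
  · obtain ⟨i, h0⟩ := Function.ne_iff.1 hv.zp.1
    exact ⟨i, jd_unit h0 rfl (z1 i)⟩
  · apply Subtype.ext
    exact (jd_ev (mf i) fun _ => rfl).trans (hv.zp.2 i)
  · apply Subtype.ext
    refine Eq.trans ?_ ((hv.tg hb').2 i)
    change O.subtype (∑ j, aeval (jdT τ hx ht).x (pderiv j (f₀ i)) * (jdT τ hx ht).t j) = _
    rw [map_sum]
    refine Finset.sum_congr rfl fun l _ => ?_
    rw [map_mul]
    have h1 : O.subtype (aeval (jdT τ hx ht).x (pderiv l (f₀ i))) =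
        eval τ.x (pderiv l (f i)) := by
      refine jd_ev ?_ fun _ => rfl
      rw [← pderiv_map, mf]
    rw [h1]
    rfl

end test

section one

variable {E : Type} [Field E] [IsAlgClosed E] {N d m g h : ℕ} {ι : Type} [Finite ι]
  {f : ι → MvPolynomial (Fin N) E} {ψ : Fin m → Prj E N d} {ω : Om E N g h}

/-- **Reduction.** Proof: `exists_idx`: `s`; `exists_ab`: `τ`, `b`, `a'`, `b'`; every `Psy s (b k)` is a compatible system (`psy_sy`), so `hA` gives `η k`, and `hv_psy`: `hv_red` for all `k`, `i`, `j`. `Z`: the sets of `hv_red`, the numbers `b k l`, `a' l i`, `b' k l` (`l ∈ s`), `η k l`, the coordinates of the tests `τ i`, the inverses of their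
coordinates, of `D` and `D'` at the tests (as in `exists_nf`). Let `O`, `ρ`, .. be given and `P` a compatible system over `κ`, `a l` its coefficients (`l ∈ s`; the other coefficients are `0`: `Idx` for the reduced projections implies `Idx` for `ψ`, as in `exists_nf`). The reduced tests are valid (`Vr'.val` with `R = V = O`), so `∑ row * a = 0` (`row_sum`,
`ovl`, `rad` as in `nf_det`); the identity of `exists_ab`, reduced (`row_map`, `row_hom`), gives `a l = ∑ k, μ k * ρ (b k l)` with `μ k = ∑ l, ρ (b' k l) * a l`. `hv` is linear in `(b, η)`: for `η l = ∑ k, μ k * ρ (η k l)` the value `hv` for `a` is `0`; `hv_sy`. -/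
theorem exists_al (hf : ∀ i, ∃ e, (f i).IsHomogeneous e) (ho : ∀ i, (ψ i).Ok f)
    (hA : Al f ψ ω) :
    ∃ Z : Finset E, ∀ O : ValuationSubring E, (∀ z ∈ Z, z ∈ O) →
      ∀ (κ : Type) [Field κ] (ρ : O →+* κ) (f₀ : ι → MvPolynomial (Fin N) O)
        (ψ₀ : Fin m → Prj O N d) (ω₀ : Om O N g h),
        (∀ i, MvPolynomial.map O.subtype (f₀ i) = f i) →
        (∀ i, (ψ₀ i).map O.subtype = ψ i) → (∀ i, (ψ₀ i).G.Monic) →
        ω₀.map O.subtype = ω →
          Al (fun i => MvPolynomial.map ρ (f₀ i)) (fun i => (ψ₀ i).map ρ) (ω₀.map ρ) := by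
  classical
  obtain ⟨s, hs⟩ := exists_idx ψ
  obtain ⟨n, K, τ, b, a', b', hτ, hb, hid1, hid2⟩ := exists_ab f ψ s
  have hη' : ∀ k : Fin K, ∃ η : Fin g → E, ∀ i j x t, Tg f x t →
      eval ((ψ i).uv x) (ψ i).D ≠ 0 → hv ψ ω s (b k) η i j x t = 0 := by
    intro k
    obtain ⟨η, hη⟩ := hA (Psy s (b k)) (psy_sy hs (hb k))
    exact ⟨η, fun i j x t ht hD => by rw [hv_psy hs, hη i x t ht hD j, sub_self]⟩
  choose η hη using hη'
  choose Z1 hZ1 using fun p : Fin K × Fin m × Fin h =>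
    hv_red (ω := ω) (fun i => (ho i).mon) s (b p.1) (η p.1) p.2.1 p.2.2 (hη p.1 p.2.1 p.2.2)
  obtain ⟨Z2, hZ2⟩ := jd_and (jd_fin fun p : Fin K × s => b p.1 p.2)
    (jd_and (jd_fin fun p : s × Fin n => a' p.1 p.2)
    (jd_and (jd_fin fun p : Fin K × s => b' p.1 p.2)
    (jd_and (jd_fin fun p : Fin K × Fin g => η p.1 p.2)
    (jd_and (jd_fin fun p : Fin n × Fin N => (τ p.1).x p.2)
    (jd_and (jd_fin fun p : Fin n × Fin N => (τ p.1).t p.2)
    (jd_and (jd_fin fun p : Fin n × Fin N => ((τ p.1).x p.2)⁻¹)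
    (jd_fin fun p : Fin n × Fin m => (eval ((ψ p.2).uv (τ p.1).x) (ψ p.2).D)⁻¹)))))))
  refine ⟨Finset.univ.biUnion Z1 ∪ Z2, fun O hO κ _ ρ f₀ ψ₀ ω₀ hf₀ hψ₀ hm₀ hω₀ P hP => ?_⟩
  obtain ⟨ob, oa', ob', oη, ox, ot, oxi, oD⟩ :=
    hZ2 O fun z hz => hO z (Finset.mem_union_right _ hz)
  let _ : Algebra O κ := ρ.toAlgebra
  have hx : ∀ i l, (τ i).x l ∈ O := fun i l => ox (i, l)
  have ht' : ∀ i l, (τ i).t l ∈ O := fun i l => ot (i, l)
  have hval : ∀ i, Val (fun i => MvPolynomial.map ρ (f₀ i)) (fun i => (ψ₀ i).map ρ)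
      ((jdT (τ i) (hx i) (ht' i)).map ρ) := fun i =>
    (jd_vr hf₀ hψ₀ (hx i) (ht' i) (hτ i) (fun l => oxi (i, l)) fun l => oD (i, l)).val
      (Algebra.ofId O κ)
  have hs' : ∀ k, Idx (fun i => (ψ₀ i).map ρ) k → k ∈ s := by
    intro k hk
    refine (hs k).2 ⟨?_, hk.2.1, ?_, hk.2.2.2⟩
    · intro h0
      refine hk.1 ?_
      have h1 : MvPolynomial.map O.subtype (ψ₀ k.1).D = 0 :=
        (congrArg Prj.D (hψ₀ k.1)).trans h0
      have h2 : (ψ₀ k.1).D = 0 := by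
        refine MvPolynomial.map_injective O.subtype Subtype.val_injective ?_
        rw [h1, map_zero]
      have h3 : MvPolynomial.map ρ (ψ₀ k.1).D = 0 := by rw [h2, map_zero]
      exact h3
    · have h1 : ((ψ₀ k.1).map ρ).G.natDegree = (ψ₀ k.1).G.natDegree :=
        (hm₀ k.1).natDegree_map _
      have h2 : ((ψ₀ k.1).map O.subtype).G.natDegree =
          (ψ₀ k.1).G.natDegree := (hm₀ k.1).natDegree_map _
      rw [hψ₀] at h2
      rw [h2, ← h1]
      exact hk.2.2.1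
  obtain ⟨a, ha⟩ : ∃ a : Ix d m → κ, a = fun k => coeff k.2.2.2 (P k.1 k.2.1 k.2.2.1) :=
    ⟨_, rfl⟩
  have hrow : ∀ i, ∑ l ∈ s, ρ (row ψ₀ (jdT (τ i) (hx i) (ht' i)) l) * a l = 0 := by
    intro i
    have h3 := row_sum hs' hP.hom hP.zero hP.big hP.triv ((jdT (τ i) (hx i) (ht' i)).map ρ)
    obtain ⟨τ', hτ'⟩ : ∃ τ' : Tst κ N m, τ' = (jdT (τ i) (hx i) (ht' i)).map ρ := ⟨_, rfl⟩
    have hv' := hval i
    rw [← hτ'] at h3 hv'
    have h4 : (if τ'.b = true then ((ψ₀ τ'.i').map ρ).gy τ'.x *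
        ((ψ₀ τ'.i).map ρ).ev (P τ'.i) τ'.x τ'.t -
        ((ψ₀ τ'.i).map ρ).gy τ'.x * ((ψ₀ τ'.i').map ρ).ev (P τ'.i') τ'.x τ'.t
      else ((ψ₀ τ'.i).map ρ).ev (P τ'.i) τ'.x τ'.x) = 0 := by
      by_cases hb : τ'.b = true
      · rw [if_pos hb, sub_eq_zero]
        exact hP.ovl _ _ _ _ (hv'.tg hb) hv'.D (hv'.D' hb)
      · rw [if_neg hb]
        exact hP.rad _ _ hv'.zp hv'.D
    refine Eq.trans (Finset.sum_congr rfl fun l _ => ?_) (h3.trans h4)
    rw [ha]
    congr 1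
    have h5 := row_hom (Algebra.ofId O κ) ψ₀ (jdT (τ i) (hx i) (ht' i)) l
    have h6 := row_map (R' := κ) hm₀ τ' l
    rw [hτ'] at h6 ⊢
    exact h5.trans h6.symm
  obtain ⟨b₀, hb₀⟩ : ∃ b₀ : Fin K → Ix d m → O, ∀ k, ∀ l ∈ s, (b₀ k l : E) = b k l :=
    ⟨fun k l => if hl : l ∈ s then ⟨b k l, ob (k, ⟨l, hl⟩)⟩ else 0,
      fun k l hl => by simp only [dif_pos hl]⟩
  obtain ⟨b₁, hb₁⟩ : ∃ b₁ : Fin K → Ix d m → O, ∀ k, ∀ l ∈ s, (b₁ k l : E) = b' k l :=
    ⟨fun k l => if hl : l ∈ s then ⟨b' k l, ob' (k, ⟨l, hl⟩)⟩ else 0,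
      fun k l hl => by simp only [dif_pos hl]⟩
  obtain ⟨a₀, ha₀⟩ : ∃ a₀ : Ix d m → Fin n → O, ∀ l ∈ s, ∀ i, (a₀ l i : E) = a' l i :=
    ⟨fun l i => if hl : l ∈ s then ⟨a' l i, oa' (⟨l, hl⟩, i)⟩ else 0,
      fun l hl i => by simp only [dif_pos hl]⟩
  obtain ⟨η₀, hη₀⟩ : ∃ η₀ : Fin K → Fin g → O, ∀ k l, (η₀ k l : E) = η k l :=
    ⟨fun k l => ⟨η k l, oη (k, l)⟩, fun _ _ => rfl⟩
  have hid : ∀ l ∈ s, ∀ l' ∈ s, ∑ i, a₀ l i * row ψ₀ (jdT (τ i) (hx i) (ht' i)) l' +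
      ∑ j, b₀ j l * b₁ j l' = if l = l' then 1 else 0 := by
    intro l hl l' hl'
    apply Subtype.val_injective
    change O.subtype (∑ i, a₀ l i * row ψ₀ (jdT (τ i) (hx i) (ht' i)) l' +
      ∑ j, b₀ j l * b₁ j l') = O.subtype (if l = l' then 1 else 0)
    rw [map_add, map_sum, map_sum]
    have e1 : ∑ i, O.subtype (a₀ l i * row ψ₀ (jdT (τ i) (hx i) (ht' i)) l') =
        ∑ i, a' l i * row ψ (τ i) l' := by
      refine Finset.sum_congr rfl fun i _ => ?_
      rw [map_mul]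
      change (a₀ l i : E) * ((row ψ₀ (jdT (τ i) (hx i) (ht' i)) l' : O) : E) = _
      rw [ha₀ l hl, jd_row hm₀ hψ₀]
    have e2 : ∑ j, O.subtype (b₀ j l * b₁ j l') = ∑ j, b j l * b' j l' := by
      refine Finset.sum_congr rfl fun j _ => ?_
      rw [map_mul]
      change (b₀ j l : E) * (b₁ j l' : E) = _
      rw [hb₀ j l hl, hb₁ j l' hl']
    rw [e1, e2]
    by_cases hll : l = l'
    · rw [if_pos hll, map_one, ← hll]
      exact hid1 l hl
    · rw [if_neg hll, map_zero]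
      exact hid2 l hl l' hl' hll
  obtain ⟨μ, hμ⟩ : ∃ μ : Fin K → κ, ∀ k, μ k = ∑ l' ∈ s, ρ (b₁ k l') * a l' :=
    ⟨_, fun _ => rfl⟩
  have hal : ∀ l ∈ s, a l = ∑ k, μ k * ρ (b₀ k l) := by
    intro l hl
    calc a l = ∑ l' ∈ s, ρ (if l = l' then 1 else 0) * a l' := by
          have h3 : ∀ l' ∈ s, ρ (if l = l' then 1 else 0) * a l' =
              if l = l' then a l' else 0 := by
            intro l' _
            by_cases hll : l = l'
            · rw [if_pos hll, if_pos hll, map_one, one_mul]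
            · rw [if_neg hll, if_neg hll, map_zero, zero_mul]
          rw [Finset.sum_congr rfl h3, Finset.sum_ite_eq, if_pos hl]
      _ = ∑ l' ∈ s, (∑ i, ρ (a₀ l i) * ρ (row ψ₀ (jdT (τ i) (hx i) (ht' i)) l') * a l' +
          ∑ j, ρ (b₀ j l) * ρ (b₁ j l') * a l') := by
          refine Finset.sum_congr rfl fun l' hl' => ?_
          rw [← hid l hl l' hl', map_add, map_sum, map_sum, add_mul, Finset.sum_mul,
            Finset.sum_mul]
          simp only [map_mul]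
      _ = ∑ i, ρ (a₀ l i) * ∑ l' ∈ s, ρ (row ψ₀ (jdT (τ i) (hx i) (ht' i)) l') * a l' +
          ∑ j, ρ (b₀ j l) * μ j := by
          rw [Finset.sum_add_distrib, Finset.sum_comm, Finset.sum_comm (s := s)]
          simp only [hμ, Finset.mul_sum, mul_assoc]
      _ = ∑ k, μ k * ρ (b₀ k l) := by
          rw [Finset.sum_eq_zero fun i _ => by rw [hrow i, mul_zero], zero_add]
          exact Finset.sum_congr rfl fun k _ => mul_comm _ _
  refine ⟨fun l => ∑ k, μ k * ρ (η₀ k l), fun i x t ht hD j => ?_⟩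
  have h5 := hv_sy (ω := ω₀.map ρ) hs' hP (fun l => ∑ k, μ k * ρ (η₀ k l)) i j x t
  rw [← ha] at h5
  have h6 := jd_lin (fun i => (ψ₀ i).map ρ) (ω₀.map ρ) s μ (fun k l => ρ (b₀ k l))
    (fun k l => ρ (η₀ k l)) hal (fun _ => rfl) i j x t
  have h7 : ∀ k, hv (fun i => (ψ₀ i).map ρ) (ω₀.map ρ) s (fun l => ρ (b₀ k l))
      (fun l => ρ (η₀ k l)) i j x t = 0 := fun k =>
    hZ1 (k, i, j) O (fun z hz => hO z (Finset.mem_union_left _
      (Finset.mem_biUnion.2 ⟨_, Finset.mem_univ _, hz⟩))) κ ρ f₀ ψ₀ ω₀ (b₀ k) (η₀ k) hf₀ hψ₀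
        hm₀ hω₀ (hb₀ k) (hη₀ k) x t ht hD
  rw [Finset.sum_eq_zero fun k _ => by rw [h7 k, mul_zero]] at h6
  rw [h6] at h5
  exact sub_eq_zero.1 h5.symm

end one

/-- Composition. -/
private theorem jd_om {R R' R'' : Type} [CommRing R] [CommRing R'] [CommRing R''] {N g h : ℕ}
    (φ : R →+* R') (φ' : R' →+* R'') (ω : Om R N g h) :
    (ω.map φ).map φ' = ω.map (φ'.comp φ) := by
  unfold Om.map
  congr 1
  · funext j
    exact MvPolynomial.map_map φ φ' (ω.c j)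
  · funext j l k
    exact MvPolynomial.map_map φ φ' (ω.q j l k)

section place

variable {F : Type} [Field F] [CharZero F] {N d m g h : ℕ} {ι : Type} [Finite ι]
  {f : ι → MvPolynomial (Fin N) F} {ψ : Fin m → Prj F N d} {ω : Om F N g h}

/-- Proof: the coefficients of the polynomials (`mv_lift`). -/
theorem exists_om (ω : Om F N g h) : ∃ Z : Finset F, ∀ O : ValuationSubring F,
    (∀ z ∈ Z, z ∈ O) → ∃ ω₀ : Om O N g h, ω₀.map O.subtype = ω := by
  obtain ⟨Z, hZ⟩ := jd_and (jd_mv ω.c)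
    (jd_mv fun p : Fin h × Fin g × Fin N => ω.q p.1 p.2.1 p.2.2)
  refine ⟨Z, fun O hO => ?_⟩
  obtain ⟨h1, h2⟩ := hZ O hO
  choose c₀ hc₀ using h1
  choose q₀ hq₀ using h2
  refine ⟨⟨c₀, fun j l k => q₀ (j, l, k)⟩, ?_⟩
  obtain ⟨c, q⟩ := ω
  unfold Om.map
  congr 1
  · exact funext hc₀
  · funext j l k
    exact hq₀ (j, l, k)

/-- **Places with good reduction of the forms.** Proof: `al_of`, `exists_al` over `E = AlgebraicClosure F` (`Ok.map`, `Cov.map`) for the valuation ring `V.comap σ` of `E`, `κ = ResidueField V`, `ρ` the homomorphism `V.comap σ → V → κ`, and the images of `f₀`, `ψ₀`, `ω₀` under `V.comap (F → Ω) → V.comap σ` (`σ` is a homomorphism over `F`);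
the composition with `ρ` is `rdO F V`. -/
theorem exists_alv (hf : ∀ i, ∃ e, (f i).IsHomogeneous e) (ho : ∀ i, (ψ i).Ok f)
    (hc : Cov f ψ)
    (hS : Spf (fun i => MvPolynomial.map (algebraMap F (AlgebraicClosure F)) (f i))
      (ω.map (algebraMap F (AlgebraicClosure F)))) :
    ∃ Z : Finset (AlgebraicClosure F), ∀ (Ω : Type) [Field Ω] [Algebra F Ω]
      (V : ValuationSubring Ω) (σ : AlgebraicClosure F →ₐ[F] Ω), (∀ z ∈ Z, σ z ∈ V) →
      ∀ (f₀ : ι → MvPolynomial (Fin N) (V.comap (algebraMap F Ω)))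
        (ψ₀ : Fin m → Prj (V.comap (algebraMap F Ω)) N d)
        (ω₀ : Om (V.comap (algebraMap F Ω)) N g h), Dat V f ψ f₀ ψ₀ →
        ω₀.map (V.comap (algebraMap F Ω)).subtype = ω →
        Al (fun i => MvPolynomial.map (rdO F V) (f₀ i)) (fun i => (ψ₀ i).map (rdO F V))
          (ω₀.map (rdO F V)) := by
  have hfE : ∀ i, ∃ e, (MvPolynomial.map (algebraMap F (AlgebraicClosure F))
      (f i)).IsHomogeneous e := by
    intro i
    obtain ⟨e, he⟩ := hf i
    exact ⟨e, he.map _⟩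
  have hoE := fun i => (ho i).map (algebraMap F (AlgebraicClosure F))
  have hcE := hc.map (algebraMap F (AlgebraicClosure F))
  obtain ⟨Z, hZ⟩ := exists_al hfE hoE (al_of hfE hoE hcE hS)
  refine ⟨Z, fun Ω _ _ V σ hσ f₀ ψ₀ ω₀ hDat hω₀ => ?_⟩
  let θ : (V.comap (algebraMap F Ω)) →+* (V.comap (σ : AlgebraicClosure F →+* Ω)) :=
    ((algebraMap F (AlgebraicClosure F)).comp (V.comap (algebraMap F Ω)).subtype).codRestrict
      (V.comap (σ : AlgebraicClosure F →+* Ω)) fun x => by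
        rw [ValuationSubring.mem_comap]
        change σ (algebraMap F (AlgebraicClosure F) (x : F)) ∈ V
        rw [AlgHom.commutes]
        exact x.2
  let ρ : (V.comap (σ : AlgebraicClosure F →+* Ω)) →+* IsLocalRing.ResidueField V :=
    (IsLocalRing.residue V).comp
      (((σ : AlgebraicClosure F →+* Ω).comp
        (V.comap (σ : AlgebraicClosure F →+* Ω)).subtype).codRestrict V fun x => x.2)
  have hρθ : ρ.comp θ = rdO F V := by
    refine RingHom.ext fun x => ?_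
    change IsLocalRing.residue V _ = IsLocalRing.residue V _
    congr 1
    apply Subtype.ext
    exact AlgHom.commutes σ (x : F)
  have hθ : (V.comap (σ : AlgebraicClosure F →+* Ω)).subtype.comp θ =
      (algebraMap F (AlgebraicClosure F)).comp (V.comap (algebraMap F Ω)).subtype :=
    RingHom.ext fun _ => rfl
  have h1 := hZ (V.comap (σ : AlgebraicClosure F →+* Ω)) (fun z hz => hσ z hz)
    (IsLocalRing.ResidueField V) ρ (fun i => MvPolynomial.map θ (f₀ i))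
    (fun i => (ψ₀ i).map θ) (ω₀.map θ) ?_ ?_ ?_ ?_
  · have e1 : (fun i => MvPolynomial.map ρ (MvPolynomial.map θ (f₀ i))) =
        fun i => MvPolynomial.map (rdO F V) (f₀ i) := by
      funext i
      rw [MvPolynomial.map_map, hρθ]
    have e2 : (fun i => ((ψ₀ i).map θ).map ρ) = fun i => (ψ₀ i).map (rdO F V) := by
      funext i
      rw [Prj.map_map, hρθ]
    have e3 : (ω₀.map θ).map ρ = ω₀.map (rdO F V) := by
      rw [jd_om, hρθ]
    rw [e1, e2, e3] at h1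
    exact h1
  · intro i
    rw [MvPolynomial.map_map, hθ, ← MvPolynomial.map_map, hDat.mf]
  · intro i
    rw [Prj.map_map, hθ, ← Prj.map_map, hDat.mp]
  · intro i
    exact (hDat.ok i).mon.map _
  · rw [jd_om, hθ, ← jd_om, hω₀]

end place

end GX
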