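import Pool.Agent.Lib.MP_f80667_ag.Gx.Eg
import Pool.Agent.Lib.MP_f80667_ag.Gx.Oa

/-! Relations between the values of the functions on the tangent vectors. -/

open MvPolynomial

namespace GX

variable {κ : Type} [Field κ] {N d m g h : ℕ} {ι : Type} {f : ι → MvPolynomial (Fin N) κ}
  {ψ : Fin m → Prj κ N d} {ω : Om κ N g h}

/-- The additive maps from the field to `B`. -/
private def RlH (κ B : Type) [Field κ] [AddCommGroup B] : Type := κ →+ B

private noncomputable instance {B : Type} [AddCommGroup B] : AddCommGroup (RlH κ B) :=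
  inferInstanceAs (AddCommGroup (κ →+ B))

private def rlApp {B : Type} [AddCommGroup B] (φ : RlH κ B) (x : κ) : B :=
  (show κ →+ B from φ) x

private theorem rlApp_add {B : Type} [AddCommGroup B] (φ χ : RlH κ B) (x : κ) :
    rlApp (φ + χ) x = rlApp φ x + rlApp χ x := rfl

private theorem rlApp_zero {B : Type} [AddCommGroup B] (x : κ) :
    rlApp (0 : RlH κ B) x = 0 := rfl

private theorem rlApp_map_add {B : Type} [AddCommGroup B] (φ : RlH κ B) (x y : κ) :
    rlApp φ (x + y) = rlApp φ x + rlApp φ y := AddMonoidHom.map_add (φ : κ →+ B) x y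

private theorem rlApp_map_zero {B : Type} [AddCommGroup B] (φ : RlH κ B) :
    rlApp φ 0 = 0 := AddMonoidHom.map_zero (φ : κ →+ B)

private theorem rl_ext {B : Type} [AddCommGroup B] {φ χ : RlH κ B}
    (h : ∀ x, rlApp φ x = rlApp χ x) : φ = χ := by
  have h1 : (φ : κ →+ B) = (χ : κ →+ B) := AddMonoidHom.ext h
  exact h1

private noncomputable instance {B : Type} [AddCommGroup B] : SMul κ (RlH κ B) :=
  ⟨fun t φ => (φ : κ →+ B).comp (AddMonoidHom.mulLeft t)⟩

private theorem rlApp_smul {B : Type} [AddCommGroup B] (t : κ) (φ : RlH κ B) (x : κ) :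
    rlApp (t • φ) x = rlApp φ (t * x) := rfl

private noncomputable instance {B : Type} [AddCommGroup B] : Module κ (RlH κ B) where
  one_smul φ := rl_ext fun x => by rw [rlApp_smul, one_mul]
  mul_smul a b φ := rl_ext fun x => by
    rw [rlApp_smul, rlApp_smul, rlApp_smul]
    congr 1
    ring
  smul_zero a := rl_ext fun x => by
    rw [rlApp_smul, rlApp_zero, rlApp_zero]
  smul_add a φ χ := rl_ext fun x => by
    rw [rlApp_smul, rlApp_add, rlApp_add, rlApp_smul, rlApp_smul]
  add_smul a b φ := rl_ext fun x => by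
    rw [rlApp_smul, rlApp_add, rlApp_smul, rlApp_smul, add_mul, rlApp_map_add]
  zero_smul φ := rl_ext fun x => by
    rw [rlApp_smul, zero_mul, rlApp_map_zero, rlApp_zero]

/-- The value at `x` as an additive map. -/
private noncomputable def rlEv (B : Type) [AddCommGroup B] (x : κ) : RlH κ B →+ B where
  toFun φ := rlApp φ x
  map_zero' := rlApp_zero x
  map_add' φ χ := rlApp_add φ χ x

open Classical in
/-- The additive map `s ↦ T x (s t)`. -/
private noncomputable def RlL {B : Type} [AddCommGroup B]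
    {T : (Fin N → κ) → (Fin N → κ) → B} (hT : Ft f ψ T) (x t : Fin N → κ) : RlH κ B :=
  if ht : Tg f x t then
    (AddMonoidHom.mk' (fun s : κ => T x (s • t)) fun a b => by
      rw [add_smul]
      exact hT.add x _ _ (tg_smul ht a) (tg_smul ht b) : κ →+ B)
  else 0

private theorem rlL_app {B : Type} [AddCommGroup B]
    {T : (Fin N → κ) → (Fin N → κ) → B} (hT : Ft f ψ T) {x t : Fin N → κ} (ht : Tg f x t)
    (s : κ) : rlApp (RlL hT x t) s = T x (s • t) := by
  unfold RlL
  rw [dif_pos ht]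
  rfl

/-- **From `B` to `κ`, for a sum.** Proof: as `Ft.exists_fv` of `Gx/Ea.lean` (copy its private definitions `EaH`, `EaL`, ..): the element `∑ e s • EaL hT (x s) (t s)` of `EaH κ B` is not `0` (its value at `1` is the sum `h₁`); a linear functional `χ` which is not `0` at this element;
`ℓ x t = χ (EaL hT x t)`; the proof of `Fv` is the same. -/
theorem Ft.exists_fvs {B : Type} [AddCommGroup B] (hf : ∀ i, ∃ e, (f i).IsHomogeneous e)
    (h : ∀ i, (ψ i).Ok f) {T : (Fin N → κ) → (Fin N → κ) → B} (hT : Ft f ψ T) {σ : Type}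
    (S : Finset σ) (e : σ → ℤ) (x t : σ → Fin N → κ) (h₀ : ∀ s ∈ S, Tg f (x s) (t s))
    (h₁ : ∑ s ∈ S, e s • T (x s) (t s) ≠ 0) :
    ∃ ℓ, Fv f ψ ℓ ∧ ∑ s ∈ S, e s • ℓ (x s) (t s) ≠ 0 := by
  classical
  have hL : ∑ s ∈ S, e s • RlL hT (x s) (t s) ≠ 0 := by
    intro hz
    apply h₁
    have h2 : rlEv B (1 : κ) (∑ s ∈ S, e s • RlL hT (x s) (t s)) = 0 := by rw [hz, map_zero]
    rw [map_sum] at h2
    rw [← h2]
    refine Finset.sum_congr rfl fun s hs => ?_
    rw [map_zsmul]
    change _ = e s • rlApp (RlL hT (x s) (t s)) 1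
    rw [rlL_app hT (h₀ s hs) 1, one_smul]
  obtain ⟨χ, hχ⟩ : ∃ χ : Module.Dual κ (RlH κ B), χ (∑ s ∈ S, e s • RlL hT (x s) (t s)) ≠ 0 := by
    by_contra hcon
    push Not at hcon
    exact hL ((Module.forall_dual_apply_eq_zero_iff κ _).1 hcon)
  have hχ' : ∑ s ∈ S, e s • χ (RlL hT (x s) (t s)) ≠ 0 := by
    rw [map_sum] at hχ
    simpa only [map_zsmul] using hχ
  refine ⟨fun x t => χ (RlL hT x t), ⟨?_, ?_, ?_, ?_, ?_⟩, hχ'⟩
  · intro x t t' ht ht'
    have h2 : RlL hT x (t + t') = RlL hT x t + RlL hT x t' := rl_ext fun s => by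
      rw [rlApp_add, rlL_app hT (tg_add ht ht'), rlL_app hT ht, rlL_app hT ht', smul_add]
      exact hT.add x _ _ (tg_smul ht s) (tg_smul ht' s)
    simp only [h2, map_add]
  · intro x t c ht
    have h2 : RlL hT x (c • t) = c • RlL hT x t := rl_ext fun s => by
      rw [rlApp_smul, rlL_app hT (tg_smul ht c), rlL_app hT ht, smul_smul, mul_comm]
    simp only [h2, map_smul, smul_eq_mul]
  · intro x t c hc ht
    have h2 : RlL hT (c • x) (c • t) = RlL hT x t := rl_ext fun s => by
      rw [rlL_app hT (tg_hom hf ht hc), rlL_app hT ht, smul_comm]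
      exact hT.hom x _ c hc (tg_smul ht s)
    simp only [h2]
  · intro x c hx
    have h2 : RlL hT x (c • x) = 0 := rl_ext fun s => by
      rw [rlL_app hT (tg_rad hf hx c), rlApp_zero, smul_smul]
      exact hT.rad x (s * c) hx
    simp only [h2, map_zero]
  · intro i a ρ j S ha hj hS
    have h2 : ∑ c ∈ S, (∏ c' ∈ S.erase c, (c - c'))⁻¹ •
        (((ψ i).gc (av a c)).roots.map fun w => w ^ j • RlL hT ((ψ i).pt (av a c) w)
          ((ψ i).lt (av a c) w (dv a c))).sum = 0 := by
      refine rl_ext fun τ => ?_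
      rw [rlApp_zero]
      have h3 := hT.crv i a ρ j S τ ha hj hS
      have h4 : rlEv B τ (∑ c ∈ S, (∏ c' ∈ S.erase c, (c - c'))⁻¹ •
        (((ψ i).gc (av a c)).roots.map fun w => w ^ j • RlL hT ((ψ i).pt (av a c) w)
          ((ψ i).lt (av a c) w (dv a c))).sum) = 0 := by
        rw [map_sum, ← h3]
        refine Finset.sum_congr rfl fun c hc => ?_
        rw [Multiset.smul_sum, map_multiset_sum, Multiset.map_map, Multiset.map_map]
        refine congrArg Multiset.sum (Multiset.map_congr rfl fun w hw => ?_)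
        have h5 := ((h i).lt_tg hf ((h i).mem_gc.1 hw) (hS c hc) (dv a c)).1
        change rlApp ((∏ c' ∈ S.erase c, (c - c'))⁻¹ • w ^ j • RlL hT ((ψ i).pt (av a c) w)
          ((ψ i).lt (av a c) w (dv a c))) τ = _
        rw [rlApp_smul, rlApp_smul, rlL_app hT h5]
        congr 2
        ring
      exact h4
    have h6 := congrArg χ h2
    rw [map_zero, map_sum] at h6
    rw [← h6]
    refine Finset.sum_congr rfl fun c hc => ?_
    rw [map_smul, smul_eq_mul, map_multiset_sum, Multiset.map_map]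
    congr 1
    refine congrArg Multiset.sum (Multiset.map_congr rfl fun w hw => ?_)
    change _ = χ (w ^ j • RlL hT ((ψ i).pt (av a c) w) ((ψ i).lt (av a c) w (dv a c)))
    rw [map_smul, smul_eq_mul]

private theorem rl_eval {κ' : Type} [Field κ'] [Algebra κ κ'] {τ : Type} (z : τ → κ)
    (q : MvPolynomial τ κ) : eval (fun k => algebraMap κ κ' (z k))
      (MvPolynomial.map (algebraMap κ κ') q) = algebraMap κ κ' (eval z q) := by
  rw [MvPolynomial.eval_map]
  exact (MvPolynomial.eval₂_comp_left (algebraMap κ κ') (RingHom.id κ) z q).symm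

private theorem rl_aeval {κ' : Type} [Field κ'] [Algebra κ κ'] {τ : Type} (z : τ → κ)
    (q : MvPolynomial τ κ) : aeval (fun k => algebraMap κ κ' (z k)) q =
      algebraMap κ κ' (aeval z q) := by
  have h := rl_eval (κ' := κ') z q
  rw [MvPolynomial.eval_map] at h
  exact h

private theorem rl_tg {κ' : Type} [Field κ'] [Algebra κ κ'] {x t : Fin N → κ} (ht : Tg f x t) :
    Tg (fun i => MvPolynomial.map (algebraMap κ κ') (f i)) (fun k => algebraMap κ κ' (x k))
      fun k => algebraMap κ κ' (t k) := by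
  refine ⟨⟨fun h0 => ht.1.1 (funext fun k => ?_), fun i => ?_⟩, fun i => ?_⟩
  · exact (map_eq_zero (algebraMap κ κ')).1 (congrFun h0 k)
  · rw [rl_eval, ht.1.2 i, map_zero]
  · have h1 := congrArg (algebraMap κ κ') (ht.2 i)
    rw [map_sum, map_zero] at h1
    rw [← h1]
    refine Finset.sum_congr rfl fun j _ => ?_
    rw [MvPolynomial.pderiv_map, rl_eval, map_mul]

private theorem rl_uv {κ' : Type} [Field κ'] [Algebra κ κ'] (ψ : Prj κ N d) (x : Fin N → κ) :
    (ψ.map (algebraMap κ κ')).uv (fun k => algebraMap κ κ' (x k)) =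
      fun r => algebraMap κ κ' (ψ.uv x r) := by
  rw [uv_map]
  funext r
  change lv (ψ.u r) _ = algebraMap κ κ' (lv (ψ.u r) x)
  rw [lv, lv, map_sum]
  refine Finset.sum_congr rfl fun j _ => ?_
  rw [map_mul]
  rfl

private theorem rl_id (ψ : Prj κ N d) : ψ.map (algebraMap κ κ) = ψ := by
  have h : (MvPolynomial.map (algebraMap κ κ) :
      MvPolynomial (Fin (d + 1)) κ →+* MvPolynomial (Fin (d + 1)) κ) = RingHom.id _ := by
    refine RingHom.ext fun a => ?_
    exact MvPolynomial.map_id a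
  cases ψ
  unfold Prj.map
  congr 1
  · change Polynomial.map (MvPolynomial.map (algebraMap κ κ)) _ = _
    rw [h, Polynomial.map_id]
  · exact MvPolynomial.map_id _
  · funext j
    change Polynomial.map (MvPolynomial.map (algebraMap κ κ)) _ = _
    rw [h, Polynomial.map_id]

private theorem rl_gy {κ' : Type} [Field κ'] [Algebra κ κ'] (ψ : Prj κ N d) (x : Fin N → κ) :
    (ψ.map (algebraMap κ κ')).gy (fun k => algebraMap κ κ' (x k)) =
      algebraMap κ κ' (ψ.gy x) := by
  rw [gy_map, rl_aeval, ← gy_map, rl_id]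

private theorem rl_ev {κ' : Type} [Field κ'] [Algebra κ κ'] (ψ : Prj κ N d)
    (P : ℕ → Fin (d + 1) → MvPolynomial (Fin (d + 1)) κ) (x t : Fin N → κ) :
    (ψ.map (algebraMap κ κ')).ev (fun j r => MvPolynomial.map (algebraMap κ κ') (P j r))
      (fun k => algebraMap κ κ' (x k)) (fun k => algebraMap κ κ' (t k)) =
      algebraMap κ κ' (ψ.ev P x t) := by
  have h1 : (Sum.elim (fun k => algebraMap κ κ' (x k)) (fun k => algebraMap κ κ' (t k)) :
      Fin N ⊕ Fin N → κ') = fun k => algebraMap κ κ' ((Sum.elim x t : Fin N ⊕ Fin N → κ) k) := by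
    funext k
    rcases k with k | k <;> rfl
  rw [← evq_aeval, h1, rl_aeval, evq_aeval, rl_id]
  congr 2
  funext j r
  exact MvPolynomial.map_id _

/-- **Relations.** Proof: otherwise `Ft.exists_fvs`: `ℓ`; `Fv.sy`: the compatible system `P`; `Sy.up`, `hA`: `η` over `κ'`; for every `s ∈ S`: `j` with `c_j (x s) ≠ 0` (`At`), `i` with `D_i ≠ 0` (`Cov.exists_ne`): `gy ≠ 0` (`pt_eq`, `gy_ne`), so
`algebraMap (ℓ (x s) (t s)) = ∑ η l * algebraMap (b s l)` (the values of mapped polynomials, `Prj.ev` of the mapped projection: compare the proofs of `Ef` / `Cb`: `ev` commutes with the map), so the sum of the `e s • ℓ` is `∑ η l * (∑ e s • b s) l = 0`; `algebraMap κ κ'` is injective. -/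
theorem rlf_of {κ' : Type} [Field κ'] [Algebra κ κ'] [Infinite κ] {p : ℕ} (hp : p.Prime)
    [CharP κ p] (hpf : ∀ x : κ, ∃ y, y ^ p = x)
    (hspl : ∀ i, ∀ g : Polynomial κ, g ≠ 0 → g.natDegree ≤ (ψ i).G.natDegree →
      Multiset.card g.roots = g.natDegree)
    (hf : ∀ i, ∃ e, (f i).IsHomogeneous e) (h : ∀ i, (ψ i).Ok f) (hc : Cov f ψ)
    (hA : Al (fun i => MvPolynomial.map (algebraMap κ κ') (f i))
      (fun i => (ψ i).map (algebraMap κ κ')) (ω.map (algebraMap κ κ'))) : Rlf f ψ ω := by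
  intro B _ T hT σ S e x t b hb hrel
  by_contra hne
  obtain ⟨ℓ, hℓ, hne'⟩ := hT.exists_fvs hf h S e x t (fun s hs => (hb s hs).1) hne
  obtain ⟨P, hP, hev⟩ := Fv.sy hf h hp hpf hℓ
  obtain ⟨η, hη⟩ := hA _ (hP.up (κ' := κ') hf h hspl)
  apply hne'
  have key : ∀ s ∈ S, algebraMap κ κ' (ℓ (x s) (t s)) =
      ∑ l, η l * algebraMap κ κ' (b s l) := by
    intro s hs
    obtain ⟨ht, j, hj, hv⟩ := hb s hs
    obtain ⟨i, hi⟩ := hc.exists_ne ht.1
    have hgy : (ψ i).gy (x s) ≠ 0 := (h i).gy_ne ((h i).pt_eq ht.1 hi).1 hi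
    have h1 := hη i (fun k => algebraMap κ κ' (x s k)) (fun k => algebraMap κ κ' (t s k))
      (rl_tg ht) (by
        rw [rl_uv]
        change eval _ (MvPolynomial.map (algebraMap κ κ') (ψ i).D) ≠ 0
        rw [rl_eval]
        exact (map_ne_zero _).2 hi) j
    rw [rl_ev, rl_gy, hev i (x s) (t s) ht hi] at h1
    change eval _ (MvPolynomial.map (algebraMap κ κ') (ω.c j)) * _ = _ at h1
    rw [rl_eval] at h1
    have h2 : ∀ l, (ω.map (algebraMap κ κ')).v j l (fun k => algebraMap κ κ' (x s k))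
        (fun k => algebraMap κ κ' (t s k)) =
        algebraMap κ κ' (eval (x s) (ω.c j)) * algebraMap κ κ' (b s l) := by
      intro l
      rw [← map_mul, hv l, Om.v, Om.v, map_sum]
      refine Finset.sum_congr rfl fun k _ => ?_
      change eval _ (MvPolynomial.map (algebraMap κ κ') (ω.q j l k)) * _ = _
      rw [rl_eval, map_mul]
    simp only [h2] at h1
    have h3 : ∑ l, η l * (algebraMap κ κ' (eval (x s) (ω.c j)) * algebraMap κ κ' (b s l)) =
        algebraMap κ κ' (eval (x s) (ω.c j)) * ∑ l, η l * algebraMap κ κ' (b s l) := by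
      rw [Finset.mul_sum]
      exact Finset.sum_congr rfl fun l _ => by ring
    rw [h3, map_mul] at h1
    have h4 : algebraMap κ κ' (eval (x s) (ω.c j)) * algebraMap κ κ' ((ψ i).gy (x s)) ≠ 0 :=
      mul_ne_zero ((map_ne_zero _).2 hj) ((map_ne_zero _).2 hgy)
    exact mul_left_cancel₀ h4 (by linear_combination h1)
  apply (algebraMap κ κ').injective
  rw [map_zero, map_sum]
  have h5 : ∀ s ∈ S, algebraMap κ κ' (e s • ℓ (x s) (t s)) =
      ∑ l, η l * algebraMap κ κ' (e s • b s l) := by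
    intro s hs
    rw [map_zsmul, key s hs, Finset.smul_sum]
    refine Finset.sum_congr rfl fun l _ => ?_
    rw [map_zsmul, mul_smul_comm]
  rw [Finset.sum_congr rfl h5, Finset.sum_comm]
  refine Finset.sum_eq_zero fun l _ => ?_
  rw [← Finset.mul_sum, ← map_sum]
  have h6 := congrFun hrel l
  rw [Finset.sum_apply] at h6
  have h7 : ∑ s ∈ S, e s • b s l = 0 := h6
  rw [h7, map_zero, mul_zero]

end GX
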