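import Pool.Agent.Lib.MP_f80667_ag.Gx.VE
import Pool.Agent.Lib.MP_f80667_ag.Gx.Al2
import Pool.Agent.Lib.MP_f80667_ag.St.A
import Pool.Agent.Lib.MP_f80667_ag.St.Rl
import Pool.Agent.Lib.MP_f80667_ag.St.Jd

/-! Almost all places satisfy the hypotheses of the local theorem. -/

open ZC BE PE CV IntermediateField IsDedekindDomain NumberField

namespace GX

section loc

variable {F : Type} [Field F] {N d m g h : ℕ} {ι : Type} {f : ι → MvPolynomial (Fin N) F}
  {K Ω : Type} [Field K] [CharZero K] [Field Ω] [Algebra K Ω] [Algebra F K] [Algebra F Ω]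
  [IsScalarTower F K Ω] [IsAlgClosure K Ω] {L : Ld K Ω} {ψ : Fin m → Prj F N d}
  {ω : Om F N g h} {f₀ : ι → MvPolynomial (Fin N) (L.V.comap (algebraMap F Ω))}
  {ψ₀ : Fin m → Prj (L.V.comap (algebraMap F Ω)) N d}
  {ω₀ : Om (L.V.comap (algebraMap F Ω)) N g h}

/-- The reduction of the forms over a subfield with the residues of `F`. Proof: coefficientwise, `rdO_hv`; as in `Dat.rdx` (the homomorphism `V.comap .. → k`). -/
theorem exists_rdo (hω : ω₀.map (L.V.comap (algebraMap F Ω)).subtype = ω)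
    {k : Subfield L.κ} (hk : ∀ x : F, L.nm (algebraMap F Ω x) ≤ 1 →
      ∀ r, L.rs.Hv (algebraMap F Ω x) r → r ∈ k) :
    ∃ ω' : Om k N g h, Rdo L k ω ω' ∧
      ω'.map (algebraMap k L.κ) = ω₀.map (rdO F L.V) := by
  obtain ⟨φ, hφ⟩ : ∃ φ : (L.V.comap (algebraMap F Ω)) →+* k, ∀ x, ((φ x : k) : L.κ) =
      rdO F L.V x :=
    ⟨(rdO F L.V).codRestrict k fun x => hk x x.2 _ (rdO_hv x), fun x => rfl⟩
  have hφ' : (algebraMap k L.κ).comp φ = rdO F L.V := RingHom.ext hφ
  subst hω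
  have key : ∀ (p : MvPolynomial (Fin N) (L.V.comap (algebraMap F Ω))) (e : Fin N →₀ ℕ),
      L.rs.Hv (algebraMap F Ω ((MvPolynomial.map (L.V.comap (algebraMap F Ω)).subtype p).coeff e))
        (((MvPolynomial.map φ p).coeff e : k) : L.κ) := by
    intro p e
    rw [MvPolynomial.coeff_map, MvPolynomial.coeff_map, hφ]
    exact rdO_hv _
  refine ⟨ω₀.map φ, ⟨fun j e => key _ e, fun j l i e => key _ e⟩, ?_⟩
  have h1 : ∀ p : MvPolynomial (Fin N) (L.V.comap (algebraMap F Ω)),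
      MvPolynomial.map (algebraMap k L.κ) (MvPolynomial.map φ p) =
        MvPolynomial.map (rdO F L.V) p := fun p => by
    rw [MvPolynomial.map_map, hφ']
  exact congrArg₂ Om.mk (funext fun j => h1 _)
    (funext fun j => funext fun l => funext fun i => h1 _)

/-- The residues of the coefficients of `f`. -/
private theorem je_f {g : MvPolynomial (Fin N) F}
    {g₀ : MvPolynomial (Fin N) (L.V.comap (algebraMap F Ω))}
    (hm : MvPolynomial.map (L.V.comap (algebraMap F Ω)).subtype g₀ = g) {k : Subfield L.κ}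
    {g' : MvPolynomial (Fin N) k} (hr : GM.Rdp L k g g') :
    MvPolynomial.map (algebraMap k L.κ) g' = MvPolynomial.map (rdO F L.V) g₀ := by
  subst hm
  ext e
  have h1 := hr e
  rw [MvPolynomial.coeff_map] at h1
  rw [MvPolynomial.coeff_map, MvPolynomial.coeff_map]
  exact h1.uniq (rdO_hv (L := L) (g₀.coeff e))

/-- The residues of the coefficients of a projection. -/
private theorem je_p {ψ : Prj F N d} {ψ₀ : Prj (L.V.comap (algebraMap F Ω)) N d}
    (hm : ψ₀.map (L.V.comap (algebraMap F Ω)).subtype = ψ) {k : Subfield L.κ} {ψ' : Prj k N d}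
    (hr : Rdj L k (ψ.map (algebraMap F K)) ψ') :
    ψ'.map (algebraMap k L.κ) = ψ₀.map (rdO F L.V) := by
  subst hm
  have key : ∀ (x : L.V.comap (algebraMap F Ω)) (r : k),
      L.rs.Hv (algebraMap K Ω (algebraMap F K (x : F))) (r : L.κ) →
        algebraMap k L.κ r = rdO F L.V x := by
    intro x r h
    rw [← IsScalarTower.algebraMap_apply] at h
    exact h.uniq (rdO_hv x)
  have h1 : (ψ'.map (algebraMap k L.κ)).u = (ψ₀.map (rdO F L.V)).u := by
    funext r j
    exact key _ _ (hr.u r j)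
  have h2 : (ψ'.map (algebraMap k L.κ)).y = (ψ₀.map (rdO F L.V)).y := by
    funext j
    exact key _ _ (hr.y j)
  have h3 : (ψ'.map (algebraMap k L.κ)).G = (ψ₀.map (rdO F L.V)).G := by
    refine Polynomial.ext fun j => MvPolynomial.ext _ _ fun e => ?_
    have h := hr.G j e
    simp only [Prj.map, Polynomial.coeff_map, MvPolynomial.coeff_map] at h ⊢
    exact key _ _ h
  have h4 : (ψ'.map (algebraMap k L.κ)).D = (ψ₀.map (rdO F L.V)).D := by
    refine MvPolynomial.ext _ _ fun e => ?_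
    have h := hr.D e
    simp only [Prj.map, MvPolynomial.coeff_map] at h ⊢
    exact key _ _ h
  have h5 : (ψ'.map (algebraMap k L.κ)).A = (ψ₀.map (rdO F L.V)).A := by
    funext i
    refine Polynomial.ext fun j => MvPolynomial.ext _ _ fun e => ?_
    have h := hr.A i j e
    simp only [Prj.map, Polynomial.coeff_map, MvPolynomial.coeff_map] at h ⊢
    exact key _ _ h
  exact (Prj.mk.injEq _ _ _ _ _ _ _ _ _ _).mpr ⟨h1, h2, h3, h4, h5⟩

/-- **The hypotheses.** Proof: `Dat.pj`, `Dat.cvr`; `red` for `M`, `R`: the residues of `F` are in `kI L R` (`hR.res`: residues of elements of `Te R`); `Dat.rdx`, `exists_rdo` for `k = kI L R`; `rlf_of` with `κ = kI L R`, `κ' = L.κ` (`GM.kJ_inf`, `kJ_char`, `kJ_root`, `kJ_spl` as in the use of `alg_of` / `Ft.zero` in `Gx/Al2.lean`), the hypothesis `Al`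
over `L.κ`: the equations `f'`, `ψ'`, `ω'` mapped to `L.κ` are the reductions of `f₀`, `ψ₀`, `ω₀` (as in `alg_of`: its private `al2_f`, `al2_p`). -/
theorem gdy_of (hD : Dat L.V f ψ f₀ ψ₀) (hω : ω₀.map (L.V.comap (algebraMap F Ω)).subtype = ω)
    (hn : ∀ i, (ψ i).G.natDegree < L.p) (h2 : 2 < L.p)
    (hA : Al (fun i => MvPolynomial.map (rdO F L.V) (f₀ i)) (fun i => (ψ₀ i).map (rdO F L.V))
      (ω₀.map (rdO F L.V))) :
    Gdy f L (fun i => (ψ i).map (algebraMap F K)) ω := by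
  have hdeg : ∀ i, ((ψ i).map (algebraMap F K)).G.natDegree < L.p := fun i =>
    (Polynomial.natDegree_map_le).trans_lt (hn i)
  refine ⟨fun i => ?_, hD.pj, hD.cvr, hdeg, h2, fun M R hM hR => ?_⟩
  · obtain ⟨e, he⟩ := hD.hom i
    refine ⟨e, ?_⟩
    rw [← hD.mf i]
    exact he.map _
  · have hfd := hM.fd
    have h1J : (1 : ℕ) ∈ GM.Jc L.p L.pp := fun h => L.pp.one_lt.ne' (Nat.dvd_one.1 h)
    have hJ0 : (0 : ℕ) ∉ GM.Jc L.p L.pp := fun h => h (dvd_zero _)
    have hk : ∀ x : F, L.nm (algebraMap F Ω x) ≤ 1 →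
        ∀ r, L.rs.Hv (algebraMap F Ω x) r → r ∈ GM.kI L R := by
      intro x hx r hr
      have hxM : algebraMap F Ω x ∈ M := by
        rw [IsScalarTower.algebraMap_apply F K Ω]
        exact M.algebraMap_mem _
      obtain ⟨t, ht⟩ := GM.kJ_res (J := GM.Jc L.p L.pp) hR (s := 1) h1J one_ne_zero
        (Ld.ur_le hxM) hx
      rw [hr.uniq ht]
      exact t.2
    obtain ⟨f', ψ', hx⟩ := hD.rdx hk
    obtain ⟨ω', ho, hm⟩ := exists_rdo hω hk
    refine ⟨f', ψ', ω', hx.hom, hx, ho, ?_⟩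
    have hc : CharP (GM.kI L R) L.p := GM.kJ_char L R _
    have hinf : Infinite (GM.kI L R) := by
      refine GM.kJ_inf hR.ne fun b => ⟨L.p * b + 1, ?_, ?_⟩
      · intro h
        have h1 : L.p ∣ 1 := (Nat.dvd_add_right (dvd_mul_right L.p b)).1 h
        exact L.pp.one_lt.ne' (Nat.dvd_one.1 h1)
      · exact le_trans (Nat.le_mul_of_pos_left b L.pp.pos) (Nat.le_succ _)
    have e1 : (fun i => MvPolynomial.map (algebraMap (GM.kI L R) L.κ) (f' i)) =
        fun i => MvPolynomial.map (rdO F L.V) (f₀ i) := by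
      funext i
      exact je_f (hD.mf i) (hx.rf i)
    have e2 : (fun i => (ψ' i).map (algebraMap (GM.kI L R) L.κ)) =
        fun i => (ψ₀ i).map (rdO F L.V) := by
      funext i
      exact je_p (hD.mp i) (hx.rj i)
    refine rlf_of (κ' := L.κ) L.pp (GM.kJ_root hR.ne hJ0) (fun i q hq hd =>
      GM.kJ_spl hR.ne hJ0 (fun e he hle h => ?_) q hq hd) hx.hom hx.ok hx.cov ?_
    · have h1 := Nat.le_of_dvd (Nat.pos_of_ne_zero he) h
      have h3 := hdeg i
      rw [← hx.deg i] at h3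
      exact absurd (h1.trans hle) (not_le.2 h3)
    · rw [e1, e2, hm]
      exact hA

end loc

section glob

variable {F : Type} [Field F] [NumberField F] {N d m g h : ℕ} {ι : Type} [Finite ι]
  {f : ι → MvPolynomial (Fin N) F} {ψ : Fin m → Prj F N d} {ω : Om F N g h}

/-- **Almost all places.** Proof: as `almost` in `Gx/VE.lean` with `exists_dat`, `exists_om`, `exists_alv`, `fin_alg`. `hB`: a finite set of numbers which have to be integral (for other purposes). -/
theorem almost_al (hf : ∀ i, ∃ e, (f i).IsHomogeneous e) (ho : ∀ i, (ψ i).Ok f)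
    (hc : Cov f ψ)
    (hS : Spf (fun i => MvPolynomial.map (algebraMap F (AlgebraicClosure F)) (f i))
      (ω.map (algebraMap F (AlgebraicClosure F)))) (T : Finset F) :
    {v : HeightOneSpectrum (𝓞 F) | ¬ ∀ V : ValuationSubring (AlgebraicClosure (FK F v)),
      V.comap (algebraMap (FK F v) _) = CV.Iv v →
        (∀ z ∈ T, algebraMap F (AlgebraicClosure (FK F v)) z ∈ V) ∧
        (∃ f₀ ψ₀, ∃ ω₀ : Om (V.comap (algebraMap F (AlgebraicClosure (FK F v)))) N g h,
          Dat V f ψ f₀ ψ₀ ∧ ω₀.map (V.comap (algebraMap F _)).subtype = ω ∧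
          Al (fun i => MvPolynomial.map (rdO F V) (f₀ i)) (fun i => (ψ₀ i).map (rdO F V))
            (ω₀.map (rdO F V))) ∧
          ∃ p : ℕ, 2 < p ∧ (∀ i, (ψ i).G.natDegree < p) ∧ GM.Urp V (FK F v) p}.Finite := by
  classical
  obtain ⟨Z₁, hZ₁⟩ := exists_dat hf ho hc
  obtain ⟨Z₂, hZ₂⟩ := exists_alv hf ho hc hS
  obtain ⟨Z₃, hZ₃⟩ := exists_om ω
  have hA : (⋃ z ∈ Z₁ ∪ Z₃ ∪ T, {v : HeightOneSpectrum (𝓞 F) | ¬ v.valuation F z ≤ 1}).Finite :=
    (Z₁ ∪ Z₃ ∪ T).finite_toSet.biUnion fun z _ => gln_le z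
  have hB := Z₂.finite_toSet.biUnion fun z _ => fin_alg z
  obtain ⟨n, hn⟩ : ∃ n : ℕ, n = 2 + ∑ i, (ψ i).G.natDegree := ⟨_, rfl⟩
  have hn0 : ((n.factorial : ℕ) : F) ≠ 0 := Nat.cast_ne_zero.2 n.factorial_ne_zero
  refine (((hA.union hB).union (gln_unr (F := F))).union (gln_one hn0)).subset fun v hv => ?_
  by_contra hcon
  simp only [Set.mem_union, not_or] at hcon
  obtain ⟨⟨⟨h3, h4⟩, h5⟩, h6⟩ := hcon
  have h5 : ∃ p : ℕ, p.Prime ∧ v.valuation F (p : F) = WithZero.exp (-1 : ℤ) := not_not.1 h5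
  have h6 : v.valuation F ((n.factorial : ℕ) : F) = 1 := not_not.1 h6
  obtain ⟨p, hp, hvp⟩ := h5
  have hnp : n < p := by
    by_contra hle
    obtain ⟨a, ha⟩ := (hp.dvd_factorial (n := n)).2 (not_lt.1 hle)
    have h7 : v.valuation F ((a : ℕ) : F) ≤ 1 := by
      have e : algebraMap (𝓞 F) F ((a : ℕ) : 𝓞 F) = ((a : ℕ) : F) := map_natCast _ _
      rw [← e]
      exact v.valuation_le_one _
    rw [ha, Nat.cast_mul, map_mul, hvp] at h6
    have h9 : (WithZero.exp (-1 : ℤ) : WithZero (Multiplicative ℤ)) < 1 := by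
      rw [← WithZero.exp_zero, WithZero.exp_lt_exp]
      omega
    exact absurd h6 (mul_lt_one_of_lt_of_le h9 h7).ne
  refine hv fun V hV => ?_
  have hz₁ : ∀ z ∈ Z₁ ∪ Z₃ ∪ T, algebraMap F (AlgebraicClosure (FK F v)) z ∈ V := by
    intro z hz
    refine GM.mem_v hV ?_
    by_contra hz'
    exact h3 (Set.mem_biUnion (x := z) hz hz')
  refine ⟨fun z hz => hz₁ z (Finset.mem_union_right _ hz), ?_, p, by omega, fun i => ?_,
    GM.urp_of hV hp hvp⟩
  · obtain ⟨f₀, ψ₀, hD⟩ := hZ₁ _ V fun z hz =>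
      hz₁ z (Finset.mem_union_left _ (Finset.mem_union_left _ hz))
    obtain ⟨ω₀, hω⟩ := hZ₃ (V.comap (algebraMap F (AlgebraicClosure (FK F v)))) fun z hz =>
      hz₁ z (Finset.mem_union_left _ (Finset.mem_union_right _ hz))
    have σ : AlgebraicClosure F →ₐ[F] AlgebraicClosure (FK F v) := IsAlgClosed.lift
    refine ⟨f₀, ψ₀, ω₀, hD, hω, hZ₂ _ V σ (fun z hz => ?_) f₀ ψ₀ ω₀ hD hω⟩
    by_contra hz'
    exact h4 (Set.mem_biUnion (x := z) hz fun hall => hz' (hall V hV σ))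
  · refine lt_of_le_of_lt ?_ hnp
    rw [hn]
    have := Finset.single_le_sum (f := fun i => (ψ i).G.natDegree) (fun _ _ => Nat.zero_le _)
      (Finset.mem_univ i)
    omega

end glob

end GX
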