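import Pool.Agent.Lib.MP_f80667_ag.Gx.Oa

/-! Relations up to the Frobenius automorphism. -/

open MvPolynomial

namespace GX

variable {κ : Type} [Field κ] {N d m g h : ℕ} {ι : Type} {f : ι → MvPolynomial (Fin N) κ}
  {ψ : Fin m → Prj κ N d} {ω : Om κ N g h}

/-- **The trace trick.** `T (y ^ q, u ^ q) = T (y, u)`, the `r`-th power of the Frobenius map fixes `θ`, and `θ` has the trace `1`: it is enough that the trace of `∑ e s • b s` is `0`.
Proof: `T (x, t) = ∑_{i < r} T (x, θ ^ (q ^ i) • t)` (additivity, `hθ`) `= ∑_{i < r} T (x ^ (q ^ (r - i)), θ • t ^ (q ^ (r - i)))` (`hTq` iterated `r - i` times, `hθr`); `hR` for `S ×ˢ range r`, the integers `e s`, the points `x s ^ (q ^ (r - i))`, the tangent vectors `θ • t s ^ (q ^ (r - i))` and the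
values `θ • b s ^ (q ^ (r - i))` (`hTg`, `hAt` iterated, `At` for a multiple of the tangent vector): the sum of the values is `θ * ∑_{i < r} (∑ e s • b s) ^ (q ^ (r - i))`, `θ` times the `q`-th power of `∑_{i < r} (∑ e s • b s) ^ (q ^ i)` (`Finset.sum_range_reflect`; `q` is a power of `p`: `(x + y) ^ q = x ^ q + y ^ q`, `(e • x) ^ q = e • x ^ q` for integers `e`: the ring homomorphism `iterateFrobenius`). -/
theorem Rlf.tr (hR : Rlf f ψ ω) {p a : ℕ} (hp : p.Prime) [CharP κ p] {q : ℕ}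
    (hq : q = p ^ a) {B : Type} [AddCommGroup B] {T : (Fin N → κ) → (Fin N → κ) → B}
    (hT : Ft f ψ T)
    (hTg : ∀ x t, Tg f x t → Tg f (fun i => x i ^ q) fun i => t i ^ q)
    (hTs : ∀ x t (c : κ), Tg f x t → Tg f x (c • t))
    (hTq : ∀ x t, Tg f x t → T (fun i => x i ^ q) (fun i => t i ^ q) = T x t)
    (hAt : ∀ x t b, ω.At x t b → ω.At (fun i => x i ^ q) (fun i => t i ^ q) fun l => b l ^ q)
    {r : ℕ} (hr : r ≠ 0) {θ : κ} (hθr : θ ^ q ^ r = θ)
    (hθ : ∑ i ∈ Finset.range r, θ ^ q ^ i = 1) {σ : Type} (S : Finset σ) (e : σ → ℤ)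
    (x t : σ → Fin N → κ) (b : σ → Fin g → κ)
    (hS : ∀ s ∈ S, Tg f (x s) (t s) ∧ ω.At (x s) (t s) (b s))
    (h0 : ∀ l, ∑ i ∈ Finset.range r, ((∑ s ∈ S, e s • b s) l) ^ q ^ i = 0) :
    ∑ s ∈ S, e s • T (x s) (t s) = 0 := by
  have hF : Fact p.Prime := ⟨hp⟩
  have hE : ExpChar κ p := ExpChar.prime hp
  have hΦ : ∀ n : ℕ, ∃ φ : κ →+* κ, ∀ y, φ y = y ^ q ^ n := fun n =>
    ⟨iterateFrobenius κ p (a * n), fun y => by rw [iterateFrobenius_def, hq, pow_mul]⟩
  have hq0 : q ≠ 0 := by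
    rw [hq]
    exact pow_ne_zero _ hp.ne_zero
  have h2 : ∀ (n : ℕ) {ρ : Type} (y : ρ → κ), (fun i => (y i ^ q ^ n) ^ q) =
      fun i => y i ^ q ^ (n + 1) := fun n _ y => funext fun i => by rw [← pow_mul, pow_succ]
  have h0' : ∀ {ρ : Type} (y : ρ → κ), (fun i => y i ^ q ^ 0) = y := fun y =>
    funext fun i => by rw [pow_zero, pow_one]
  have hTgn : ∀ (n : ℕ) x t, Tg f x t → Tg f (fun i => x i ^ q ^ n) fun i => t i ^ q ^ n := by
    intro n
    induction n with
    | zero =>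
      intro x t h
      rw [h0', h0']
      exact h
    | succ n ih =>
      intro x t h
      have h1 : Tg f (fun i => (x i ^ q ^ n) ^ q) fun i => (t i ^ q ^ n) ^ q :=
        hTg _ _ (ih x t h)
      rwa [h2, h2] at h1
  have hTqn : ∀ (n : ℕ) x t, Tg f x t →
      T (fun i => x i ^ q ^ n) (fun i => t i ^ q ^ n) = T x t := by
    intro n
    induction n with
    | zero =>
      intro x t h
      rw [h0', h0']
    | succ n ih =>
      intro x t h
      have h1 : T (fun i => (x i ^ q ^ n) ^ q) (fun i => (t i ^ q ^ n) ^ q) =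
        T (fun i => x i ^ q ^ n) (fun i => t i ^ q ^ n) := hTq _ _ (hTgn n x t h)
      rw [h2, h2] at h1
      exact h1.trans (ih x t h)
  have hAtn : ∀ (n : ℕ) x t b, ω.At x t b →
      ω.At (fun i => x i ^ q ^ n) (fun i => t i ^ q ^ n) fun l => b l ^ q ^ n := by
    intro n
    induction n with
    | zero =>
      intro x t b h
      rw [h0', h0', h0']
      exact h
    | succ n ih =>
      intro x t b h
      have h1 : ω.At (fun i => (x i ^ q ^ n) ^ q) (fun i => (t i ^ q ^ n) ^ q)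
        fun l => (b l ^ q ^ n) ^ q := hAt _ _ _ (ih x t b h)
      rwa [h2, h2, h2] at h1
  have hAts : ∀ x t b (c : κ), ω.At x t b → ω.At x (c • t) (c • b) := by
    rintro x t b c ⟨j, hj, h⟩
    refine ⟨j, hj, fun l => ?_⟩
    have h3 : ω.v j l x (c • t) = c * ω.v j l x t := by
      unfold Om.v
      rw [Finset.mul_sum]
      refine Finset.sum_congr rfl fun k _ => ?_
      rw [Pi.smul_apply, smul_eq_mul]
      ring
    rw [h3, ← h l, Pi.smul_apply, smul_eq_mul]
    ring
  have hsum : ∀ (n : ℕ) (c : ℕ → κ) x t, Tg f x t →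
      T x ((∑ i ∈ Finset.range n, c i) • t) = ∑ i ∈ Finset.range n, T x (c i • t) := by
    intro n c x t h
    induction n with
    | zero =>
      rw [Finset.sum_range_zero, Finset.sum_range_zero]
      have h3 := hT.add x ((0 : κ) • t) ((0 : κ) • t) (hTs x t 0 h) (hTs x t 0 h)
      rw [← add_smul, add_zero] at h3
      exact left_eq_add.1 h3
    | succ n ih =>
      rw [Finset.sum_range_succ, Finset.sum_range_succ, add_smul,
        hT.add _ _ _ (hTs _ _ _ h) (hTs _ _ _ h), ih]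
  have key : ∀ s ∈ S, T (x s) (t s) = ∑ i ∈ Finset.range r,
      T (fun k => x s k ^ q ^ (r - i)) (θ • fun k => t s k ^ q ^ (r - i)) := by
    intro s hs
    have h3 := hsum r (fun i => θ ^ q ^ i) (x s) (t s) (hS s hs).1
    rw [hθ, one_smul] at h3
    rw [h3]
    refine Finset.sum_congr rfl fun i hi => ?_
    have hir : i < r := Finset.mem_range.1 hi
    rw [← hTqn (r - i) _ _ (hTs _ _ (θ ^ q ^ i) (hS s hs).1)]
    congr 1
    funext k
    rw [Pi.smul_apply, smul_eq_mul, mul_pow, ← pow_mul, ← pow_add,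
      Nat.add_sub_cancel' hir.le, hθr, Pi.smul_apply, smul_eq_mul]
  have h3 := hR B T hT (σ × ℕ) (S ×ˢ Finset.range r) (fun s => e s.1)
    (fun s k => x s.1 k ^ q ^ (r - s.2)) (fun s => θ • fun k => t s.1 k ^ q ^ (r - s.2))
    (fun s => θ • fun l => b s.1 l ^ q ^ (r - s.2)) (by
      rintro ⟨s, i⟩ hs
      have hs' := (Finset.mem_product.1 hs).1
      exact ⟨hTs _ _ θ (hTgn (r - i) _ _ (hS s hs').1),
        hAts _ _ _ θ (hAtn (r - i) _ _ _ (hS s hs').2)⟩) (by
      funext l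
      rw [Finset.sum_apply, Finset.sum_product, Finset.sum_comm]
      have h4 : ∀ i ∈ Finset.range r, ∑ s ∈ S,
          (e s • (θ • fun l => b s l ^ q ^ (r - i) : Fin g → κ)) l =
          θ * ((∑ s ∈ S, e s • b s) l) ^ q ^ (r - i) := by
        intro i _
        obtain ⟨φ, hφ⟩ := hΦ (r - i)
        rw [← hφ, Finset.sum_apply, map_sum, Finset.mul_sum]
        refine Finset.sum_congr rfl fun s _ => ?_
        rw [Pi.smul_apply, Pi.smul_apply, Pi.smul_apply, map_zsmul, hφ, smul_eq_mul,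
          mul_smul_comm]
      rw [Pi.zero_apply]
      refine (Finset.sum_congr rfl h4).trans ?_
      rw [← Finset.mul_sum]
      have h5 : ∑ i ∈ Finset.range r, ((∑ s ∈ S, e s • b s) l) ^ q ^ (r - i) =
          ∑ i ∈ Finset.range r, ((∑ s ∈ S, e s • b s) l) ^ q ^ (r - 1 - i + 1) := by
        refine Finset.sum_congr rfl fun i hi => ?_
        have hir : i < r := Finset.mem_range.1 hi
        congr 2
        omega
      rw [h5, Finset.sum_range_reflect
        (fun i => ((∑ s ∈ S, e s • b s) l) ^ q ^ (i + 1)) r]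
      obtain ⟨φ, hφ⟩ := hΦ 1
      have h6 : ∑ i ∈ Finset.range r, ((∑ s ∈ S, e s • b s) l) ^ q ^ (i + 1) =
          φ (∑ i ∈ Finset.range r, ((∑ s ∈ S, e s • b s) l) ^ q ^ i) := by
        rw [map_sum]
        refine Finset.sum_congr rfl fun i _ => ?_
        rw [hφ, pow_one, ← pow_mul, pow_succ]
      rw [h6, h0 l, map_zero, mul_zero])
  rw [Finset.sum_product] at h3
  rw [← h3]
  refine Finset.sum_congr rfl fun s hs => ?_
  rw [key s hs, Finset.smul_sum]

end GX
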