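import Pool.Agent.Lib.MP_f80667_ag.St.Sv
import Pool.Agent.Lib.MP_f80667_ag.St.Fr
import Pool.Agent.Lib.MP_f80667_ag.St.Ra
import Pool.Agent.Lib.MP_f80667_ag.Gx.TsFl

import Pool.Agent.Lib.MP_f80667_ag.Cv.Eis

/-! `lam` vanishes on the displacements with sum `0`. -/

open ZC BE PE CV IntermediateField

namespace GX

variable {F : Type} [Field F] {N d m g h : ℕ} {ι : Type} {f : ι → MvPolynomial (Fin N) F}
  {K Ω : Type} [Field K] [CharZero K] [Field Ω] [Algebra K Ω] [Algebra F K] [Algebra F Ω]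
  [IsScalarTower F K Ω] [IsAlgClosure K Ω] {L : Ld K Ω} {B : Type} [AddCommGroup B]
  {lam : ((Xf f).pt Ω →₀ ℤ) →+ B} {M : IntermediateField K Ω} {R : ℕ} {ψ : Fin m → Prj K N d}
  {ω : Om F N g h} {f' : ι → MvPolynomial (Fin N) (GM.kI L R)}
  {ψ' : Fin m → Prj (GM.kI L R) N d} {ω' : Om (GM.kI L R) N g h} {A : Type} [AddCommGroup A]
  {S : ((Xf f).pt Ω →₀ ℤ) →+ A} {Lv : A → (Fin g → L.κ) → Prop}

omit [CharZero K] [IsAlgClosure K Ω] in
private theorem lz_sum {k : Subfield L.κ} {α : Type} (S : Finset α) {f : α → Ω} {r : α → k}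
    (h : ∀ i ∈ S, L.rs.Hv (f i) (r i : L.κ)) :
    L.rs.Hv (∑ i ∈ S, f i) ((∑ i ∈ S, r i : k) : L.κ) := by
  classical
  induction S using Finset.induction_on with
  | empty =>
    rw [Finset.sum_empty, Finset.sum_empty]
    exact Rs.Hv.zero
  | insert a S ha ih =>
    rw [Finset.sum_insert ha, Finset.sum_insert ha]
    exact (h a (Finset.mem_insert_self a S)).add
      (ih fun i hi => h i (Finset.mem_insert_of_mem hi))

/-- The values of the forms over `k`. Proof: `GM.Rdp.aeval`, sums, products and quotients of residues. -/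
theorem vl_at {k : Subfield L.κ} {ω' : Om k N g h} (ho : Rdo L k ω ω') {x x' : Fin N → Ω}
    {y u : Fin N → k} (hy : GM.Rdv L k x y)
    (hu : ∀ i, L.rs.Hv ((x' i - x i) / (L.p : Ω)) (u i : L.κ)) {b : Fin g → L.κ}
    (hb : ω.Vl L x x' b) : ∃ b' : Fin g → k, (∀ l, (b' l : L.κ) = b l) ∧ ω'.At y u b' := by
  obtain ⟨j, hj, hl⟩ := hb
  have hc := (ho.c j).aeval hy
  have hc0 : MvPolynomial.eval y (ω'.c j) ≠ 0 := by
    intro h0
    rw [h0] at hc
    exact (L.hv_ne hc).2 hj rfl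
  have hc1 : ((MvPolynomial.eval y (ω'.c j) : k) : L.κ) ≠ 0 := fun h2 => hc0 (Subtype.ext h2)
  refine ⟨fun l => ω'.v j l y u / MvPolynomial.eval y (ω'.c j), fun l => ?_, j, hc0,
    fun l => mul_div_cancel₀ _ hc0⟩
  have h1 : L.rs.Hv (∑ k, MvPolynomial.aeval x (ω.q j l k) * ((x' k - x k) / (L.p : Ω)))
      ((ω'.v j l y u : k) : L.κ) :=
    lz_sum Finset.univ fun i _ => ((ho.q j l i).aeval hy).mul (hu i)
  have h2 := h1.div hc hc1
  have h3 : (∑ k, MvPolynomial.aeval x (ω.q j l k) * ((x' k - x k) / (L.p : Ω))) /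
      MvPolynomial.aeval x (ω.c j) = (∑ k, MvPolynomial.aeval x (ω.q j l k) * (x' k - x k)) /
      ((L.p : Ω) * MvPolynomial.aeval x (ω.c j)) := by
    rw [← div_div]
    refine congrArg (fun z => z / MvPolynomial.aeval x (ω.c j)) ?_
    rw [Finset.sum_div]
    exact Finset.sum_congr rfl fun i _ => (mul_div_assoc _ _ _).symm
  rw [h3] at h2
  have h4 := h2.uniq (hl l)
  rw [← h4]
  change k.subtype (_ / _) = _
  rw [map_div₀]
  rfl

/-- The extension of degree `1`. -/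
private theorem lz_one {M : IntermediateField K Ω} {R : ℕ} (hR : L.Rf M R) :
    GM.Mu L M R 1 = M := by
  have h1 : L.Ur M (R * 1) ≤ M := by
    rw [mul_one]
    exact sup_le le_rfl (le_trans le_sup_right hR.le)
  exact le_antisymm h1 Ld.ur_le

/-- One generator. Proof: as in `lam_zero` (`Gx/TsFl.lean`): `exists_cox`; `y`, `u` the residues; `Tg f' y u`; `Tv` with `s = 1`, `Mu L M R 1 = M`; `tf_eq`; `hS.one`, `vl_at`. -/
theorem exists_yu [L.Unr] (hf : Hm f) (h2 : 2 < L.p) (hl : Lm f L lam) (hM : Um L M)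
    (hR : L.Rf M R) (hx : Rdx f L (GM.kI L R) ψ f' ψ') (ho : Rdo L (GM.kI L R) ω ω')
    (hS : Sml f L ω S Lv) {P P' : (Xf f).pt Ω} (hP : Fp (Xf f) M P) (hP' : Fp (Xf f) M P')
    (hn : Nrh f L (L.nm (L.p : Ω)) P' P) :
    ∃ (y u : Fin N → GM.kI L R) (b : Fin g → GM.kI L R), Tg f' y u ∧ ω'.At y u b ∧
      Lv (S (Finsupp.single P' 1 - Finsupp.single P 1)) (fun l => (b l : L.κ)) ∧
        lam (rtr (Xf f) ⊥ M (Finsupp.single P' 1 - Finsupp.single P 1)) =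
          Tf L lam M R f' y u := by
  have hcz : CharZero Ω := charZero_of_injective_algebraMap (algebraMap K Ω).injective
  have hpp := L.p_pos
  have hp1 : L.nm (L.p : Ω) < 1 := L.lt
  have hfd := hM.fd
  have hMu : GM.Mu L M R 1 = M := lz_one hR
  obtain ⟨x, x', i, cx, cx', hxi, hxi', hi, hd⟩ := exists_cox hf hP hP' hp1 hn
  have h1J : 1 ∈ GM.Jc L.p L.pp := fun h => L.pp.one_lt.ne' (Nat.dvd_one.1 h)
  have hres : ∀ w ∈ M, L.nm w ≤ 1 → ∃ t : GM.kI L R, L.rs.Hv w (t : L.κ) := by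
    intro w hw hw1
    exact GM.kJ_res hR h1J one_ne_zero (Ld.ur_le hw) hw1
  have hv : ∀ j, ((x' j - x j) / (L.p : Ω)) ∈ M ∧ L.nm ((x' j - x j) / (L.p : Ω)) ≤ 1 := by
    intro j
    refine ⟨div_mem (sub_mem (hxi' j).1 (hxi j).1) (_root_.natCast_mem M L.p), ?_⟩
    rw [div_eq_mul_inv, L.mul, L.inv, ← div_eq_mul_inv, div_le_one hpp]
    exact hd j
  have hy0 : ∀ j, ∃ t : GM.kI L R, L.rs.Hv (x j) (t : L.κ) := fun j =>
    hres _ (hxi j).1 (hxi j).2
  have hu0 : ∀ j, ∃ t : GM.kI L R, L.rs.Hv ((x' j - x j) / (L.p : Ω)) (t : L.κ) := fun j =>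
    hres _ (hv j).1 (hv j).2
  choose y hy using hy0
  choose u hu using hu0
  have hyv : GM.Rdv L (GM.kI L R) x y := hy
  have huv : GM.Rdv L (GM.kI L R) (fun j => (x' j - x j) / (L.p : Ω)) u := hu
  have hZ : Zp f' y := by
    refine ⟨fun h0 => ?_, fun j => ?_⟩
    · have h1 := hy i
      rw [h0, hi] at h1
      have h2 : (((0 : Fin N → GM.kI L R) i : GM.kI L R) : L.κ) = 1 := h1.uniq Rs.Hv.one
      exact zero_ne_one h2
    · have h1 := (hx.rf j).aeval hyv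
      rw [co_zero cx] at h1
      exact Subtype.ext (h1.uniq Rs.Hv.zero)
  obtain ⟨l, hl'⟩ := hx.cv hZ
  have hlt : ∀ j, u j = (ψ' l).lt ((ψ' l).uv y) ((ψ' l).yv y) ((ψ' l).uv u) j := by
    intro j
    have hξ : ∀ s, L.rs.Hv (((ψ l).uv x' s - (ψ l).uv x s) / (L.p : Ω))
        (((ψ' l).uv u s : GM.kI L R) : L.κ) := by
      intro s
      have h1 := (hx.rj l).uv huv s
      have h3 : ((ψ l).uv x' s - (ψ l).uv x s) / (L.p : Ω) =
          (ψ l).uv (fun j => (x' j - x j) / (L.p : Ω)) s := by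
        unfold Prj.uv lv
        rw [← Finset.sum_sub_distrib, Finset.sum_div]
        refine Finset.sum_congr rfl fun j _ => ?_
        rw [← mul_sub, mul_div_assoc]
      rw [h3]
      exact h1
    have h1 := lt_res (hx.pj l) (hx.rj l) (hx.ok l) hZ hl' (fun j => (hxi' j).2)
      (fun j => co_zero cx j) (fun j => co_zero cx' j) hyv (fun j => (hd j).trans_lt hp1) hpp hp1
      hξ j
    exact Subtype.ext ((hu j).uniq h1)
  have hTg : Tg f' y u := by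
    obtain ⟨h1, h3⟩ := (hx.ok l).pt_eq hZ hl'
    have h4 := ((hx.ok l).lt_tg hx.hom h1 hl' ((ψ' l).uv u)).1
    rw [h3, ← show u = _ from funext hlt] at h4
    exact h4
  have hTv : Tv L lam M R y u (vl L lam M R 1 P P') := by
    refine ⟨1, h1J, x, x', P, P', ?_, ?_, cx, cx', hyv, hu, rfl⟩
    · rw [hMu]; exact hxi
    · rw [hMu]; exact hxi'
  have h1 := tf_eq h2 hl hM hR hx hTg hTv
  unfold vl at h1
  rw [hMu] at h1
  have h3 : (((1 : ℕ) : ZMod L.p)⁻¹).val = 1 := by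
    have hF : Fact L.p.Prime := ⟨L.pp⟩
    rw [Nat.cast_one, inv_one]
    have : Fact (1 < L.p) := ⟨L.pp.one_lt⟩
    exact ZMod.val_one _
  rw [h3, one_smul] at h1
  obtain ⟨b, hb, hb'⟩ := hS.one P P' x x' cx cx' (fun j => (hxi j).2)
    ⟨i, by rw [hi]; exact L.one⟩ hd
  obtain ⟨b', hbb, hat⟩ := vl_at ho hyv hu hb
  have h5 : (fun l => (b' l : L.κ)) = b := funext hbb
  exact ⟨y, u, b', hTg, hat, h5 ▸ hb', h1.symm⟩

/-- An element of `Wd` is a finite sum. Proof: `AddSubgroup.closure_induction`, or `Submodule.mem_span_set` over `ℤ`. -/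
theorem wd_sum {w : (Xf f).pt Ω →₀ ℤ} (hw : w ∈ Wd f L M) :
    ∃ (n : ℕ) (e : Fin n → ℤ) (P P' : Fin n → (Xf f).pt Ω),
      (∀ s, Fp (Xf f) M (P s) ∧ Fp (Xf f) M (P' s) ∧ Nrh f L (L.nm (L.p : Ω)) (P' s) (P s)) ∧
        w = ∑ s, e s • (Finsupp.single (P' s) 1 - Finsupp.single (P s) 1) := by
  unfold Wd at hw
  rw [← Submodule.span_int_eq_addSubgroupClosure, Submodule.mem_toAddSubgroup,
    Submodule.mem_span_set'] at hw
  obtain ⟨n, e, v, rfl⟩ := hw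
  have h1 : ∀ s, ∃ PP : (Xf f).pt Ω × (Xf f).pt Ω, Fp (Xf f) M PP.1 ∧ Fp (Xf f) M PP.2 ∧
      Nrh f L (L.nm (L.p : Ω)) PP.2 PP.1 ∧
      (v s : (Xf f).pt Ω →₀ ℤ) = Finsupp.single PP.2 1 - Finsupp.single PP.1 1 := by
    intro s
    obtain ⟨P, P', h1, h2, h3, h4⟩ := (v s).2
    exact ⟨(P, P'), h1, h2, h3, h4⟩
  choose PP h2 h3 h4 h5 using h1
  refine ⟨n, e, fun s => (PP s).1, fun s => (PP s).2, fun s => ⟨h2 s, h3 s, h4 s⟩, ?_⟩
  exact Finset.sum_congr rfl fun s _ => congrArg (fun z => e s • z) (h5 s)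

omit [CharZero K] [IsAlgClosure K Ω] in
private theorem lz_pow {k : Subfield L.κ} (x : k) (n : ℕ) : ((x ^ n : k) : L.κ) = (x : L.κ) ^ n :=
  map_pow k.subtype x n

omit [CharZero K] [IsAlgClosure K Ω] in
private theorem lz_sm {k : Subfield L.κ} {σ : Type} (s : Finset σ) (x : σ → k) :
    ((∑ i ∈ s, x i : k) : L.κ) = ∑ i ∈ s, (x i : L.κ) :=
  map_sum k.subtype x s

/-- **The homomorphism vanishes.** Proof: `exists_frob` for `⊥`: `φ`, `q = p ^ a` (`Ld.frob_q`); `exists_wd`: `N₀`; `R = a * N₀`, `r = N₀`, `M = Ur ⊥ R`: `L.Rf M R` (`ur_res` for `⊥`, `ur_bot_ur`; `rf_ur`), `Um L M`; `w ∈ Wd M` with `z - rtr ⊥ M w` in `Dl 2 ⊔ ratEq`: `lam z = lam (rtr ⊥ M w)` and `Lv (S (rtr ⊥ M w)) 0`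
(`dl_two`, `hS.rat`, `hS.sub`); `wd_sum`, `exists_yu` for every term; `Lv (S w) (∑ e s • b s)`; `Sml.rtr`, `hS.uniq`: `∑ (∑ e s • b s) ^ (q ^ i) = 0`. `θ`: the residue of `c ∈ M` with trace `1` (`Ld.ur_tr`; in `kI L R`: `GM.kJ_res` as in `lam_zero`): `∑ θ ^ (q ^ i) = 1` (`frb_hv`), `θ ^ (q ^ r) = θ`
(`φ ^ r` fixes `M`: `ur_cyc`). `Rlf.tr` with `tf_ft`, `frb_tg`, `tf_frb`, `frb_at`, `tg_smul`. -/
theorem lam_sum [L.Unr] (hG : Gdy f L ψ ω) (hS : Sml f L ω S Lv) (hl : Lm f L lam)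
    {z : (Xf f).pt Ω →₀ ℤ} (hz : z ∈ Dl f L 1 (⊥ : IntermediateField K Ω))
    (h0 : Lv (S z) 0) : lam z = 0 := by
  classical
  have hfb : FiniteDimensional K (⊥ : IntermediateField K Ω) := inferInstance
  obtain ⟨φ, q, hφ⟩ := exists_frob L.toLf (⊥ : IntermediateField K Ω)
  obtain ⟨a, ha, hq, -⟩ := Ld.frob_q hφ
  subst hq
  obtain ⟨r, hr, hwd⟩ := exists_wd hG.hm hG.pj hG.cv hz
  have har : a * r ≠ 0 := mul_ne_zero ha hr
  obtain ⟨w, hw, hzw⟩ := hwd (a * r) har (dvd_mul_left _ _)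
  have hM : Um L (L.Ur (⊥ : IntermediateField K Ω) (a * r)) := ⟨a * r, har, le_rfl⟩
  have hR : L.Rf (L.Ur (⊥ : IntermediateField K Ω) (a * r)) (a * r) :=
    ⟨har, le_rfl, Ld.ur_res hφ ha hr⟩
  have hfd := hM.fd
  obtain ⟨z₁, hz₁, z₂, hz₂, h12⟩ := AddSubgroup.mem_sup.1 hzw
  obtain ⟨W, hW⟩ : ∃ W, W = rtr (Xf f) ⊥ (L.Ur ⊥ (a * r)) w := ⟨_, rfl⟩
  rw [← hW] at h12
  have hzW : z = z₁ + z₂ + W := by rw [h12, sub_add_cancel]
  have hlam : lam z = lam W := by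
    rw [hzW, map_add, map_add, hl.two z₁ hz₁, hl.rat z₂ hz₂, add_zero, zero_add]
  have hSW : Lv (S W) 0 := by
    have h1 := hS.sub _ _ _ _ h0 (hS.dl_two hz₁)
    have h2 : S z - S z₁ = S W := by
      rw [hzW, map_add, map_add, hS.rat z₂ hz₂, add_zero, add_sub_cancel_left]
    rwa [h2, sub_zero] at h1
  obtain ⟨f', ψ', ω', hf', hx, ho, hRl⟩ := hG.red (L.Ur ⊥ (a * r)) (a * r) hM hR
  obtain ⟨n, e, P, P', hP, hws⟩ := wd_sum hw
  have h1 : ∀ s, ∃ (y u : Fin N → GM.kI L (a * r)) (b : Fin g → GM.kI L (a * r)), Tg f' y u ∧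
      ω'.At y u b ∧ Lv (S (Finsupp.single (P' s) 1 - Finsupp.single (P s) 1))
        (fun l => (b l : L.κ)) ∧ lam (rtr (Xf f) ⊥ (L.Ur ⊥ (a * r))
          (Finsupp.single (P' s) 1 - Finsupp.single (P s) 1)) =
            Tf L lam (L.Ur ⊥ (a * r)) (a * r) f' y u := fun s =>
    exists_yu hG.hm hG.h2 hl hM hR hx ho hS (hP s).1 (hP s).2.1 (hP s).2.2
  choose y u b hTg hAt hLv hlm using h1
  have hSw : Lv (S w) (fun l => (((∑ s, e s • b s) l : GM.kI L (a * r)) : L.κ)) := by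
    have h2 := hS.sum Finset.univ
      (a := fun s => e s • S (Finsupp.single (P' s) 1 - Finsupp.single (P s) 1))
      (b := fun s => e s • fun l => (b s l : L.κ)) fun s _ => hS.zsmul (hLv s) (e s)
    have h3 : S w = ∑ s, e s • S (Finsupp.single (P' s) 1 - Finsupp.single (P s) 1) := by
      rw [hws, map_sum]
      exact Finset.sum_congr rfl fun s _ => map_zsmul S (e s) _
    rw [← h3] at h2
    have h4 : (∑ s, e s • fun l => (b s l : L.κ)) =
        fun l => (((∑ s, e s • b s) l : GM.kI L (a * r)) : L.κ) := by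
      funext l
      rw [Finset.sum_apply, Finset.sum_apply, lz_sm]
      refine Finset.sum_congr rfl fun s _ => ?_
      exact (map_zsmul (GM.kI L (a * r)).subtype (e s) (b s l)).symm
    rwa [h4] at h2
  have hrt := hS.rtr ha hr hφ (wd_fx hw) hSw
  rw [← hW] at hrt
  have h5 := hS.uniq _ _ _ hrt hSW
  have h6 : ∀ l, ∑ i ∈ Finset.range r, ((∑ s, e s • b s) l) ^ (L.p ^ a) ^ i = 0 := by
    intro l
    have h7 := congrFun h5 l
    apply Subtype.ext
    rw [lz_sm]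
    refine Eq.trans (Finset.sum_congr rfl fun i _ => ?_) h7
    exact lz_pow _ _
  -- the element with trace `1`
  obtain ⟨c, hc, hc1, hct⟩ := Ld.ur_tr hφ ha hr (u := 1) (one_mem _) L.one.le
  have h1J : 1 ∈ GM.Jc L.p L.pp := fun h => L.pp.one_lt.ne' (Nat.dvd_one.1 h)
  obtain ⟨θ, hθ⟩ : ∃ t : GM.kI L (a * r), L.rs.Hv c (t : L.κ) :=
    GM.kJ_res hR h1J one_ne_zero (Ld.ur_le hc) hc1
  have hpow : ∀ i : ℕ, L.rs.Hv ((φ ^ i) c) ((θ : L.κ) ^ (L.p ^ a) ^ i) := by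
    intro i
    induction i with
    | zero =>
      rw [pow_zero, pow_zero, pow_one]
      exact hθ
    | succ i ih =>
      have h2 := frb_hv hφ ih
      rw [← pow_mul, ← pow_succ] at h2
      rw [pow_succ' φ]
      exact h2
  have hθr : θ ^ (L.p ^ a) ^ r = θ := by
    apply Subtype.ext
    rw [lz_pow]
    have h2 := (IntermediateField.mem_fixingSubgroup_iff _ _).1
      (((Ld.ur_cyc hφ ha hr).1 r).2 dvd_rfl) c hc
    have h3 := hpow r
    rw [h2] at h3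
    exact h3.uniq hθ
  have hθ1 : ∑ i ∈ Finset.range r, θ ^ (L.p ^ a) ^ i = 1 := by
    apply Subtype.ext
    rw [lz_sm]
    have h2 : L.rs.Hv (∑ i ∈ Finset.range r, (φ ^ i) c)
        (((∑ i ∈ Finset.range r, θ ^ (L.p ^ a) ^ i : GM.kI L (a * r))) : L.κ) := by
      refine lz_sum _ fun i _ => ?_
      rw [lz_pow]
      exact hpow i
    rw [hct, lz_sm] at h2
    exact h2.uniq Rs.Hv.one
  have hch : CharP (GM.kI L (a * r)) L.p := GM.kJ_char _ _ _
  have hft := tf_ft hG.hm hf' hG.hp hG.h2 hl hM hR hx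
  have h8 := hRl.tr L.pp rfl hft (fun x t h => frb_tg hφ hx.rf h) (fun x t c h => tg_smul h c)
    (fun x t h => tf_frb hG.h2 hl hR hφ hx h) (fun x t b h => frb_at hφ ho h) hr hθr hθ1
    Finset.univ e y u b (fun s _ => ⟨hTg s, hAt s⟩) h6
  rw [hlam, hW, hws, map_sum, map_sum]
  refine Eq.trans (Finset.sum_congr rfl fun s _ => ?_) h8
  rw [map_zsmul, map_zsmul, hlm s]

end GX
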