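import Pool.Agent.Lib.MP_f80667_ag.St.Wx

/-! The sums of displacements. -/

open ZC BE PE CV IntermediateField

namespace GX

variable {F : Type} [Field F] {N g h : ℕ} {ι : Type} {f : ι → MvPolynomial (Fin N) F}
  {K Ω : Type} [Field K] [CharZero K] [Field Ω] [Algebra K Ω] [Algebra F K] [Algebra F Ω]
  [IsScalarTower F K Ω] [IsAlgClosure K Ω] {L : Ld K Ω} {A : Type} [AddCommGroup A]
  {ω : Om F N g h} {S : ((Xf f).pt Ω →₀ ℤ) →+ A} {Lv : A → (Fin g → L.κ) → Prop}

theorem Sml.add (hS : Sml f L ω S Lv) {a a' : A} {b b' : Fin g → L.κ} (h : Lv a b)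
    (h' : Lv a' b') : Lv (a + a') (b + b') := by
  have h1 := hS.sub _ _ _ _ hS.zero h'
  have h2 := hS.sub _ _ _ _ h h1
  rwa [zero_sub, zero_sub, sub_neg_eq_add, sub_neg_eq_add] at h2

theorem Sml.sum (hS : Sml f L ω S Lv) {σ : Type} (s : Finset σ) {a : σ → A}
    {b : σ → Fin g → L.κ} (h : ∀ i ∈ s, Lv (a i) (b i)) : Lv (∑ i ∈ s, a i) (∑ i ∈ s, b i) := by
  classical
  induction s using Finset.induction_on with
  | empty =>
    rw [Finset.sum_empty, Finset.sum_empty]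
    exact hS.zero
  | insert i s hi ih =>
    rw [Finset.sum_insert hi, Finset.sum_insert hi]
    exact hS.add (h i (Finset.mem_insert_self _ _))
      (ih fun j hj => h j (Finset.mem_insert_of_mem hj))

/-- Proof: natural multiples and negatives. -/
theorem Sml.zsmul (hS : Sml f L ω S Lv) {a : A} {b : Fin g → L.κ} (h : Lv a b) (n : ℤ) :
    Lv (n • a) (n • b) := by
  have key : ∀ m : ℕ, Lv (m • a) (m • b) := by
    intro m
    induction m with
    | zero =>
      rw [zero_smul, zero_smul]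
      exact hS.zero
    | succ m ih =>
      rw [succ_nsmul, succ_nsmul]
      exact hS.add ih h
  obtain ⟨m, hm | hm⟩ := n.eq_nat_or_neg
  · rw [hm, natCast_zsmul, natCast_zsmul]
    exact key m
  · have h1 := hS.sub _ _ _ _ hS.zero (key m)
    rw [hm, neg_smul, neg_smul, natCast_zsmul, natCast_zsmul]
    rwa [zero_sub, zero_sub] at h1

/-- Points near to each other. Proof: normalized coordinates (`exists_nco` or the coordinates of `Nrh`), `hS.one`. -/
theorem Sml.near (hS : Sml f L ω S Lv) {P P' : (Xf f).pt Ω}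
    (h : Nrh f L (L.nm (L.p : Ω)) P' P) :
    ∃ b, Lv (S (Finsupp.single P' 1 - Finsupp.single P 1)) b := by
  obtain ⟨x, x', h1, h2, h3, h4, h5, h6, h7⟩ := h
  obtain ⟨b, -, hb⟩ := hS.one P P' x' x h2 h1 h4 h6 h7
  exact ⟨b, hb⟩

omit [CharZero K] [IsAlgClosure K Ω] in
private theorem sv_fd {M M' : IntermediateField K Ω} (h : M ≤ M') (hM : FiniteDimensional K M') :
    FiniteDimensional K M :=
  FiniteDimensional.of_injective (IntermediateField.inclusion h).toLinearMap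
    (IntermediateField.inclusion h).injective

/-- The sum of a trace of a difference of near points. -/
private theorem sv_gen (hS : Sml f L ω S Lv) {r : ℝ} {C : (Fin g → L.κ) → Prop} (hC0 : C 0)
    (hCa : ∀ b b', C b → C b' → C (b + b'))
    (hr : ∀ P P' : (Xf f).pt Ω, Nrh f L r P' P →
      ∃ b, C b ∧ Lv (S (Finsupp.single P' 1 - Finsupp.single P 1)) b)
    {N' : ℕ} {M' : IntermediateField K Ω} {y y' : (Xf f).pt Ω} (hN : N' ≠ 0)
    (hM : M' ≤ L.Ur ⊥ N') (hy : Nrh f L r y y') :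
    ∃ b, C b ∧ Lv (S (rtr (Xf f) ⊥ M' (Finsupp.single y 1 - Finsupp.single y' 1))) b := by
  classical
  have hfd : FiniteDimensional K M' := sv_fd hM (Ld.ur_fin ⊥ N' hN)
  obtain ⟨s, -, -, -, hs⟩ := nm_rep (K := K) (Ω := Ω) (bot_le : ⊥ ≤ M')
  have h1 : ∀ γ : Ω ≃ₐ[K] Ω, ∃ b, C b ∧
      Lv (S (γ • (Finsupp.single y 1 - Finsupp.single y' 1 : (Xf f).pt Ω →₀ ℤ))) b := by
    intro γ
    rw [smul_sub, smul_single, smul_single]
    exact hr _ _ (nrh_act γ hy)
  choose b hb hb' using h1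
  refine ⟨∑ γ ∈ s, b γ, ?_, ?_⟩
  · exact Finset.sum_induction b C (fun a b ha hb => hCa a b ha hb) hC0 fun γ _ => hb γ
  · rw [rtr_eq bot_le, hs, map_sum]
    exact hS.sum s fun γ _ => hb' γ

/-- Displacements have small sums. Proof: `AddSubgroup.closure_induction`; the trace is `∑ γ • w` (`rtr_eq`, `nm_rep`), `nrh_act`, `Sml.near`. -/
theorem Sml.dl_one (hS : Sml f L ω S Lv) {z : (Xf f).pt Ω →₀ ℤ}
    (hz : z ∈ Dl f L 1 (⊥ : IntermediateField K Ω)) : ∃ b, Lv (S z) b := by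
  unfold Dl Dsp at hz
  induction hz using AddSubgroup.closure_induction with
  | mem z h =>
    obtain ⟨N', M', y, y', hN, -, hM, -, -, hy, rfl⟩ := h
    rw [pow_one] at hy
    obtain ⟨b, -, hb⟩ := sv_gen hS (C := fun _ => True) trivial (fun _ _ _ _ => trivial)
      (fun P P' h => by
        obtain ⟨b, hb⟩ := hS.near h
        exact ⟨b, trivial, hb⟩) hN hM hy
    exact ⟨b, hb⟩
  | zero =>
    rw [map_zero]
    exact ⟨0, hS.zero⟩
  | add x y _ _ hx hy =>
    obtain ⟨b, hb⟩ := hx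
    obtain ⟨b', hb'⟩ := hy
    rw [map_add]
    exact ⟨_, hS.add hb hb'⟩
  | neg x _ hx =>
    obtain ⟨b, hb⟩ := hx
    have h1 := hS.sub _ _ _ _ hS.zero hb
    rw [zero_sub] at h1
    rw [map_neg]
    exact ⟨_, h1⟩

/-- Proof: the same with `hS.two`. -/
theorem Sml.dl_two (hS : Sml f L ω S Lv) {z : (Xf f).pt Ω →₀ ℤ}
    (hz : z ∈ Dl f L 2 (⊥ : IntermediateField K Ω)) : Lv (S z) 0 := by
  unfold Dl Dsp at hz
  induction hz using AddSubgroup.closure_induction with
  | mem z h =>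
    obtain ⟨N', M', y, y', hN, -, hM, -, -, hy, rfl⟩ := h
    obtain ⟨b, hb0, hb⟩ := sv_gen hS (C := fun b => b = 0) rfl
      (fun b b' h h' => by rw [h, h', add_zero])
      (fun P P' h => ⟨0, rfl, hS.two P P' h⟩) hN hM hy
    rwa [hb0] at hb
  | zero =>
    rw [map_zero]
    exact hS.zero
  | add x y _ _ hx hy =>
    have h1 := hS.add hx hy
    rw [add_zero] at h1
    rwa [map_add]
  | neg x _ hx =>
    have h1 := hS.sub _ _ _ _ hS.zero hx
    rw [zero_sub, zero_sub, neg_zero] at h1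
    rwa [map_neg]

/-- The sum of a trace. Proof: `rtr_eq`, `Ld.ur_nm` (`M = ⊥`, `f * d = R`), `hS.frb` iterated. -/
theorem Sml.rtr (hS : Sml f L ω S Lv) {φ : Ω ≃ₐ[K] Ω} {a r : ℕ} (ha : a ≠ 0) (hr : r ≠ 0)
    (hφ : Frob L.toLf (⊥ : IntermediateField K Ω) φ (L.p ^ a)) {w : (Xf f).pt Ω →₀ ℤ}
    (hw : Fx (L.Ur (⊥ : IntermediateField K Ω) (a * r)) w) {b : Fin g → L.κ}
    (h : Lv (S w) b) : Lv (S (rtr (Xf f) ⊥ (L.Ur ⊥ (a * r)) w)) fun l =>
      ∑ i ∈ Finset.range r, b l ^ (L.p ^ a) ^ i := by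
  have hfd : FiniteDimensional K (L.Ur (⊥ : IntermediateField K Ω) (a * r)) :=
    Ld.ur_fin ⊥ (a * r) (mul_ne_zero ha hr)
  have h1 : ∀ i : ℕ, Lv (S (φ ^ i • w)) fun l => b l ^ (L.p ^ a) ^ i := by
    intro i
    induction i with
    | zero =>
      simp only [pow_zero, pow_one, one_smul]
      exact h
    | succ i ih =>
      have h2 := hS.frb φ _ hφ _ _ ih
      rw [← CV.smul_def, ← mul_smul, ← pow_succ'] at h2
      have h3 : (fun l => (b l ^ (L.p ^ a) ^ i) ^ (L.p ^ a)) =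
          fun l => b l ^ (L.p ^ a) ^ (i + 1) := by
        funext l
        rw [← pow_mul, ← pow_succ]
      rwa [h3] at h2
  rw [rtr_eq bot_le, Ld.ur_nm hφ ha hr hw, map_sum]
  have h3 := hS.sum (Finset.range r) fun i _ => h1 i
  have h4 : (fun l => ∑ i ∈ Finset.range r, b l ^ (L.p ^ a) ^ i) =
      ∑ i ∈ Finset.range r, fun l => b l ^ (L.p ^ a) ^ i := by
    funext l
    rw [Finset.sum_apply]
  rw [h4]
  exact h3

end GX
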