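import Pool.Agent.Lib.MP_f80667_ag.Gx.TeB
import Pool.Agent.Lib.MP_f80667_ag.Gx.TsLb
import Pool.Agent.Lib.MP_f80667_ag.Gx.La
import Pool.Agent.Lib.MP_f80667_ag.Gy.TB
import Pool.Agent.Lib.MP_f80667_ag.St.A

/-! The trace relation. -/

open ZC BE PE CV IntermediateField

namespace GX

variable {F : Type} [Field F] {N d : ℕ} {ι : Type} {f : ι → MvPolynomial (Fin N) F}
  {K Ω : Type} [Field K] [CharZero K] [Field Ω] [Algebra K Ω] [Algebra F K] [Algebra F Ω]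
  [IsScalarTower F K Ω] [IsAlgClosure K Ω] {L : Ld K Ω}

omit [CharZero K] [IsAlgClosure K Ω] in
private theorem tr_pt {ψ : Prj K N d} (hψ : Pj f L ψ) {M : IntermediateField K Ω}
    {x : Fin N → Ω} (hx : Iv L M x) (hD : L.nm (MvPolynomial.aeval (ψ.uv x) ψ.D) = 1)
    {a : Fin (d + 1) → Polynomial Ω} {Q : Ω → (Xf f).pt Ω} (hQ : Brc f L ψ M x a Q) {b : Ω}
    (hb1 : L.nm b < 1) {x' : Fin N → Ω} (h1 : ∀ j, L.nm (x' j) ≤ 1) {P' : (Xf f).pt Ω}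
    (hP' : Co P' x') (hn : ∀ j, L.nm (x' j - x j) < 1) (hu : ∀ r, ψ.uv x' r = (a r).eval b) :
    Q b = P' := by
  obtain ⟨z, hz, hz1, hz2, hz3⟩ := hQ.co b hb1
  have hx1 : ∀ j, L.nm (x j) ≤ 1 := fun j => (hx j).2
  obtain ⟨hu1, -⟩ := hψ.uv_le hx1
  have hDz : L.nm (MvPolynomial.aeval (ψ.uv z) ψ.D) = 1 := by
    refine hψ.D_close hu1 (hψ.uv_le hz1).1 (fun r => ?_) hD
    exact lv_lt (L := L) (a := ψ.u r) (hψ.iu r) (x := x) (x' := z) fun j => by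
      rw [L.sub_comm]
      exact (hz2 j).trans_lt hb1
  have h2 := hψ.inj (x := z) (x' := x') hz1 h1 (co_zero hz) (co_zero hP') hDz
    (fun j => by
      have e1 : x' j - z j = (x' j - x j) + -(z j - x j) := by ring
      rw [e1]
      refine (L.add _ _).trans_lt (max_lt (hn j) ?_)
      rw [L.neg]
      exact (hz2 j).trans_lt hb1) (funext fun r => by rw [hz3 r]; exact hu r)
  rw [h2] at hP'
  exact co_eq hz hP'

/-- **The trace relation (TR).** `x`, `x₁` over `M`, `x₂` over `Ur M (a s)`, on one sheet of the projection; the projection of `x₂` is `u (x) + c (u (x₁) - u (x))`, `c` has the trace `1`. -/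
theorem tr [L.Unr] {ψ : Prj K N d} (hψ : Pj f L ψ) {M : IntermediateField K Ω}
    (hM : Um L M) {φ : Ω ≃ₐ[K] Ω} {a s : ℕ} (hφ : Frob L.toLf M φ (L.p ^ a)) (ha : a ≠ 0)
    (hs : s ≠ 0) {x x₁ x₂ : Fin N → Ω} (hx : Iv L M x) (h₁ : Iv L M x₁)
    (h₂ : Iv L (L.Ur M (a * s)) x₂) (hD : L.nm (MvPolynomial.aeval (ψ.uv x) ψ.D) = 1)
    (hx₁ : ∀ i, L.nm (x₁ i - x i) < 1) (hx₂ : ∀ i, L.nm (x₂ i - x i) < 1) {c : Ω}
    (hc : c ∈ L.Ur M (a * s)) (hc1 : L.nm c ≤ 1)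
    (hct : ∑ i ∈ Finset.range s, (φ ^ i) c = 1)
    (h : ∀ r, ψ.uv x₂ r = ψ.uv x r + c * (ψ.uv x₁ r - ψ.uv x r)) {P P₁ P₂ : (Xf f).pt Ω}
    (hP : Co P x) (hP₁ : Co P₁ x₁) (hP₂ : Co P₂ x₂) :
    rtr (Xf f) M (L.Ur M (a * s)) (Finsupp.single P₂ 1 - Finsupp.single P 1) -
      (Finsupp.single P₁ 1 - Finsupp.single P 1) ∈ Dl f L 2 M ⊔ (Xf f).ratEq M Ω := by
  have hfd : FiniteDimensional K M := hM.fd
  have hfd' : FiniteDimensional K (L.Ur M (a * s)) := Ld.ur_fin M _ (mul_ne_zero ha hs)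
  have hle : M ≤ L.Ur M (a * s) := Ld.ur_le
  have hp0 := L.p_pos
  have hpne : (L.p : Ω) ≠ 0 := L.ne_zero hp0
  have hpM : (L.p : Ω) ∈ M := IntermediateField.natCast_mem M L.p
  have h01 : L.nm (0 : Ω) < 1 := by rw [L.zero]; exact zero_lt_one
  have hx1 : ∀ j, L.nm (x j) ≤ 1 := fun j => (hx j).2
  obtain ⟨N', hN', hMN⟩ := id hM
  -- the arc
  have hu1M : ∀ r, ψ.uv x₁ r - ψ.uv x r ∈ M := fun r =>
    sub_mem (lv_mem _ fun j => (h₁ j).1) (lv_mem _ fun j => (hx j).1)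
  have hu1n : ∀ r, L.nm (ψ.uv x₁ r - ψ.uv x r) ≤ L.nm (L.p : Ω) := fun r => by
    have e1 := Ld.ur_lt hN' (hMN (hu1M r)) (i := 0) (by
      rw [pow_zero]
      exact lv_lt (L := L) (a := ψ.u r) (hψ.iu r) (x := x₁) (x' := x) hx₁)
    rwa [zero_add, pow_one] at e1
  obtain ⟨A, hA⟩ : ∃ A : Fin (d + 1) → Polynomial Ω, ∀ r, A r =
      Polynomial.C ((ψ.uv x₁ r - ψ.uv x r) / L.p) * Polynomial.X + Polynomial.C (ψ.uv x r) :=
    ⟨_, fun _ => rfl⟩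
  have hAe : ∀ r c, (A r).eval c = (ψ.uv x₁ r - ψ.uv x r) / L.p * c + ψ.uv x r := fun r c => by
    rw [hA, Polynomial.eval_add, Polynomial.eval_mul, Polynomial.eval_C, Polynomial.eval_X,
      Polynomial.eval_C]
  have hArc : Arc L M A := by
    intro r j
    rw [hA, Polynomial.coeff_add, Polynomial.coeff_C_mul, Polynomial.coeff_X, Polynomial.coeff_C]
    rcases j with _ | _ | j
    · simp only [if_neg (show ¬ (1 = 0) by omega), if_true, mul_zero, zero_add]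
      exact ⟨lv_mem _ fun j => (hx j).1, (hψ.uv_le hx1).1 r⟩
    · simp only [zero_add, if_true, if_neg (show ¬ (1 = 0) by omega), mul_one, add_zero]
      refine ⟨div_mem (hu1M r) hpM, ?_⟩
      rw [L.div, div_le_one hp0]
      exact hu1n r
    · rw [if_neg (by omega), if_neg (by omega), mul_zero, add_zero]
      exact ⟨zero_mem M, by rw [L.zero]; exact zero_le_one⟩
  obtain ⟨Q, hQ⟩ := exists_brc hψ hM hx (co_zero hP) hD hArc fun r => by
    rw [hAe, mul_zero, zero_add]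
  -- the element `b = p c`
  obtain ⟨b, hb⟩ : ∃ b : Ω, b = L.p • c := ⟨_, rfl⟩
  have hbc : b = L.p * c := by rw [hb, nsmul_eq_mul]
  have hbM : b ∈ L.Ur M (a * s) := by
    rw [hbc]
    exact mul_mem (IntermediateField.natCast_mem _ L.p) hc
  have hbn : L.nm b ≤ L.nm (L.p : Ω) := by
    rw [hbc, L.mul]
    exact mul_le_of_le_one_right hp0.le hc1
  have hb1 : L.nm b < 1 := hbn.trans_lt L.lt
  have hNb : Nm M (L.Ur M (a * s)) b = L.p := by
    rw [hb, nm_nsmul hle, Ld.ur_nm hφ ha hs (fx_mem.2 hc)]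
    change L.p • ∑ i ∈ Finset.range s, (φ ^ i) c = _
    rw [hct, nsmul_eq_mul, mul_one]
  have hQ0 : Q 0 = P := tr_pt hψ hx hD hQ h01 hx1 hP (fun j => by rw [sub_self]; exact h01)
    fun r => by rw [hAe, mul_zero, zero_add]
  have hQ1 : Q L.p = P₁ := tr_pt hψ hx hD hQ L.lt (fun j => (h₁ j).2) hP₁ hx₁ fun r => by
    rw [hAe, div_mul_cancel₀ _ hpne, sub_add_cancel]
  have hQ2 : Q b = P₂ := tr_pt hψ hx hD hQ hb1 (fun j => (h₂ j).2) hP₂ hx₂ fun r => by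
    rw [hAe, h r, hbc]
    field_simp
    ring
  obtain ⟨q, q', hq, hq', hqd, hqq, hr⟩ := exists_cj (L := L) hle hbM hbn L.lt
  obtain ⟨hr1, hr2⟩ := hr Q hQ.act
  have hla := hQ.la q q' hq hq' hqd 2 two_ne_zero hqq
  rw [hr1, hr2, hNb, hQ0, hQ1, hQ2] at hla
  rw [map_sub, rtr_eq hle, rtr_eq hle, sub_sub]
  exact hla

end GX
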