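import Pool.Agent.Lib.MP_f80667_ag.St.Tr
import Pool.Agent.Lib.MP_f80667_ag.Gx.TsV
import Pool.Agent.Lib.MP_f80667_ag.Gx.ChE
import Pool.Agent.Lib.MP_f80667_ag.Cv.Eis

/-! All displacements come from one unramified extension. -/

open ZC BE PE CV IntermediateField

namespace GX

variable {F : Type} [Field F] {N d m : ℕ} {ι : Type} {f : ι → MvPolynomial (Fin N) F}
  {K Ω : Type} [Field K] [CharZero K] [Field Ω] [Algebra K Ω] [Algebra F K] [Algebra F Ω]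
  [IsScalarTower F K Ω] [IsAlgClosure K Ω] {L : Ld K Ω}

/-- Congruent coordinates over `M` of two near points over `M`, one of them is `1`. Proof: `gsfl_co` of `Gm/GsFl.lean` (`co_smul`, `fp_mem`). -/
theorem exists_cox (hf : Hm f) {M : IntermediateField K Ω} {P P' : (Xf f).pt Ω}
    (hP : Fp (Xf f) M P) (hP' : Fp (Xf f) M P') {r : ℝ} (hr : r < 1) (h : Nrh f L r P' P) :
    ∃ (x x' : Fin N → Ω) (i : Fin N), Co P x ∧ Co P' x' ∧ Iv L M x ∧ Iv L M x' ∧ x i = 1 ∧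
      ∀ j, L.nm (x' j - x j) ≤ r := by
  obtain ⟨x', x, i, k1, k2, k3, k4, k5, k6, k7⟩ := nrh_nco hf hr h
  exact ⟨x, x', i, k2, k1, fun j => ⟨fp_mem hP k2 k4 j, k6 j⟩,
    fun j => ⟨fp_mem hP' k1 k3 j, k5 j⟩, k4, k7⟩

/-- A difference of near points over `M` is the trace of one over `Ur M (a s)`. Proof: `exists_cox`; a projection `ψ i` with `D (u (x))` a unit (`hc`); the Frobenius automorphism `φ` of `M` (`exists_frob`, `Ld.rf_frob`); `c` with trace `1` (`Ld.ur_tr`); `x₂` over `u (x) + c (u (x₁) - u (x))` on the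
sheet of `x`: `Pj.root` / `Pj.pt_iv` of `ChB`, `ChC` (as in the proof of `exists_lift`), near `x` (`Pj.near`: `x₂ - x` has norm `≤ nm p`); `tr`. -/
theorem wd_gen [L.Unr] (hf : Hm f) {ψ : Fin m → Prj K N d} (hψ : ∀ i, Pj f L (ψ i))
    (hc : Cvr f L ψ) {M : IntermediateField K Ω} (hM : Um L M) {a s : ℕ} (hR : L.Rf M a)
    (hs : s ≠ 0) {P P' : (Xf f).pt Ω} (hP : Fp (Xf f) M P) (hP' : Fp (Xf f) M P')
    (h : Nrh f L (L.nm (L.p : Ω)) P' P) :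
    ∃ w ∈ Wd f L (L.Ur M (a * s)), Finsupp.single P' 1 - Finsupp.single P 1 -
      rtr (Xf f) M (L.Ur M (a * s)) w ∈ Dl f L 2 M ⊔ (Xf f).ratEq M Ω := by
  have hfd := hM.fd
  have hp1 : L.nm (L.p : Ω) < 1 := L.lt
  have hp0 : 0 ≤ L.nm (L.p : Ω) := L.nonneg _
  obtain ⟨x, x', i, cx, cx', hx, hx', hi, hd⟩ := exists_cox hf hP hP' hp1 h
  have hx1 : ∀ j, L.nm (x j) ≤ 1 := fun j => (hx j).2
  have hx1' : ∀ j, L.nm (x' j) ≤ 1 := fun j => (hx' j).2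
  have h1 : ∃ j, L.nm (x j) = 1 := ⟨i, by rw [hi, L.one]⟩
  have h0 : ∀ j, MvPolynomial.aeval x (f j) = 0 := fun j => co_zero cx j
  obtain ⟨k, hk⟩ := hc x hx1 h1 fun j => by rw [h0 j, L.zero]; exact zero_lt_one
  have hj := hψ k
  obtain ⟨φ, q, hφ⟩ := exists_frob L.toLf M
  rw [Ld.rf_frob hR hφ] at hφ
  obtain ⟨c, hcM, hc1, hct⟩ := Ld.ur_tr hφ hR.ne hs M.one_mem L.one.le
  have hMU : M ≤ L.Ur M (a * s) := Ld.ur_le
  obtain ⟨hu, hy⟩ := hj.uv_le hx1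
  obtain ⟨hu', hy'⟩ := hj.uv_le hx1'
  obtain ⟨e, he⟩ : ∃ e : Fin (d + 1) → Ω,
      e = fun r => (ψ k).uv x r + c * ((ψ k).uv x' r - (ψ k).uv x r) := ⟨_, rfl⟩
  have hcl : ∀ r, L.nm ((ψ k).uv x' r - (ψ k).uv x r) ≤ L.nm (L.p : Ω) := fun r =>
    lv_close (hj.iu r) hp0 hd
  have hue : ∀ r, L.nm (e r - (ψ k).uv x r) ≤ L.nm (L.p : Ω) := by
    intro r
    have e1 : e r - (ψ k).uv x r = c * ((ψ k).uv x' r - (ψ k).uv x r) := by
      rw [he]
      ring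
    rw [e1, L.mul]
    exact (mul_le_of_le_one_left (L.nonneg _) hc1).trans (hcl r)
  have huM : ∀ r, (ψ k).uv x r ∈ M := fun r => lv_mem _ fun j => (hx j).1
  have huM' : ∀ r, (ψ k).uv x' r ∈ M := fun r => lv_mem _ fun j => (hx' j).1
  have hyM : (ψ k).yv x ∈ M := lv_mem _ fun j => (hx j).1
  have hIe : Iv L (L.Ur M (a * s)) e := by
    intro r
    refine ⟨?_, ?_⟩
    · rw [he]
      exact add_mem (hMU (huM r)) (mul_mem hcM (hMU (sub_mem (huM' r) (huM r))))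
    · rw [he]
      refine (L.add _ _).trans (max_le (hu r) ?_)
      rw [L.mul]
      exact mul_le_one₀ hc1 (L.nonneg _) ((hcl r).trans hp1.le)
  have he1 : ∀ r, L.nm (e r) ≤ 1 := fun r => (hIe r).2
  have hDe : L.nm (MvPolynomial.aeval e (ψ k).D) = 1 :=
    hj.D_close hu he1 (fun r => by
      rw [L.sub_comm]
      exact (hue r).trans_lt hp1) hk
  have hDne : MvPolynomial.aeval ((ψ k).uv x) (ψ k).D ≠ 0 :=
    L.ne_zero (by rw [hk]; exact zero_lt_one)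
  obtain ⟨hG0, hpt⟩ := hj.pt_eq (co_ne cx) h0 hDne
  have hGe : L.nm (pe e ((ψ k).yv x) (ψ k).G) ≤ L.nm (L.p : Ω) := by
    have h3 := pe_close hj.iG he1 hy hu hy hp0 hue (by rw [sub_self, L.zero]; exact hp0)
    rwa [hG0, sub_zero] at h3
  obtain ⟨w, hw, hw1, hwG, hww⟩ :=
    hj.root hIe hDe (hMU hyM) hy (hGe.trans_lt hp1)
  obtain ⟨j1, j2, j3, j4, j5, -⟩ := hj.pt_iv hIe hw hw1 hwG hDe
  obtain ⟨P₂, cP₂⟩ := co_mk j3 j4
  have hcl2 : ∀ j, L.nm (((ψ k).om Ω).pt e w j - x j) ≤ L.nm (L.p : Ω) := by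
    intro j
    have h3 := hj.pt_close he1 hw1 hu hy hDe hk hp0 hue (hww.trans hGe) j
    rwa [hpt] at h3
  have ht := tr hj hM hφ hR.ne hs hx hx' j1 hk (fun j => (hd j).trans_lt hp1)
    (fun j => (hcl2 j).trans_lt hp1) hcM hc1 hct
    (fun r => by rw [j5, he]) cx cx' cP₂
  refine ⟨Finsupp.single P₂ 1 - Finsupp.single P 1, AddSubgroup.subset_closure
    ⟨P, P₂, fp_co cx fun j => hMU (hx j).1, fp_co cP₂ fun j => (j1 j).1,
      ⟨_, x, cP₂, cx, fun j => (j1 j).2, hx1, j2, h1, hcl2⟩, rfl⟩, ?_⟩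
  have h5 := neg_mem ht
  rwa [neg_sub] at h5

/-- The elements of `Wd` are fixed. -/
theorem wd_fx {M : IntermediateField K Ω} {w : (Xf f).pt Ω →₀ ℤ} (hw : w ∈ Wd f L M) :
    Fx M w := by
  unfold Wd at hw
  induction hw using AddSubgroup.closure_induction with
  | mem z hz =>
    obtain ⟨P, P', hP, hP', -, rfl⟩ := hz
    exact (fx_single hP' 1).sub (fx_single hP 1)
  | zero => exact Fx.zero
  | add a b _ _ ha hb => exact ha.add hb
  | neg a _ ha => exact ha.neg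

/-- **One extension.** Proof: `AddSubgroup.closure_induction` (`Dl`, `Dsp`); sums: the product of the numbers `N₀`. Generator: `M ≤ Ur ⊥ N'`, `exists_ur M`: `L.Rf M a`; `N₀ = N' * a`; `R = N' * a * k = a * s`: `L.Ur M (a * s) = L.Ur ⊥ R` because `M ≤ Ur ⊥ N' ≤ Ur ⊥ R` (`Ld.ur_dvd`, `ur_bot_ur`); `wd_gen`; apply `rtr ⊥ M`:
`rtr_eq`, `nm_tr` (the cycles are fixed: `wd_fx`), `dl_tr`, `rat_tr` (the two parts of the element of the sup are fixed: `dl_fx` and the difference). -/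
theorem exists_wd [L.Unr] (hf : Hm f) {ψ : Fin m → Prj K N d} (hψ : ∀ i, Pj f L (ψ i))
    (hc : Cvr f L ψ) {z : (Xf f).pt Ω →₀ ℤ}
    (hz : z ∈ Dl f L 1 (⊥ : IntermediateField K Ω)) :
    ∃ N₀ ≠ 0, ∀ R ≠ 0, N₀ ∣ R → ∃ w ∈ Wd f L (L.Ur (⊥ : IntermediateField K Ω) R),
      z - rtr (Xf f) ⊥ (L.Ur ⊥ R) w ∈
        Dl f L 2 (⊥ : IntermediateField K Ω) ⊔ (Xf f).ratEq K Ω := by
  unfold Dl Dsp at hz
  induction hz using AddSubgroup.closure_induction with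
  | mem z hz =>
    obtain ⟨N', M, P', P, hN', -, hM', hP', hP, hn, rfl⟩ := hz
    have hM : Um L M := ⟨N', hN', hM'⟩
    have hfd := hM.fd
    obtain ⟨a, ha0, ha⟩ := exists_ur (L := L) M
    rw [pow_one] at hn
    refine ⟨N' * a, mul_ne_zero hN' ha0, ?_⟩
    rintro R hR ⟨k, rfl⟩
    have hs : N' * k ≠ 0 := fun h0 => hR (by rw [mul_right_comm, h0, zero_mul])
    have hMU : M ≤ L.Ur ⊥ (N' * a * k) :=
      hM'.trans (Ld.ur_dvd _ ⟨a * k, by rw [mul_assoc]⟩)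
    have hU : L.Ur M (a * (N' * k)) = L.Ur ⊥ (N' * a * k) := by
      have e1 : a * (N' * k) = N' * a * k := by ring
      rw [e1]
      refine le_antisymm ?_ (Ld.ur_bot_ur M _)
      exact sup_le hMU le_sup_right
    obtain ⟨w, hw, hw2⟩ := wd_gen hf hψ hc hM ha hs hP hP' hn
    rw [hU] at hw hw2
    have hfU : FiniteDimensional K (L.Ur (⊥ : IntermediateField K Ω) (N' * a * k)) :=
      Ld.ur_fin ⊥ _ hR
    have hwf := wd_fx hw
    refine ⟨w, hw, ?_⟩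
    have hfx : Fx M (Finsupp.single P' 1 - Finsupp.single P 1 -
        rtr (Xf f) M (L.Ur ⊥ (N' * a * k)) w : (Xf f).pt Ω →₀ ℤ) := by
      rw [rtr_eq hMU]
      exact ((fx_single hP' 1).sub (fx_single hP 1)).sub (nm_fx hMU hwf)
    have h1 := GM.nm_sup hM hw2 hfx
    rw [← rtr_eq bot_le, map_sub] at h1
    have h2 : rtr (Xf f) ⊥ M (rtr (Xf f) M (L.Ur ⊥ (N' * a * k)) w) =
        rtr (Xf f) ⊥ (L.Ur ⊥ (N' * a * k)) w := by
      rw [rtr_eq bot_le, rtr_eq hMU, rtr_eq bot_le, nm_tr bot_le hMU hwf]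
    rwa [h2] at h1
  | zero =>
    refine ⟨1, one_ne_zero, fun R hR _ => ⟨0, zero_mem _, ?_⟩⟩
    rw [map_zero, sub_zero]
    exact zero_mem _
  | add a b _ _ ha hb =>
    obtain ⟨n, hn, h1⟩ := ha
    obtain ⟨n', hn', h2⟩ := hb
    refine ⟨n * n', mul_ne_zero hn hn', fun R hR hd => ?_⟩
    obtain ⟨w, hw, h3⟩ := h1 R hR ((dvd_mul_right n n').trans hd)
    obtain ⟨w', hw', h4⟩ := h2 R hR ((dvd_mul_left n' n).trans hd)
    refine ⟨w + w', add_mem hw hw', ?_⟩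
    rw [map_add, add_sub_add_comm]
    exact add_mem h3 h4
  | neg a _ ha =>
    obtain ⟨n, hn, h1⟩ := ha
    refine ⟨n, hn, fun R hR hd => ?_⟩
    obtain ⟨w, hw, h3⟩ := h1 R hR hd
    refine ⟨-w, neg_mem hw, ?_⟩
    rw [map_neg, ← neg_sub']
    exact neg_mem h3

end GX
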